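import Pool.Agent.Lib.MP_371b18_ag.Stm

/-!
A1: the `S`-side system.
-/

open Finset

namespace Pool.Agent.HH

theorem a1_sum {α : Type} [DecidableEq α] {R : Type} [CommRing R] [Algebra ℚ R]
    (V : Finset α) (x : Finset α → R) (S : Finset α) (a b : α) (ha : a ∈ S) (hb : b ∈ S) :
    ∑ T ∈ S.powerset with (a ∈ T ∧ b ∈ T), inx V x S T =
      ∑ T ∈ S.powerset with (a ∈ T ∧ b ∈ T), x T + yp V x S := by
  have h : ∀ T, inx V x S T = x T + if T = S then yp V x S else 0 := by
    intro T
    unfold inx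
    split_ifs with h
    · rw [h]
    · rw [add_zero]
  simp only [h]
  rw [Finset.sum_add_distrib, Finset.sum_ite_eq' (S.powerset.filter (fun T => a ∈ T ∧ b ∈ T)) S
    (fun _ => yp V x S), if_pos]
  simp [ha, hb]

theorem p_sys_in : S_sys_in := by
  intro α _ R _ _ m V x hx S hSV hS
  constructor
  · intro T T' hT hT' hc hc' hnc
    have hTS : T ≠ S := by
      rintro rfl
      exact hnc (Or.inr (Or.inl hT'))
    have hTS' : T' ≠ S := by
      rintro rfl
      exact hnc (Or.inl hT)
    have e : inx V x S T = x T := if_neg hTS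
    have e' : inx V x S T' = x T' := if_neg hTS'
    rw [e, e', show m * x S * (x T * x T') = x S * (m * (x T * x T')) by ring,
      hx.cross T T' (hT.trans hSV.1) (hT'.trans hSV.1) hc hc' hnc, mul_zero]
  · intro a ha b hb hab
    rw [a1_sum V x S a b ha hb]
    have hl := hx.lin a (hSV.1 ha) b (hSV.1 hb) hab
    -- split the sum over the subsets of `V`
    have h1 := Finset.sum_filter_add_sum_filter_not (V.powerset.filter (fun T => a ∈ T ∧ b ∈ T))
      (fun T => T ⊆ S) x
    have h2 := Finset.sum_filter_add_sum_filter_not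
      ((V.powerset.filter (fun T => a ∈ T ∧ b ∈ T)).filter (fun T => ¬ T ⊆ S)) (fun T => S ⊂ T) x
    have e1 : (V.powerset.filter (fun T => a ∈ T ∧ b ∈ T)).filter (fun T => T ⊆ S) =
        S.powerset.filter (fun T => a ∈ T ∧ b ∈ T) := by
      ext T
      simp only [mem_filter, mem_powerset]
      constructor
      · rintro ⟨⟨-, h⟩, h'⟩
        exact ⟨h', h⟩
      · rintro ⟨h, h'⟩
        exact ⟨⟨h.trans hSV.1, h'⟩, h⟩
    have e2 : ((V.powerset.filter (fun T => a ∈ T ∧ b ∈ T)).filter (fun T => ¬ T ⊆ S)).filter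
        (fun T => S ⊂ T) = V.powerset.filter (fun T => S ⊂ T) := by
      ext T
      simp only [mem_filter, mem_powerset]
      constructor
      · rintro ⟨⟨⟨h, -⟩, -⟩, h'⟩
        exact ⟨h, h'⟩
      · rintro ⟨h, h'⟩
        exact ⟨⟨⟨h, h'.1 ha, h'.1 hb⟩, h'.2⟩, h'⟩
    have h3 : m * x S * ∑ T ∈ ((V.powerset.filter (fun T => a ∈ T ∧ b ∈ T)).filter
        (fun T => ¬ T ⊆ S)).filter (fun T => ¬ S ⊂ T), x T = 0 := by
      rw [Finset.mul_sum]
      apply Finset.sum_eq_zero
      intro T hT
      simp only [mem_filter, mem_powerset] at hT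
      obtain ⟨⟨⟨hTV, haT, hbT⟩, hTS⟩, hST⟩ := hT
      rw [mul_assoc]
      apply hx.cross S T hSV.1 hTV hS
      · have : ({a, b} : Finset α) ⊆ T := by
          intro z hz
          rcases Finset.mem_insert.1 hz with rfl | hz
          · exact haT
          · rw [Finset.mem_singleton.1 hz]; exact hbT
        have h2 := Finset.card_le_card this
        rwa [Finset.card_pair hab] at h2
      · rintro (h | h | h)
        · exact hST ⟨h, hTS⟩
        · exact hTS h
        · exact Finset.disjoint_left.1 h ha haT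
    rw [e1] at h1
    rw [e2] at h2
    have h4 : ∑ T ∈ S.powerset with (a ∈ T ∧ b ∈ T), x T + yp V x S =
        ∑ T ∈ V.powerset with (a ∈ T ∧ b ∈ T), x T -
          ∑ T ∈ ((V.powerset.filter (fun T => a ∈ T ∧ b ∈ T)).filter
            (fun T => ¬ T ⊆ S)).filter (fun T => ¬ S ⊂ T), x T := by
      unfold yp
      rw [← h1, ← h2]
      ring
    rw [h4, mul_sub, h3, sub_zero, mul_assoc, mul_left_comm, hl, mul_zero]

end Pool.Agent.HH
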