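import Pool.Agent.Lib.MP_371b18_ag.Stm

/-!
Piece A2: the other side of a divisor is a rooted system.
-/

open Finset

namespace Pool.Agent.HH

section

variable {α : Type} [DecidableEq α] {V S : Finset α} {s : α}

private theorem a2_mem_outV {t : α} : t ∈ outV V S s ↔ t = s ∨ (t ∈ V ∧ t ∉ S) := by
  unfold outV
  rw [mem_insert, mem_sdiff]

private theorem a2_outV_sub (hSV : S ⊆ V) (hs : s ∈ S) : outV V S s ⊆ V := by
  intro t ht
  rcases a2_mem_outV.1 ht with rfl | h
  · exact hSV hs
  · exact h.1

private theorem a2_mem_outS {T : Finset α} {t : α} (hs : s ∈ S) (ht : t ∈ outV V S s) :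
    t ∈ outS S s T ↔ t ∈ T := by
  unfold outS
  split_ifs with h
  · rw [mem_union]
    constructor
    · rintro (h1 | h1)
      · exact h1
      · rcases a2_mem_outV.1 ht with rfl | h2
        · exact h
        · exact absurd h1 h2.2
    · exact Or.inl
  · exact Iff.rfl

private theorem a2_sub_outS {T : Finset α} : T ⊆ outS S s T := by
  unfold outS
  split_ifs
  · exact subset_union_left
  · exact Subset.refl _

private theorem a2_outS_sub {T : Finset α} (hSV : S ⊆ V) (hs : s ∈ S) (hT : T ⊆ outV V S s) :
    outS S s T ⊆ V := by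
  have h1 := hT.trans (a2_outV_sub hSV hs)
  unfold outS
  split_ifs
  · exact union_subset h1 hSV
  · exact h1

private theorem a2_compat {T T' : Finset α} (hs : s ∈ S) (hT : T ⊆ outV V S s)
    (hT' : T' ⊆ outV V S s) (h : Compat (outS S s T) (outS S s T')) : Compat T T' := by
  rcases h with h | h | h
  · exact Or.inl fun t ht => (a2_mem_outS hs (hT ht)).1 (h (a2_sub_outS ht))
  · exact Or.inr (Or.inl fun t ht => (a2_mem_outS hs (hT' ht)).1 (h (a2_sub_outS ht)))
  · refine Or.inr (Or.inr ?_)
    exact disjoint_of_subset_left a2_sub_outS (disjoint_of_subset_right a2_sub_outS h)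

private theorem a2_outS_cases {T : Finset α} (hT : T ⊆ outV V S s) :
    S ⊆ outS S s T ∨ Disjoint (outS S s T) S := by
  unfold outS
  split_ifs with h
  · exact Or.inl subset_union_right
  · refine Or.inr (disjoint_left.2 fun t ht htS => ?_)
    rcases a2_mem_outV.1 (hT ht) with rfl | h1
    · exact h ht
    · exact h1.2 htS

private theorem a2_inv {U : Finset α} (hs : s ∈ S) (hU : U ⊆ V)
    (h : S ⊆ U ∨ Disjoint U S) : outS S s (U ∩ outV V S s) = U := by
  rcases h with h | h
  · have h1 : s ∈ U ∩ outV V S s := mem_inter.2 ⟨h hs, a2_mem_outV.2 (Or.inl rfl)⟩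
    unfold outS
    rw [if_pos h1]
    ext t
    rw [mem_union, mem_inter, a2_mem_outV]
    constructor
    · rintro (h2 | h2)
      · exact h2.1
      · exact h h2
    · intro ht
      by_cases htS : t ∈ S
      · exact Or.inr htS
      · exact Or.inl ⟨ht, Or.inr ⟨hU ht, htS⟩⟩
  · have h1 : s ∉ U ∩ outV V S s := fun h2 => disjoint_left.1 h (mem_inter.1 h2).1 hs
    unfold outS
    rw [if_neg h1]
    ext t
    rw [mem_inter, a2_mem_outV]
    constructor
    · exact fun h2 => h2.1
    · intro ht
      exact ⟨ht, Or.inr ⟨hU ht, fun htS => disjoint_left.1 h ht htS⟩⟩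

end

theorem p_sys_out : S_sys_out := by
  intro α _ R _ _ m V x hsys S hSV hS2 s hs
  have hsub : S ⊆ V := hSV.1
  refine ⟨?_, ?_⟩
  · intro T T' hT hT' hc hc' hn
    have h1 := hsys.cross (outS S s T) (outS S s T') (a2_outS_sub hsub hs hT)
      (a2_outS_sub hsub hs hT') (hc.trans (card_le_card a2_sub_outS))
      (hc'.trans (card_le_card a2_sub_outS)) fun h => hn (a2_compat hs hT hT' h)
    have h2 : m * x S * (outx x S s T * outx x S s T') =
        x S * (m * (x (outS S s T) * x (outS S s T'))) := by
      unfold outx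
      ring
    rw [h2, h1, mul_zero]
  · intro a ha b hb hab
    have haV := a2_outV_sub hsub hs ha
    have hbV := a2_outV_sub hsub hs hb
    -- the sum over the compatible sets
    have h1 : ∑ T ∈ (outV V S s).powerset with (a ∈ T ∧ b ∈ T), outx x S s T =
        ∑ U ∈ (V.powerset.filter fun U => a ∈ U ∧ b ∈ U).filter
          (fun U => S ⊆ U ∨ Disjoint U S), x U := by
      refine sum_nbij' (fun T => outS S s T) (fun U => U ∩ outV V S s) ?_ ?_ ?_ ?_ ?_
      · intro T hT
        rw [mem_filter, mem_powerset] at hT
        rw [mem_filter, mem_filter, mem_powerset]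
        exact ⟨⟨a2_outS_sub hsub hs hT.1, a2_sub_outS hT.2.1, a2_sub_outS hT.2.2⟩,
          a2_outS_cases hT.1⟩
      · intro U hU
        rw [mem_filter, mem_filter, mem_powerset] at hU
        rw [mem_filter, mem_powerset]
        exact ⟨inter_subset_right, mem_inter.2 ⟨hU.1.2.1, ha⟩, mem_inter.2 ⟨hU.1.2.2, hb⟩⟩
      · intro T hT
        rw [mem_filter, mem_powerset] at hT
        ext t
        rw [mem_inter]
        constructor
        · rintro ⟨h2, h3⟩
          exact (a2_mem_outS hs h3).1 h2
        · intro ht
          exact ⟨a2_sub_outS ht, hT.1 ht⟩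
      · intro U hU
        rw [mem_filter, mem_filter, mem_powerset] at hU
        exact a2_inv hs hU.1.1 hU.2
      · intro T _
        rfl
    rw [h1]
    have h2 : m * x S * ∑ U ∈ V.powerset with (a ∈ U ∧ b ∈ U), x U = 0 := by
      have h3 := hsys.lin a haV b hbV hab
      have h4 : m * x S * ∑ U ∈ V.powerset with (a ∈ U ∧ b ∈ U), x U =
          x S * (m * ∑ U ∈ V.powerset with (a ∈ U ∧ b ∈ U), x U) := by ring
      rw [h4, h3, mul_zero]
    rw [← sum_filter_add_sum_filter_not _ (fun U => S ⊆ U ∨ Disjoint U S), mul_add] at h2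
    have h5 : m * x S * ∑ U ∈ (V.powerset.filter fun U => a ∈ U ∧ b ∈ U).filter
        (fun U => ¬ (S ⊆ U ∨ Disjoint U S)), x U = 0 := by
      rw [mul_sum]
      refine sum_eq_zero fun U hU => ?_
      rw [mem_filter, mem_filter, mem_powerset] at hU
      obtain ⟨⟨hUV, haU, hbU⟩, hn⟩ := hU
      have hU2 : 2 ≤ U.card := by
        have h6 : ({a, b} : Finset α) ⊆ U := by
          intro t ht
          rw [mem_insert, mem_singleton] at ht
          rcases ht with rfl | rfl
          · exact haU
          · exact hbU
        have h7 := card_le_card h6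
        rw [card_pair hab] at h7
        exact h7
      have h8 : ¬ Compat S U := by
        rintro (h | h | h)
        · exact hn (Or.inl h)
        · have h9 : ∀ t ∈ U, t ∈ outV V S s → t = s := by
            intro t ht ht'
            rcases a2_mem_outV.1 ht' with h10 | h10
            · exact h10
            · exact absurd (h ht) h10.2
          exact hab ((h9 a haU ha).trans (h9 b hbU hb).symm)
        · exact hn (Or.inr h.symm)
      have h11 := hsys.cross S U hsub hUV hS2 hU2 h8
      rw [mul_assoc, h11]
    rw [h5, add_zero] at h2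
    exact h2

end Pool.Agent.HH
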