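import Pool.Agent.Lib.MP_371b18_ag.Stm

/-!
A3: splitting of the power sum classes on a divisor. (helper45)
-/

open Finset

namespace Pool.Agent.HH

section

variable {α : Type} [DecidableEq α] {R : Type} [CommRing R] [Algebra ℚ R]

omit [Algebra ℚ R] in
theorem a3_pow {μ a b : R} (h : μ * a = μ * b) (k : ℕ) : μ * a ^ k = μ * b ^ k := by
  induction k with
  | zero => simp
  | succ k ih =>
    calc μ * a ^ (k + 1) = (μ * a ^ k) * a := by ring
      _ = (μ * b ^ k) * a := by rw [ih]
      _ = b ^ k * (μ * a) := by ring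
      _ = b ^ k * (μ * b) := by rw [h]
      _ = μ * b ^ (k + 1) := by ring

theorem a3_mem_outS {S : Finset α} {s : α} {U : Finset α} (a : α) :
    a ∈ outS S s U ↔ a ∈ U ∨ (s ∈ U ∧ a ∈ S) := by
  unfold outS
  split_ifs with h
  · simp [h]
  · simp [h]

theorem a3_mem_of {V S : Finset α} {s : α} {U : Finset α} (hU : U ⊆ outV V S s) {a : α}
    (ha : a ∈ U) : a = s ∨ (a ∈ V ∧ a ∉ S) := by
  have := hU ha
  unfold outV at this
  rw [mem_insert, mem_sdiff] at this
  exact this

theorem a3_outS_subset_iff {V S : Finset α} {s : α} {U U' : Finset α}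
    (hU : U ⊆ outV V S s) : outS S s U ⊆ outS S s U' ↔ U ⊆ U' := by
  constructor
  · intro h a ha
    have h1 : a ∈ outS S s U' := h ((a3_mem_outS a).2 (Or.inl ha))
    rcases (a3_mem_outS a).1 h1 with h2 | ⟨h2, h3⟩
    · exact h2
    · rcases a3_mem_of hU ha with h4 | ⟨_, h4⟩
      · rw [h4]; exact h2
      · exact absurd h3 h4
  · intro h a ha
    rcases (a3_mem_outS a).1 ha with h2 | ⟨h2, h3⟩
    · exact (a3_mem_outS a).2 (Or.inl (h h2))
    · exact (a3_mem_outS a).2 (Or.inr ⟨h h2, h3⟩)

theorem a3_outS_ssubset_iff {V S : Finset α} {s : α} {U U' : Finset α}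
    (hU : U ⊆ outV V S s) (hU' : U' ⊆ outV V S s) : outS S s U ⊂ outS S s U' ↔ U ⊂ U' := by
  rw [Finset.ssubset_iff_subset_ne, Finset.ssubset_iff_subset_ne, a3_outS_subset_iff hU]
  constructor
  · rintro ⟨h1, h2⟩
    exact ⟨h1, fun h => h2 (by rw [h])⟩
  · rintro ⟨h1, h2⟩
    refine ⟨h1, fun h => h2 ?_⟩
    apply Finset.Subset.antisymm h1
    exact (a3_outS_subset_iff hU').1 h.ge

theorem a3_outS_sub {V S : Finset α} {s : α} (hSV : S ⊆ V) (hs : s ∈ S) {U : Finset α}
    (hU : U ⊆ outV V S s) : outS S s U ⊆ V := by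
  intro a ha
  rcases (a3_mem_outS a).1 ha with h2 | ⟨_, h3⟩
  · rcases a3_mem_of hU h2 with h4 | ⟨h4, _⟩
    · rw [h4]; exact hSV hs
    · exact h4
  · exact hSV h3

theorem a3_outS_compat {V S : Finset α} {s : α} {U : Finset α}
    (hU : U ⊆ outV V S s) : S ⊆ outS S s U ∨ Disjoint S (outS S s U) := by
  by_cases h : s ∈ U
  · left
    intro a ha
    exact (a3_mem_outS a).2 (Or.inr ⟨h, ha⟩)
  · right
    rw [Finset.disjoint_left]
    intro a ha hb
    rcases (a3_mem_outS a).1 hb with h2 | ⟨h2, _⟩
    · rcases a3_mem_of hU h2 with h4 | ⟨_, h4⟩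
      · rw [h4] at h2; exact h h2
      · exact h4 ha
    · exact h h2

theorem a3_outS_surj {V S : Finset α} {s : α} (hs : s ∈ S) {T : Finset α}
    (hT : T ⊆ V) (hc : S ⊆ T ∨ Disjoint S T) : ∃ U, U ⊆ outV V S s ∧ outS S s U = T := by
  rcases hc with hc | hc
  · refine ⟨insert s (T \ S), ?_, ?_⟩
    · unfold outV
      exact Finset.insert_subset_insert _ (Finset.sdiff_subset_sdiff hT (Finset.Subset.refl _))
    · ext a
      rw [a3_mem_outS, mem_insert, mem_sdiff]
      constructor
      · rintro ((h | ⟨h, _⟩) | ⟨_, h⟩)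
        · rw [h]; exact hc hs
        · exact h
        · exact hc h
      · intro h
        by_cases h2 : a ∈ S
        · exact Or.inr ⟨Finset.mem_insert_self _ _, h2⟩
        · exact Or.inl (Or.inr ⟨h, h2⟩)
  · have hd := Finset.disjoint_left.1 hc
    refine ⟨T, ?_, ?_⟩
    · unfold outV
      intro a ha
      rw [mem_insert, mem_sdiff]
      exact Or.inr ⟨hT ha, fun h => hd h ha⟩
    · ext a
      rw [a3_mem_outS]
      constructor
      · rintro (h | ⟨h, _⟩)
        · exact h
        · exact absurd h (hd hs)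
      · exact Or.inl

omit [Algebra ℚ R] in
theorem a3_sum_out {V S : Finset α} {s : α} (hSV : S ⊆ V) (hs : s ∈ S) (p q : Finset α → Prop)
    [DecidablePred p] [DecidablePred q]
    (hpq : ∀ U, U ⊆ outV V S s → (p U ↔ q (outS S s U))) (f g : Finset α → R)
    (hfg : ∀ U, U ⊆ outV V S s → f U = g (outS S s U)) :
    ∑ U ∈ (outV V S s).powerset with p U, f U =
      ∑ T ∈ V.powerset with ((S ⊆ T ∨ Disjoint S T) ∧ q T), g T := by
  apply Finset.sum_nbij (outS S s)
  · intro U hU
    rw [mem_filter, mem_powerset] at hU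
    rw [mem_filter, mem_powerset]
    exact ⟨a3_outS_sub hSV hs hU.1, a3_outS_compat hU.1, (hpq U hU.1).1 hU.2⟩
  · intro U hU U' hU' h
    rw [Finset.mem_coe, mem_filter, mem_powerset] at hU hU'
    exact Finset.Subset.antisymm ((a3_outS_subset_iff hU.1).1 h.le)
      ((a3_outS_subset_iff hU'.1).1 h.ge)
  · intro T hT
    rw [Finset.mem_coe, mem_filter, mem_powerset] at hT
    obtain ⟨U, hU, hUT⟩ := a3_outS_surj hs hT.1 hT.2.1
    refine ⟨U, ?_, hUT⟩
    rw [Finset.mem_coe, mem_filter, mem_powerset]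
    exact ⟨hU, (hpq U hU).2 (by rw [hUT]; exact hT.2.2)⟩
  · intro U hU
    rw [mem_filter, mem_powerset] at hU
    exact hfg U hU.1

theorem a3_nonempty_iff {S : Finset α} {s : α} (U : Finset α) :
    U.Nonempty ↔ (outS S s U).Nonempty := by
  constructor
  · rintro ⟨a, ha⟩
    exact ⟨a, (a3_mem_outS a).2 (Or.inl ha)⟩
  · rintro ⟨a, ha⟩
    rcases (a3_mem_outS a).1 ha with h | ⟨h, _⟩
    · exact ⟨a, h⟩
    · exact ⟨s, h⟩

theorem a3_card_iff {V S : Finset α} {s : α} (hs : s ∈ S) {U : Finset α}
    (hU : U ⊆ outV V S s) : 2 ≤ U.card ↔ (2 ≤ (outS S s U).card ∧ outS S s U ≠ S) := by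
  by_cases h : s ∈ U
  · have hsub : U ⊆ outS S s U := fun a ha => (a3_mem_outS a).2 (Or.inl ha)
    constructor
    · intro h2
      refine ⟨h2.trans (Finset.card_le_card hsub), ?_⟩
      intro he
      have : U ⊆ {s} := by
        intro a ha
        rcases a3_mem_of hU ha with h4 | ⟨_, h4⟩
        · rw [h4]; exact mem_singleton_self s
        · exfalso; apply h4; rw [← he]; exact hsub ha
      have := Finset.card_le_card this
      rw [card_singleton] at this
      omega
    · rintro ⟨_, h3⟩
      by_contra hcon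
      have h1 : 1 ≤ U.card := Finset.card_pos.2 ⟨s, h⟩
      have h4 : U.card = 1 := by omega
      obtain ⟨b, hb⟩ := Finset.card_eq_one.1 h4
      rw [hb, mem_singleton] at h
      subst h
      apply h3
      ext a
      rw [a3_mem_outS, hb, mem_singleton, mem_singleton]
      constructor
      · rintro (h5 | ⟨_, h5⟩)
        · rw [h5]; exact hs
        · exact h5
      · intro h5; exact Or.inr ⟨rfl, h5⟩
  · have he : outS S s U = U := by
      unfold outS; rw [if_neg h]
    rw [he]
    constructor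
    · intro h2
      refine ⟨h2, ?_⟩
      intro h3
      apply h
      rw [h3]; exact hs
    · exact fun h2 => h2.1

/-- the outer `yp` in terms of subsets of `V` -/
private def a3Y (V S : Finset α) (x : Finset α → R) (T : Finset α) : R :=
  ∑ T' ∈ V.powerset with ((S ⊆ T' ∨ Disjoint S T') ∧ T ⊂ T'), x T'

/-- the outer `zz` in terms of subsets of `V` -/
private def a3Z (V S : Finset α) (x : Finset α → R) (T : Finset α) : R :=
  if 2 ≤ T.card ∧ T ≠ S then x T + a3Y V S x T else 0

omit [Algebra ℚ R] in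
private theorem a3_yp_out {V S : Finset α} {s : α} (hSV : S ⊆ V) (hs : s ∈ S) (x : Finset α → R)
    {U : Finset α} (hU : U ⊆ outV V S s) :
    yp (outV V S s) (outx x S s) U = a3Y V S x (outS S s U) := by
  unfold yp a3Y
  apply a3_sum_out hSV hs
  · intro U' hU'
    exact (a3_outS_ssubset_iff hU hU').symm
  · intro U' _
    rfl

omit [Algebra ℚ R] in
private theorem a3_zz_out {V S : Finset α} {s : α} (hSV : S ⊆ V) (hs : s ∈ S) (x : Finset α → R)
    {U : Finset α} (hU : U ⊆ outV V S s) :
    zz (outV V S s) (outx x S s) U = a3Z V S x (outS S s U) := by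
  unfold zz a3Z
  rw [a3_yp_out hSV hs x hU]
  by_cases h : 2 ≤ U.card
  · rw [if_pos h, if_pos ((a3_card_iff hs hU).1 h)]
    rfl
  · rw [if_neg h, if_neg (fun h2 => h ((a3_card_iff hs hU).2 h2))]

omit [Algebra ℚ R] in
private theorem a3_pw_out {V S : Finset α} {s : α} (hSV : S ⊆ V) (hs : s ∈ S) (x : Finset α → R)
    (O : Finset α → Bool) (k : ℕ) :
    pw (outV V S s) (outO O S s) (outx x S s) k =
      ∑ T ∈ V.powerset with ((S ⊆ T ∨ Disjoint S T) ∧ (T.Nonempty ∧ O T = true)),
        (a3Y V S x T ^ k - a3Z V S x T ^ k) := by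
  unfold pw
  apply a3_sum_out hSV hs
  · intro U _
    have h1 : outO O S s U = O (outS S s U) := rfl
    rw [h1, a3_nonempty_iff (S := S) (s := s) U]
  · intro U hU
    rw [a3_yp_out hSV hs x hU, a3_zz_out hSV hs x hU]

omit [Algebra ℚ R] [DecidableEq α] in
theorem a3_sum_kill (μ : R) (V : Finset α) (x : Finset α → R) (p q : Finset α → Prop)
    [DecidablePred p] [DecidablePred q] (h1 : ∀ U, U ⊆ V → q U → p U)
    (h2 : ∀ U, U ⊆ V → p U → ¬ q U → μ * x U = 0) :
    μ * ∑ U ∈ V.powerset with p U, x U = μ * ∑ U ∈ V.powerset with q U, x U := by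
  rw [Finset.mul_sum, Finset.mul_sum]
  symm
  apply Finset.sum_subset
  · intro U hU
    rw [mem_filter, mem_powerset] at hU ⊢
    exact ⟨hU.1, h1 U hU.1 hU.2⟩
  · intro U hU hU'
    rw [mem_filter, mem_powerset] at hU hU'
    exact h2 U hU.1 hU.2 (fun h => hU' ⟨hU.1, h⟩)

omit [Algebra ℚ R] in
/-- `yp` of a subset on the `S`-side -/
theorem a3_yp_in {V S : Finset α} (hSV : S ⊆ V) (x : Finset α → R) {T : Finset α} (hT : T ⊂ S) :
    yp S (inx V x S) T = ∑ U ∈ V.powerset with (T ⊂ U ∧ (U ⊆ S ∨ S ⊂ U)), x U := by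
  have hset : V.powerset.filter (fun U => T ⊂ U ∧ (U ⊆ S ∨ S ⊂ U)) =
      S.powerset.filter (fun U => T ⊂ U) ∪ V.powerset.filter (fun U => S ⊂ U) := by
    ext U
    rw [mem_union, mem_filter, mem_filter, mem_filter, mem_powerset, mem_powerset]
    constructor
    · rintro ⟨h1, h2, h3 | h3⟩
      · exact Or.inl ⟨h3, h2⟩
      · exact Or.inr ⟨h1, h3⟩
    · rintro (⟨h1, h2⟩ | ⟨h1, h2⟩)
      · exact ⟨h1.trans hSV, h2, Or.inl h1⟩
      · exact ⟨h1, hT.trans h2, Or.inr h2⟩
  have hdis : Disjoint (S.powerset.filter (fun U => T ⊂ U)) (V.powerset.filter (fun U => S ⊂ U)) := by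
    rw [Finset.disjoint_left]
    intro U h1 h2
    rw [mem_filter, mem_powerset] at h1 h2
    exact h2.2.2 h1.1
  rw [hset, Finset.sum_union hdis]
  unfold yp
  have hin : ∀ U, inx V x S U = x U + (if U = S then yp V x S else 0) := by
    intro U
    unfold inx
    split_ifs with h
    · rw [h]
    · rw [add_zero]
  rw [Finset.sum_congr rfl (fun U _ => hin U), Finset.sum_add_distrib]
  congr 1
  rw [Finset.sum_ite_eq', if_pos]
  · rfl
  · rw [mem_filter, mem_powerset]
    exact ⟨Finset.Subset.refl _, hT⟩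

omit [Algebra ℚ R] in
theorem a3_yp_self (S : Finset α) (x : Finset α → R) : yp S x S = 0 := by
  unfold yp
  apply Finset.sum_eq_zero
  intro U hU
  rw [mem_filter, mem_powerset] at hU
  exact absurd hU.1 hU.2.2

omit [Algebra ℚ R] [DecidableEq α] in
theorem a3_filter {V : Finset α} (A P : Finset α → Prop) [DecidablePred A] [DecidablePred P]
    (G : Finset α → R) :
    ∑ T ∈ V.powerset with (A T ∧ P T), G T =
      ∑ T ∈ V.powerset with P T, if A T then G T else 0 := by
  rw [← Finset.sum_filter, Finset.filter_filter]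
  apply Finset.sum_congr _ (fun _ _ => rfl)
  ext T
  rw [mem_filter, mem_filter]
  constructor
  · rintro ⟨h1, h2, h3⟩
    exact ⟨h1, h3, h2⟩
  · rintro ⟨h1, h2, h3⟩
    exact ⟨h1, h3, h2⟩

end

theorem p_pw_split : S_pw_split := by
  intro α _ R _ _ m V x hsys S hSV hS2 s hs O k hk
  have hSV' : S ⊆ V := hSV.1
  have hSne : S.Nonempty := ⟨s, hs⟩
  set μ := m * x S with hμ
  have hkill : ∀ T, T ⊆ V → 2 ≤ T.card → ¬ Compat S T → μ * x T = 0 := by
    intro T hT hT2 hc
    rw [hμ, mul_assoc]
    exact hsys.cross S T hSV' hT hS2 hT2 hc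
  have hk0 : k ≠ 0 := by omega
  -- the two sides as sums over subsets of `V`
  have hin : pw S O (inx V x S) k = ∑ T ∈ V.powerset with (T ⊆ S ∧ (T.Nonempty ∧ O T = true)),
      (yp S (inx V x S) T ^ k - zz S (inx V x S) T ^ k) := by
    unfold pw
    apply Finset.sum_congr _ (fun _ _ => rfl)
    ext T
    rw [mem_filter, mem_filter, mem_powerset, mem_powerset]
    constructor
    · rintro ⟨h1, h2⟩
      exact ⟨h1.trans hSV', h1, h2⟩
    · rintro ⟨_, h1, h2⟩
      exact ⟨h1, h2⟩
  rw [hin, a3_pw_out hSV' hs x O k, a3_filter (fun T => T ⊆ S) (fun T => T.Nonempty ∧ O T = true),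
    a3_filter (fun T => S ⊆ T ∨ Disjoint S T) (fun T => T.Nonempty ∧ O T = true),
    ← Finset.sum_add_distrib]
  unfold pw
  rw [Finset.mul_sum, Finset.mul_sum]
  apply Finset.sum_congr rfl
  intro T hT
  rw [mem_filter, mem_powerset] at hT
  obtain ⟨hTV, ⟨t, ht⟩, -⟩ := hT
  by_cases hTS : T ⊆ S
  · by_cases hTe : T = S
    · -- T = S
      subst hTe
      rw [if_pos (Finset.Subset.refl _), if_pos (Or.inl (Finset.Subset.refl _))]
      have h1 : a3Z V T x T = 0 := by
        unfold a3Z
        rw [if_neg (fun h => h.2 rfl)]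
      have h2 : a3Y V T x T = yp V x T := by
        unfold a3Y yp
        apply Finset.sum_congr _ (fun _ _ => rfl)
        ext U
        rw [mem_filter, mem_filter]
        constructor
        · rintro ⟨h1, _, h3⟩
          exact ⟨h1, h3⟩
        · rintro ⟨h1, h3⟩
          exact ⟨h1, Or.inl h3.1, h3⟩
      have h3 : zz T (inx V x T) T = x T + yp V x T := by
        unfold zz
        rw [if_pos hS2, a3_yp_self, add_zero]
        unfold inx
        rw [if_pos rfl]
      have h4 : zz V x T = x T + yp V x T := by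
        unfold zz
        rw [if_pos hS2]
      rw [h1, h2, h3, h4, a3_yp_self, zero_pow hk0]
      ring
    · -- T strictly inside S
      have hTss : T ⊂ S := Finset.ssubset_iff_subset_ne.2 ⟨hTS, hTe⟩
      have hncomp : ¬ (S ⊆ T ∨ Disjoint S T) := by
        rintro (h | h)
        · exact hTe (Finset.Subset.antisymm hTS h)
        · exact Finset.disjoint_left.1 h (hTS ht) ht
      rw [if_pos hTS, if_neg hncomp, add_zero]
      have hyp : μ * yp V x T = μ * yp S (inx V x S) T := by
        rw [a3_yp_in hSV' x hTss]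
        unfold yp
        apply a3_sum_kill
        · intro U _ h
          exact h.1
        · intro U hU h1 h2
          apply hkill U hU
          · have h3 := Finset.card_lt_card h1
            have h4 := Finset.card_pos.2 ⟨t, ht⟩
            omega
          · rintro (h3 | h3 | h3)
            · apply h2
              by_cases h4 : U = S
              · exact ⟨h1, Or.inl h4.le⟩
              · exact ⟨h1, Or.inr (Finset.ssubset_iff_subset_ne.2 ⟨h3, fun h => h4 h.symm⟩)⟩
            · exact h2 ⟨h1, Or.inl h3⟩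
            · exact Finset.disjoint_left.1 h3 (hTS ht) (h1.1 ht)
      have hzz : μ * zz V x T = μ * zz S (inx V x S) T := by
        unfold zz
        by_cases h2 : 2 ≤ T.card
        · rw [if_pos h2, if_pos h2]
          have : inx V x S T = x T := by
            unfold inx; rw [if_neg hTe]
          rw [this, mul_add, mul_add, hyp]
        · rw [if_neg h2, if_neg h2]
      rw [mul_sub, mul_sub, a3_pow hyp, a3_pow hzz]
  · rw [if_neg hTS, zero_add]
    by_cases hc : S ⊆ T ∨ Disjoint S T
    · rw [if_pos hc]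
      have hTe : T ≠ S := fun h => hTS h.le
      have hyp : μ * yp V x T = μ * a3Y V S x T := by
        unfold yp a3Y
        apply a3_sum_kill
        · intro U _ h
          exact h.2
        · intro U hU h1 h2
          apply hkill U hU
          · have h3 := Finset.card_lt_card h1
            have h4 := Finset.card_pos.2 ⟨t, ht⟩
            omega
          · rintro (h3 | h3 | h3)
            · exact h2 ⟨Or.inl h3, h1⟩
            · exact hTS (h1.1.trans h3)
            · exact h2 ⟨Or.inr h3, h1⟩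
      have hzz : μ * zz V x T = μ * a3Z V S x T := by
        unfold zz a3Z
        by_cases h2 : 2 ≤ T.card
        · rw [if_pos h2, if_pos ⟨h2, hTe⟩, mul_add, mul_add, hyp]
        · rw [if_neg h2, if_neg (fun h => h2 h.1)]
      rw [mul_sub, mul_sub, a3_pow hyp, a3_pow hzz]
    · rw [if_neg hc, mul_zero]
      have hT2 : 2 ≤ T.card := by
        by_contra h
        have h1 : 1 ≤ T.card := Finset.card_pos.2 ⟨t, ht⟩
        have h2 : T.card = 1 := by omega
        obtain ⟨b, hb⟩ := Finset.card_eq_one.1 h2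
        apply hTS
        rw [hb, Finset.singleton_subset_iff]
        by_contra h3
        apply hc
        right
        rw [hb, Finset.disjoint_singleton_right]
        exact h3
      have hx : μ * x T = 0 := by
        apply hkill T hTV hT2
        rintro (h | h | h)
        · exact hc (Or.inl h)
        · exact hTS h
        · exact hc (Or.inr h)
      have hz : μ * zz V x T = μ * yp V x T := by
        unfold zz
        rw [if_pos hT2, mul_add, hx, zero_add]
      rw [mul_sub, a3_pow hz, sub_self]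

end Pool.Agent.HH
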