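import Mathlib
import Pool.Agent.Lib.MP_371b18_ag.Stm

/-! Piece A4: splitting of the products of lambda classes. -/

open Finset

namespace Pool.Agent.HH

/-- congruence of a product under a multiplier, one factor at a time -/
private theorem a4_prod {R ι : Type} [CommRing R] (μ : R) (f g : ι → R) (s : Finset ι)
    (h : ∀ a ∈ s, μ * f a = μ * g a) : μ * ∏ a ∈ s, f a = μ * ∏ a ∈ s, g a := by
  classical
  induction s using Finset.induction_on with
  | empty => rfl
  | insert a s ha ih =>
    rw [Finset.prod_insert ha, Finset.prod_insert ha, ← mul_assoc, h a (mem_insert_self a s),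
      mul_right_comm, ih fun c hc => h c (mem_insert_of_mem hc)]
    ring

theorem p_lam_split (h1 : S_newton_add) (h2 : S_newton_congr) (h3 : S_pw_split) :
    S_lam_split := by
  intro α _ R _ _ m V x hS S hSV hS2 s hs O b r i
  have key : ∀ n : ℕ, m * x S * lamV V O b x n = m * x S * ∑ p ∈ antidiagonal n,
      lamV S O b (inx V x S) p.1 * lamV (outV V S s) (outO O S s) b (outx x S s) p.2 := by
    intro n
    unfold lamV
    rw [h2 R (m * x S) (fun k => b k • pw V O x k)
      (fun k => b k • pw S O (inx V x S) k +
        b k • pw (outV V S s) (outO O S s) (outx x S s) k) (fun k hk => ?_) n]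
    · rw [h1]
    · rw [← smul_add, mul_smul_comm, mul_smul_comm,
        h3 α R m V x hS S hSV hS2 s hs O k hk]
  have h4 := a4_prod (m * x S) (fun a : Fin r => lamV V O b x (i a))
    (fun a : Fin r => ∑ p ∈ antidiagonal (i a),
      lamV S O b (inx V x S) p.1 * lamV (outV V S s) (outO O S s) b (outx x S s) p.2)
    univ (fun a _ => key (i a))
  unfold lamP
  rw [h4, Finset.prod_univ_sum]
  congr 1
  unfold spl
  refine Finset.sum_congr rfl fun w _ => ?_
  rw [Finset.prod_mul_distrib]

end Pool.Agent.HH
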