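import Pool.Agent.Lib.MP_371b18_ag.Stm

/-!
Piece B1: decomposition of classes on a divisor.   (helper54)
-/

open Finset

namespace Pool.Agent.HH

section b1

variable {α : Type} [DecidableEq α] {R : Type} [CommRing R] [Algebra ℚ R]

/-- the target of the decomposition -/
noncomputable def b1_P (A B : Submodule ℚ R) (d : ℕ) : Submodule ℚ R :=
  ⨆ ab ∈ antidiagonal d, A ^ ab.1 * B ^ ab.2

theorem b1_P_zero (A B : Submodule ℚ R) : (1 : Submodule ℚ R) ≤ b1_P A B 0 := by
  unfold b1_P
  have h : ((0, 0) : ℕ × ℕ) ∈ antidiagonal 0 := by simp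
  refine le_trans ?_ (le_iSup₂_of_le (f := fun (ab : ℕ × ℕ) (_ : ab ∈ antidiagonal 0) =>
    A ^ ab.1 * B ^ ab.2) (0, 0) h le_rfl)
  rw [pow_zero, pow_zero, one_mul]

theorem b1_P_term (A B : Submodule ℚ R) (d a b : ℕ) (h : a + b = d) : A ^ a * B ^ b ≤ b1_P A B d := by
  unfold b1_P
  have h' : ((a, b) : ℕ × ℕ) ∈ antidiagonal d := by
    rw [Finset.HasAntidiagonal.mem_antidiagonal]
    exact h
  exact le_iSup₂_of_le (f := fun (ab : ℕ × ℕ) (_ : ab ∈ antidiagonal d) =>
    A ^ ab.1 * B ^ ab.2) (a, b) h' le_rfl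

theorem b1_P_succ (A B : Submodule ℚ R) (d : ℕ) : b1_P A B d * (A ⊔ B) ≤ b1_P A B (d + 1) := by
  have h1 : b1_P A B d * (A ⊔ B) = ⨆ ab ∈ antidiagonal d, A ^ ab.1 * B ^ ab.2 * (A ⊔ B) := by
    unfold b1_P
    rw [Submodule.iSup_mul]
    apply iSup_congr
    intro ab
    rw [Submodule.iSup_mul]
  rw [h1]
  apply iSup₂_le
  intro ab hab
  rw [Finset.HasAntidiagonal.mem_antidiagonal] at hab
  rw [Submodule.mul_sup]
  apply sup_le
  · calc A ^ ab.1 * B ^ ab.2 * A = A ^ (ab.1 + 1) * B ^ ab.2 := by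
          rw [pow_succ]
          ring
      _ ≤ _ := b1_P_term A B (d + 1) (ab.1 + 1) ab.2 (by omega)
  · calc A ^ ab.1 * B ^ ab.2 * B = A ^ ab.1 * B ^ (ab.2 + 1) := by
          rw [pow_succ]
          ring
      _ ≤ _ := b1_P_term A B (d + 1) ab.1 (ab.2 + 1) (by omega)

/-- a class containing `S` is a class of the other side -/
theorem b1_out_sup (V : Finset α) (x : Finset α → R) (S : Finset α) (s : α) (hs : s ∈ S)
    (T : Finset α) (hT : T ⊆ V) (hST : S ⊂ T) : x T ∈ H1 (outV V S s) (outx x S s) := by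
  unfold H1
  apply Submodule.subset_span
  refine ⟨insert s (T \ S), ?_, ?_, ?_⟩
  · unfold outV
    exact Finset.insert_subset_insert s (Finset.sdiff_subset_sdiff hT (Finset.Subset.refl S))
  · have h1 : s ∉ T \ S := by
      intro h
      exact (Finset.mem_sdiff.mp h).2 hs
    rw [Finset.card_insert_of_notMem h1]
    have h2 : (T \ S).Nonempty := by
      rw [Finset.sdiff_nonempty]
      exact hST.2
    have h3 := Finset.card_pos.mpr h2
    omega
  · unfold outx outS
    rw [if_pos (Finset.mem_insert_self s _)]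
    congr 1
    ext a
    simp only [Finset.mem_union, Finset.mem_insert, Finset.mem_sdiff]
    constructor
    · intro h
      by_cases ha : a ∈ S
      · right; exact ha
      · left; right; exact ⟨h, ha⟩
    · rintro ((h | h) | h)
      · rw [h]
        exact hST.1 hs
      · exact h.1
      · exact hST.1 h

theorem b1_out_disj (V : Finset α) (x : Finset α → R) (S : Finset α) (s : α) (hs : s ∈ S)
    (T : Finset α) (hT : T ⊆ V) (h2 : 2 ≤ T.card) (hST : Disjoint T S) :
    x T ∈ H1 (outV V S s) (outx x S s) := by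
  unfold H1
  apply Submodule.subset_span
  have hsT : s ∉ T := by
    intro h
    exact (Finset.disjoint_left.mp hST) h hs
  refine ⟨T, ?_, h2, ?_⟩
  · unfold outV
    intro a ha
    rw [Finset.mem_insert, Finset.mem_sdiff]
    right
    exact ⟨hT ha, Finset.disjoint_left.mp hST ha⟩
  · unfold outx outS
    rw [if_neg hsT]

theorem b1_yp (V : Finset α) (x : Finset α → R) (S : Finset α) (s : α) (hs : s ∈ S) :
    yp V x S ∈ H1 (outV V S s) (outx x S s) := by
  unfold yp
  apply Submodule.sum_mem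
  intro T hT
  rw [Finset.mem_filter, Finset.mem_powerset] at hT
  exact b1_out_sup V x S s hs T hT.1 hT.2

theorem b1_gen (m : R) (V : Finset α) (x : Finset α → R) (hsys : Sys m V x) (S : Finset α)
    (hSV : S ⊂ V) (hS2 : 2 ≤ S.card) (s : α) (hs : s ∈ S) (T : Finset α) (hT : T ⊆ V)
    (hT2 : 2 ≤ T.card) : ∃ z' ∈ (H1 S (inx V x S) ⊔ H1 (outV V S s) (outx x S s) : Submodule ℚ R),
      m * x S * x T = m * x S * z' := by
  by_cases hc : Compat S T
  · by_cases hTS : T = S
    · subst hTS
      refine ⟨inx V x T T - yp V x T, ?_, ?_⟩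
      · apply Submodule.sub_mem
        · apply Submodule.mem_sup_left
          apply Submodule.subset_span
          exact ⟨T, Finset.Subset.refl T, hT2, rfl⟩
        · apply Submodule.mem_sup_right
          exact b1_yp V x T s hs
      · have h : inx V x T T = x T + yp V x T := if_pos rfl
        rw [h]
        ring
    · rcases hc with h | h | h
      · refine ⟨x T, Submodule.mem_sup_right (b1_out_sup V x S s hs T hT ?_), rfl⟩
        exact lt_of_le_of_ne h (fun e => hTS e.symm)
      · refine ⟨inx V x S T, Submodule.mem_sup_left (Submodule.subset_span ⟨T, h, hT2, rfl⟩), ?_⟩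
        have h' : inx V x S T = x T := if_neg hTS
        rw [h']
      · exact ⟨x T, Submodule.mem_sup_right (b1_out_disj V x S s hs T hT hT2 h.symm), rfl⟩
  · refine ⟨0, Submodule.zero_mem _, ?_⟩
    have h := hsys.cross S T hSV.1 hT hS2 hT2 hc
    rw [mul_zero, mul_assoc]
    exact h

theorem b1_one (m : R) (V : Finset α) (x : Finset α → R) (hsys : Sys m V x) (S : Finset α)
    (hSV : S ⊂ V) (hS2 : 2 ≤ S.card) (s : α) (hs : s ∈ S) (z : R) (hz : z ∈ H1 V x) :
    ∃ z' ∈ (H1 S (inx V x S) ⊔ H1 (outV V S s) (outx x S s) : Submodule ℚ R),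
      m * x S * z = m * x S * z' := by
  unfold H1 at hz
  induction hz using Submodule.span_induction with
  | mem z h =>
    obtain ⟨T, hT, hT2, rfl⟩ := h
    exact b1_gen m V x hsys S hSV hS2 s hs T hT hT2
  | zero => exact ⟨0, Submodule.zero_mem _, rfl⟩
  | add z w _ _ hz hw =>
    obtain ⟨z', hz', ez⟩ := hz
    obtain ⟨w', hw', ew⟩ := hw
    refine ⟨z' + w', Submodule.add_mem _ hz' hw', ?_⟩
    rw [mul_add, mul_add, ez, ew]
  | smul c z _ hz =>
    obtain ⟨z', hz', ez⟩ := hz
    refine ⟨c • z', Submodule.smul_mem _ c hz', ?_⟩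
    rw [mul_smul_comm, mul_smul_comm, ez]

end b1

theorem p_decomp : S_decomp := by
  intro α _ R _ _ m V x hsys S hSV hS2 s hs d
  change ∀ q : R, q ∈ (H1 V x) ^ d → ∃ q' ∈ b1_P (H1 S (inx V x S))
    (H1 (outV V S s) (outx x S s)) d, m * x S * q = m * x S * q'
  induction d with
  | zero =>
    intro q hq
    rw [pow_zero] at hq
    exact ⟨q, b1_P_zero _ _ hq, rfl⟩
  | succ d ih =>
    intro q hq
    rw [pow_succ] at hq
    induction hq using Submodule.mul_induction_on' with
    | mem_mul_mem q1 hq1 z hz =>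
      obtain ⟨q1', hq1', e1⟩ := ih q1 hq1
      obtain ⟨z', hz', ez⟩ := b1_one m V x hsys S hSV hS2 s hs z hz
      refine ⟨q1' * z', b1_P_succ _ _ d (Submodule.mul_mem_mul hq1' hz'), ?_⟩
      calc m * x S * (q1 * z) = (m * x S * q1) * z := by ring
        _ = q1' * (m * x S * z) := by rw [e1]; ring
        _ = m * x S * (q1' * z') := by rw [ez]; ring
    | add z _ w _ hz hw =>
      obtain ⟨z', hz', ez⟩ := hz
      obtain ⟨w', hw', ew⟩ := hw
      refine ⟨z' + w', Submodule.add_mem _ hz' hw', ?_⟩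
      rw [mul_add, mul_add, ez, ew]

end Pool.Agent.HH
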