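import Mathlib
import Pool.Agent.Lib.MP_371b18_ag.Stm

/-! Piece B2: generation by proper divisors. -/

open Finset

namespace Pool.Agent.HH

theorem p_gen : S_gen := by
  intro α _ R _ _ m V x hS hV d q hq
  set P : Submodule ℚ R := Submodule.span ℚ {z : R | ∃ S, S ⊂ V ∧ 2 ≤ S.card ∧
    ∃ q' ∈ (H1 V x) ^ d, z = m * x S * q'} with hP
  have hprop : ∀ T, T ⊂ V → 2 ≤ T.card → ∀ v ∈ (H1 V x) ^ d, m * x T * v ∈ P :=
    fun T hT hT2 v hv => Submodule.subset_span ⟨T, hT, hT2, v, hv, rfl⟩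
  have htop : ∀ v ∈ (H1 V x) ^ d, m * x V * v ∈ P := by
    intro v hv
    obtain ⟨a, ha, b, hb, hab⟩ := Finset.one_lt_card.1 (show 1 < V.card by omega)
    have h1 := hS.lin a ha b hb hab
    have hVm : V ∈ V.powerset.filter (fun S => a ∈ S ∧ b ∈ S) :=
      Finset.mem_filter.2 ⟨Finset.mem_powerset_self V, ha, hb⟩
    rw [← Finset.add_sum_erase _ _ hVm, mul_add] at h1
    have h2 : m * x V * v = -∑ S ∈ (V.powerset.filter (fun S => a ∈ S ∧ b ∈ S)).erase V,
        m * x S * v := by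
      rw [← Finset.sum_mul, ← Finset.mul_sum, eq_neg_iff_add_eq_zero, ← add_mul, h1, zero_mul]
    rw [h2]
    refine Submodule.neg_mem _ (Submodule.sum_mem _ fun T hT => ?_)
    obtain ⟨hTV, hT'⟩ := Finset.mem_erase.1 hT
    obtain ⟨hT1, haT, hbT⟩ := Finset.mem_filter.1 hT'
    refine hprop T (Finset.ssubset_iff_subset_ne.2 ⟨Finset.mem_powerset.1 hT1, hTV⟩) ?_ v hv
    have := Finset.one_lt_card.2 ⟨a, haT, b, hbT, hab⟩
    omega
  have hu : ∀ u ∈ H1 V x, ∀ v ∈ (H1 V x) ^ d, m * (u * v) ∈ P := by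
    intro u hu v hv
    induction hu using Submodule.span_induction with
    | mem u hu =>
      obtain ⟨T, hT, hT2, rfl⟩ := hu
      rw [← mul_assoc]
      rcases eq_or_ne T V with rfl | hne
      · exact htop v hv
      · exact hprop T (Finset.ssubset_iff_subset_ne.2 ⟨hT, hne⟩) hT2 v hv
    | zero => rw [zero_mul, mul_zero]; exact Submodule.zero_mem _
    | add u u' _ _ h h' => rw [add_mul, mul_add]; exact Submodule.add_mem _ h h'
    | smul c u _ h => rw [smul_mul_assoc, mul_smul_comm]; exact Submodule.smul_mem _ _ h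
  rw [pow_succ'] at hq
  induction hq using Submodule.mul_induction_on' with
  | mem_mul_mem u hu' v hv => exact hu u hu' v hv
  | add y _ y' _ h h' => rw [mul_add]; exact Submodule.add_mem _ h h'

end Pool.Agent.HH
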