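import Mathlib
import Pool.Agent.Lib.MP_371b18_ag.Stm

/-! Piece B3: vanishing above the top degree. -/

open Finset

namespace Pool.Agent.HH

private theorem b3_card {α : Type} [DecidableEq α] (V S : Finset α) (hSV : S ⊂ V) (s : α)
    (hs : s ∈ S) : (outV V S s).card + S.card = V.card + 1 := by
  unfold outV
  rw [Finset.card_insert_of_notMem (fun h => (Finset.mem_sdiff.1 h).2 hs)]
  have h1 := Finset.card_sdiff_add_card_eq_card hSV.1
  omega

theorem p_top (h1 : S_sys_in) (h2 : S_sys_out) (h3 : S_decomp) (h4 : S_gen) : S_top := by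
  intro α _ R _ _
  have main : ∀ (n : ℕ) (m : R) (V : Finset α) (x : Finset α → R), V.card = n → Sys m V x →
      2 ≤ V.card → ∀ (d : ℕ), V.card < d + 2 → ∀ q ∈ (H1 V x) ^ d, m * q = 0 := by
    intro n
    induction n using Nat.strong_induction_on with
    | _ n ih =>
      intro m V x hn hS hV2 d hd q hq
      obtain ⟨d', rfl⟩ : ∃ d', d = d' + 1 := ⟨d - 1, by omega⟩
      have h5 := h4 α R m V x hS hV2 d' q hq
      have h6 : Submodule.span ℚ {z : R | ∃ S, S ⊂ V ∧ 2 ≤ S.card ∧
          ∃ q' ∈ (H1 V x) ^ d', z = m * x S * q'} ≤ ⊥ := by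
        rw [Submodule.span_le]
        rintro z ⟨S, hSV, hS2, q', hq', rfl⟩
        rw [SetLike.mem_coe, Submodule.mem_bot]
        obtain ⟨s, hs⟩ : S.Nonempty := Finset.card_pos.1 (by omega)
        obtain ⟨q'', hq'', he⟩ := h3 α R m V x hS S hSV hS2 s hs d' q' hq'
        rw [he]
        have hc := b3_card V S hSV s hs
        have hlt := Finset.card_lt_card hSV
        have h7 : (⨆ ab ∈ antidiagonal d', (H1 S (inx V x S)) ^ ab.1 *
            (H1 (outV V S s) (outx x S s)) ^ ab.2 : Submodule ℚ R) ≤
            LinearMap.ker (LinearMap.mulLeft ℚ (m * x S)) := by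
          refine iSup₂_le fun ab hab => ?_
          rw [HasAntidiagonal.mem_antidiagonal] at hab
          rw [Submodule.mul_le]
          intro u hu v hv
          rw [LinearMap.mem_ker, LinearMap.mulLeft_apply]
          by_cases h8 : S.card < ab.1 + 2
          · have h9 := ih S.card (by omega) (m * x S) S (inx V x S) rfl
              (h1 α R m V x hS S hSV hS2) hS2 ab.1 h8 u hu
            rw [← mul_assoc, h9, zero_mul]
          · have h9 := ih (outV V S s).card (by omega) (m * x S) (outV V S s) (outx x S s) rfl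
              (h2 α R m V x hS S hSV hS2 s hs) (by omega) ab.2 (by omega) v hv
            rw [mul_left_comm, h9, mul_zero]
        exact LinearMap.mem_ker.1 (h7 hq'')
      exact (Submodule.mem_bot ℚ).1 (h6 h5)
  intro m V x hS hV2 d hd q hq
  exact main V.card m V x rfl hS hV2 d hd q hq

end Pool.Agent.HH
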