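import Pool.Agent.Lib.MP_371b18_ag.Stm

/-!
Piece B4 for `MP_371b18_ag`: the pair case.
-/

open Finset

namespace Pool.Agent.HH

private lemma b4_card_outV {α : Type} [DecidableEq α] (V S : Finset α) (s : α) (hSV : S ⊆ V)
    (hs : s ∈ S) : (outV V S s).card = V.card - S.card + 1 := by
  unfold outV
  rw [Finset.card_insert_of_notMem (by simp [hs]), Finset.card_sdiff_of_subset hSV]

private lemma b4_outS_outV {α : Type} [DecidableEq α] (V S : Finset α) (s : α) (hSV : S ⊆ V)
    (hs : s ∈ S) : outS S s (outV V S s) = V := by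
  unfold outS outV
  rw [if_pos (Finset.mem_insert_self _ _)]
  ext t
  simp only [Finset.mem_union, Finset.mem_insert, Finset.mem_sdiff]
  constructor
  · rintro ((rfl | h) | h)
    · exact hSV hs
    · exact h.1
    · exact hSV h
  · intro h
    by_cases ht : t ∈ S
    · exact Or.inr ht
    · exact Or.inl (Or.inr ⟨h, ht⟩)

theorem p_pair (h1 : S_sys_out) (h2 : S_top) : S_pair := by
  intro α _ R _ _ m V x hsys hcard a ha b hb hab
  obtain ⟨n, hn⟩ : ∃ n, V.card = n + 3 := ⟨V.card - 3, by omega⟩
  have e1 : V.card - 2 = n + 1 := by omega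
  have e2 : V.card - 3 = n := by omega
  rw [e1, e2]
  have hlin := hsys.lin a ha b hb hab
  have hVmem : V ∈ V.powerset.filter (fun S => a ∈ S ∧ b ∈ S) := by
    simp [ha, hb]
  have hpairmem : ({a, b} : Finset α) ∈
      (V.powerset.filter (fun S => a ∈ S ∧ b ∈ S)).erase V := by
    rw [Finset.mem_erase]
    refine ⟨?_, ?_⟩
    · intro h
      have : ({a, b} : Finset α).card = 2 := Finset.card_pair hab
      rw [h] at this
      omega
    · simp only [Finset.mem_filter, Finset.mem_powerset]
      refine ⟨?_, by simp, by simp⟩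
      intro t ht
      simp only [Finset.mem_insert, Finset.mem_singleton] at ht
      rcases ht with rfl | rfl
      · exact ha
      · exact hb
  rw [← Finset.add_sum_erase _ _ hVmem, ← Finset.add_sum_erase _ _ hpairmem] at hlin
  have hrest : m * (∑ S ∈ ((V.powerset.filter (fun S => a ∈ S ∧ b ∈ S)).erase V).erase {a, b},
      x S) * (-x V) ^ n = 0 := by
    rw [Finset.mul_sum, Finset.sum_mul]
    refine Finset.sum_eq_zero ?_
    intro T hT
    rw [Finset.mem_erase, Finset.mem_erase, Finset.mem_filter, Finset.mem_powerset] at hT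
    obtain ⟨hTne, hTV, hTsub, haT, hbT⟩ := hT
    have hssub : T ⊂ V := Finset.ssubset_iff_subset_ne.mpr ⟨hTsub, hTV⟩
    have hTcard : 3 ≤ T.card := by
      by_contra hlt
      have hsub2 : ({a, b} : Finset α) ⊆ T := by
        intro t ht
        simp only [Finset.mem_insert, Finset.mem_singleton] at ht
        rcases ht with rfl | rfl
        · exact haT
        · exact hbT
      have hc2 : ({a, b} : Finset α).card = 2 := Finset.card_pair hab
      exact hTne (Finset.eq_of_subset_of_card_le hsub2 (by omega)).symm
    have hlt : T.card < V.card := Finset.card_lt_card hssub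
    have hout := h1 α R m V x hsys T hssub (by omega) a haT
    have hco := b4_card_outV V T a hTsub haT
    have hxV : outx x T a (outV V T a) = x V := by
      unfold outx
      rw [b4_outS_outV V T a hTsub haT]
    have hmem : -x V ∈ H1 (outV V T a) (outx x T a) := by
      refine Submodule.neg_mem _ ?_
      refine Submodule.subset_span ?_
      exact ⟨outV V T a, Finset.Subset.refl _, by omega, hxV.symm⟩
    exact h2 α R (m * x T) (outV V T a) (outx x T a) hout (by omega) n (by omega) _
      (Submodule.pow_mem_pow _ hmem n)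
  have hkey : m * (-x V) = m * x {a, b} +
      m * (∑ S ∈ ((V.powerset.filter (fun S => a ∈ S ∧ b ∈ S)).erase V).erase {a, b}, x S) := by
    linear_combination (-1 : R) * hlin
  calc m * (-x V) ^ (n + 1) = (m * (-x V)) * (-x V) ^ n := by ring
    _ = m * x {a, b} * (-x V) ^ n + m * (∑ S ∈ ((V.powerset.filter
          (fun S => a ∈ S ∧ b ∈ S)).erase V).erase {a, b}, x S) * (-x V) ^ n := by
        rw [hkey]; ring
    _ = m * x {a, b} * (-x V) ^ n := by rw [hrest, add_zero]

end Pool.Agent.HH
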