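import Pool.Agent.Lib.MP_371b18_ag.Stm

open Finset

namespace Pool.Agent.HH

section b5

variable {α : Type} [DecidableEq α]

private theorem b5_outV {V : Finset α} {a b : α} (ha : a ∈ V) (hab : a ≠ b) :
    outV V {a, b} a = V.erase b := by
  ext c
  unfold outV
  simp only [mem_insert, mem_sdiff, mem_singleton, mem_erase, not_or]
  constructor
  · rintro (rfl | ⟨h1, h2, h3⟩)
    · exact ⟨hab, ha⟩
    · exact ⟨h3, h1⟩
  · rintro ⟨h1, h2⟩
    by_cases hc : c = a
    · exact Or.inl hc
    · exact Or.inr ⟨h2, hc, h1⟩

private theorem b5_outS {T : Finset α} {a b : α} (ha : a ∈ T) :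
    outS {a, b} a T = insert b T := by
  unfold outS
  rw [if_pos ha]
  ext c
  simp only [mem_union, mem_insert, mem_singleton]
  constructor
  · rintro (h | rfl | h)
    · exact Or.inr h
    · exact Or.inr ha
    · exact Or.inl h
  · rintro (h | h)
    · exact Or.inr (Or.inr h)
    · exact Or.inl h

private theorem b5_yp {R : Type} [CommRing R] {V S : Finset α} {x : Finset α → R} {a b : α}
    (hSV : S ⊆ V) (ha : a ∈ S) (hb : b ∈ S) (hab : a ≠ b) :
    yp (V.erase b) (outx x {a, b} a) (S.erase b) = yp V x S := by
  unfold yp outx
  refine Finset.sum_bij' (fun T _ => insert b T) (fun T _ => T.erase b) ?_ ?_ ?_ ?_ ?_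
  · intro T hT
    rw [mem_filter, mem_powerset] at hT ⊢
    obtain ⟨h1, h2⟩ := hT
    refine ⟨insert_subset (hSV hb) fun c hc => (mem_erase.1 (h1 hc)).2, fun c hc => ?_,
      fun h => ?_⟩
    · by_cases hcb : c = b
      · rw [hcb]; exact mem_insert_self b T
      · exact mem_insert_of_mem (h2.1 (mem_erase.2 ⟨hcb, hc⟩))
    · refine h2.2 fun c hc => mem_erase.2 ⟨(mem_erase.1 (h1 hc)).1, h (mem_insert_of_mem hc)⟩
  · intro T hT
    rw [mem_filter, mem_powerset] at hT ⊢
    obtain ⟨h1, h2⟩ := hT
    refine ⟨erase_subset_erase b h1, erase_subset_erase b h2.1, fun h => h2.2 fun c hc => ?_⟩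
    by_cases hcb : c = b
    · rw [hcb]; exact hb
    · exact (mem_erase.1 (h (mem_erase.2 ⟨hcb, hc⟩))).2
  · intro T hT
    rw [mem_filter, mem_powerset] at hT
    exact erase_insert fun h => (mem_erase.1 (hT.1 h)).1 rfl
  · intro T hT
    rw [mem_filter, mem_powerset] at hT
    exact insert_erase (hT.2.1 hb)
  · intro T hT
    rw [mem_filter, mem_powerset] at hT
    rw [b5_outS (hT.2.1 (mem_erase.2 ⟨hab, ha⟩))]

end b5

theorem p_link (h1 : S_sys_in) (h2 : S_sys_out) (h3 : S_pair) : S_link := by
  intro α _ R _ _
  have key : ∀ (n : ℕ) (m : R) (V : Finset α) (x : Finset α → R), V.card = n → Sys m V x →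
      ∀ S, S ⊂ V → 2 ≤ S.card →
      m * x S * ((-(x S + yp V x S)) ^ (S.card - 2) * (-x V) ^ (V.card - S.card - 1)) =
        m * (-x V) ^ (V.card - 2) := by
    intro n
    induction n with
    | zero =>
      intro m V x hn _ S hS hS2
      have := card_lt_card hS
      omega
    | succ n ih =>
      intro m V x hn hV S hS hS2
      have hcard := card_lt_card hS
      by_cases hS3 : S.card = 2
      · obtain ⟨a, b, hab, rfl⟩ := card_eq_two.1 hS3
        have ha : a ∈ V := hS.1 (by simp)
        have hb : b ∈ V := hS.1 (by simp)
        rw [h3 α R m V x hV (by omega) a ha b hb hab, hS3]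
        have e : V.card - 2 - 1 = V.card - 3 := by omega
        rw [e, Nat.sub_self, pow_zero, one_mul]
      · obtain ⟨a, ha, b, hb, hab⟩ := one_lt_card.1 (by omega : 1 < S.card)
        have hsub : ({a, b} : Finset α) ⊆ S := by
          intro c hc
          rw [mem_insert, mem_singleton] at hc
          rcases hc with rfl | rfl
          · exact ha
          · exact hb
        have hc2 : ({a, b} : Finset α).card = 2 := card_pair hab
        have hne : ({a, b} : Finset α) ≠ S := by
          intro h
          rw [h] at hc2
          exact hS3 hc2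
        have hne' : S.card - 2 = S.card - 3 + 1 := by omega
        -- the pair case for the inner side
        have e1 := h3 α R (m * x S) S (inx V x S) (h1 α R m V x hV S hS hS2) (by omega)
          a ha b hb hab
        have i1 : inx V x S S = x S + yp V x S := by unfold inx; rw [if_pos rfl]
        have i2 : inx V x S {a, b} = x {a, b} := by unfold inx; rw [if_neg hne]
        rw [i1, i2] at e1
        -- the other side of the divisor `{a, b}`
        have hVab : ({a, b} : Finset α) ⊂ V := lt_of_le_of_lt hsub hS
        have haV : a ∈ V := hS.1 ha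
        have hbV : b ∈ V := hS.1 hb
        have hs2 := h2 α R m V x hV {a, b} hVab (by omega) a (by simp)
        rw [b5_outV haV hab] at hs2
        have hVc : (V.erase b).card = n := by rw [card_erase_of_mem hbV]; omega
        have hSc : (S.erase b).card = S.card - 1 := card_erase_of_mem hb
        have e2 := ih (m * x {a, b}) (V.erase b) (outx x {a, b} a) hVc hs2 (S.erase b)
          ?_ (by omega)
        · have j1 : outx x {a, b} a (S.erase b) = x S := by
            unfold outx
            rw [b5_outS (mem_erase.2 ⟨hab, ha⟩), insert_erase hb]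
          have j2 : outx x {a, b} a (V.erase b) = x V := by
            unfold outx
            rw [b5_outS (mem_erase.2 ⟨hab, haV⟩), insert_erase hbV]
          rw [j1, j2, b5_yp hS.1 ha hb hab, hSc, card_erase_of_mem hbV] at e2
          rw [h3 α R m V x hV (by omega) a haV b hbV hab]
          have k1 : S.card - 1 - 2 = S.card - 3 := by omega
          have k2 : V.card - 1 - (S.card - 1) - 1 = V.card - S.card - 1 := by omega
          have k3 : V.card - 1 - 2 = V.card - 3 := by omega
          rw [k1, k2, k3] at e2
          rw [← e2, ← mul_assoc, e1]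
          ring
        · refine ⟨erase_subset_erase b hS.1, fun h => ?_⟩
          have h4 := card_le_card h
          rw [hSc, card_erase_of_mem hbV] at h4
          omega
  intro m V x hV S hS hS2
  exact key V.card m V x rfl hV S hS hS2

end Pool.Agent.HH
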