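import Pool.Agent.Lib.MP_371b18_ag.Stm

/-!
Piece B6: top degree classes of a rooted system are multiples of the power of the root class.
-/

open Finset

namespace Pool.Agent.HH

section

variable {α : Type} [DecidableEq α] {V S : Finset α} {s : α}

private theorem b6_card_out (hSV : S ⊆ V) (hs : s ∈ S) :
    (outV V S s).card = V.card - S.card + 1 := by
  unfold outV
  rw [card_insert_of_notMem, card_sdiff_of_subset hSV]
  rw [mem_sdiff]
  exact fun h => h.2 hs

private theorem b6_outS_out (hSV : S ⊆ V) (hs : s ∈ S) : outS S s (outV V S s) = V := by
  have h1 : s ∈ outV V S s := mem_insert_self _ _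
  unfold outS
  rw [if_pos h1]
  unfold outV
  ext t
  rw [mem_union, mem_insert, mem_sdiff]
  constructor
  · rintro ((rfl | h) | h)
    · exact hSV hs
    · exact h.1
    · exact hSV h
  · intro h
    by_cases ht : t ∈ S
    · exact Or.inr ht
    · exact Or.inl (Or.inr ⟨h, ht⟩)

end

private theorem b6_aux (h1 : S_sys_in) (h2 : S_sys_out) (h3 : S_decomp) (h4 : S_gen)
    (h5 : S_top) (h6 : S_link) (α : Type) [DecidableEq α] (R : Type) [CommRing R] [Algebra ℚ R] :
    ∀ (n : ℕ) (m : R) (V : Finset α) (x : Finset α → R), V.card = n → Sys m V x → 2 ≤ V.card →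
      ∀ q ∈ (H1 V x) ^ (V.card - 2), ∃ c : ℚ, m * q = c • (m * (-x V) ^ (V.card - 2)) := by
  intro n
  induction n using Nat.strong_induction_on with
  | _ n ih =>
    intro m V x hn hsys hV q hq
    by_cases hV2 : V.card = 2
    · have e1 : V.card - 2 = 0 := by omega
      rw [e1, pow_zero] at hq ⊢
      obtain ⟨c, rfl⟩ := Submodule.mem_one.1 hq
      exact ⟨c, by rw [mul_one, Algebra.smul_def, mul_comm]⟩
    · obtain ⟨d, hd⟩ : ∃ d, V.card = d + 3 := ⟨V.card - 3, by omega⟩
      have e1 : V.card - 2 = d + 1 := by omega
      rw [e1] at hq
      have hspan := h4 α R m V x hsys hV d q hq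
      set t : R := m * (-x V) ^ (V.card - 2) with ht
      suffices hs : m * q ∈ Submodule.span ℚ ({t} : Set R) by
        obtain ⟨c, hc⟩ := Submodule.mem_span_singleton.1 hs
        exact ⟨c, hc.symm⟩
      refine (Submodule.span_le.2 ?_) hspan
      rintro z ⟨S, hSV, hS2, q', hq', rfl⟩
      obtain ⟨s, hs⟩ : S.Nonempty := card_pos.1 (by omega)
      have hsub : S ⊆ V := hSV.1
      have hlt : S.card < V.card := card_lt_card hSV
      have hout := b6_card_out hsub hs
      obtain ⟨q'', hq'', heq⟩ := h3 α R m V x hsys S hSV hS2 s hs d q' hq'
      rw [SetLike.mem_coe, heq]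
      have hin := h1 α R m V x hsys S hSV hS2
      have hou := h2 α R m V x hsys S hSV hS2 s hs
      -- linear map
      let L : R →ₗ[ℚ] R := LinearMap.mulLeft ℚ (m * x S)
      have hle : (⨆ ab ∈ antidiagonal d, (H1 S (inx V x S)) ^ ab.1 *
          (H1 (outV V S s) (outx x S s)) ^ ab.2 : Submodule ℚ R) ≤
          (Submodule.span ℚ ({t} : Set R)).comap L := by
        refine iSup₂_le fun ab hab => ?_
        rw [HasAntidiagonal.mem_antidiagonal] at hab
        rw [Submodule.mul_le]
        intro u hu v hv
        rw [Submodule.mem_comap]
        change m * x S * (u * v) ∈ _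
        rcases lt_trichotomy ab.1 (S.card - 2) with hlt1 | heq1 | hgt1
        · -- the second degree is too large
          have h7 := h5 α R (m * x S) (outV V S s) (outx x S s) hou (by omega) ab.2 (by omega) v hv
          have h8 : m * x S * (u * v) = u * (m * x S * v) := by ring
          rw [h8, h7, mul_zero]
          exact Submodule.zero_mem _
        · have heq2 : ab.2 = (outV V S s).card - 2 := by omega
          rw [heq1] at hu
          rw [heq2] at hv
          obtain ⟨c, hc⟩ := ih S.card (by omega) (m * x S) S (inx V x S) rfl hin hS2 u hu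
          obtain ⟨c', hc'⟩ := ih (outV V S s).card (by omega) (m * x S) (outV V S s)
            (outx x S s) rfl hou (by omega) v hv
          have h7 : inx V x S S = x S + yp V x S := by
            unfold inx
            rw [if_pos rfl]
          have h8 : outx x S s (outV V S s) = x V := by
            unfold outx
            rw [b6_outS_out hsub hs]
          have h9 : (outV V S s).card - 2 = V.card - S.card - 1 := by omega
          rw [h7] at hc
          rw [h8, h9] at hc'
          have h10 := h6 α R m V x hsys S hSV hS2
          have h11 : m * x S * (u * v) = (c * c') • t := by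
            calc m * x S * (u * v) = (m * x S * u) * v := by ring
              _ = (c • (m * x S * (-(x S + yp V x S)) ^ (S.card - 2))) * v := by rw [hc]
              _ = c • ((m * x S * v) * (-(x S + yp V x S)) ^ (S.card - 2)) := by
                rw [smul_mul_assoc]
                congr 1
                ring
              _ = c • ((c' • (m * x S * (-x V) ^ (V.card - S.card - 1))) *
                    (-(x S + yp V x S)) ^ (S.card - 2)) := by rw [hc']
              _ = (c * c') • (m * x S * ((-(x S + yp V x S)) ^ (S.card - 2) *
                    (-x V) ^ (V.card - S.card - 1))) := by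
                rw [smul_mul_assoc, smul_smul]
                congr 1
                ring
              _ = (c * c') • t := by rw [h10]
          rw [h11]
          exact Submodule.smul_mem _ _ (Submodule.mem_span_singleton_self t)
        · have h7 := h5 α R (m * x S) S (inx V x S) hin hS2 ab.1 (by omega) u hu
          have h8 : m * x S * (u * v) = (m * x S * u) * v := by ring
          rw [h8, h7, zero_mul]
          exact Submodule.zero_mem _
      exact hle hq''

theorem p_span (h1 : S_sys_in) (h2 : S_sys_out) (h3 : S_decomp) (h4 : S_gen) (h5 : S_top)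
    (h6 : S_link) : S_span := by
  intro α _ R _ _ m V x hsys hV q hq
  exact b6_aux h1 h2 h3 h4 h5 h6 α R V.card m V x rfl hsys hV q hq

end Pool.Agent.HH
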