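import Pool.Agent.Lib.MP_371b18_ag.Stm

/-! B7 (MP_371b18_ag): homogeneity of the classes lambda. -/

open Finset

namespace Pool.Agent.HH

private theorem b7_yp {α : Type} [DecidableEq α] {R : Type} [CommRing R] [Algebra ℚ R]
    (V : Finset α) (x : Finset α → R) (S : Finset α) (hS : S.Nonempty) :
    yp V x S ∈ H1 V x := by
  unfold yp
  refine Submodule.sum_mem _ fun T hT => ?_
  obtain ⟨h1, h2⟩ := Finset.mem_filter.1 hT
  refine Submodule.subset_span ⟨T, Finset.mem_powerset.1 h1, ?_, rfl⟩
  have h3 := Finset.card_lt_card h2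
  have h4 := Finset.card_pos.2 hS
  omega

private theorem b7_zz {α : Type} [DecidableEq α] {R : Type} [CommRing R] [Algebra ℚ R]
    (V : Finset α) (x : Finset α → R) (S : Finset α) (hV : S ⊆ V) (hS : S.Nonempty) :
    zz V x S ∈ H1 V x := by
  unfold zz
  split_ifs with h
  · exact Submodule.add_mem _ (Submodule.subset_span ⟨S, hV, h, rfl⟩) (b7_yp V x S hS)
  · exact Submodule.zero_mem _

private theorem b7_pw {α : Type} [DecidableEq α] {R : Type} [CommRing R] [Algebra ℚ R]
    (V : Finset α) (O : Finset α → Bool) (x : Finset α → R) (k : ℕ) :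
    pw V O x k ∈ (H1 V x) ^ k := by
  unfold pw
  refine Submodule.sum_mem _ fun S hS => ?_
  obtain ⟨h1, h2, -⟩ := Finset.mem_filter.1 hS
  exact Submodule.sub_mem _ (Submodule.pow_mem_pow _ (b7_yp V x S h2) k)
    (Submodule.pow_mem_pow _ (b7_zz V x S (Finset.mem_powerset.1 h1) h2) k)

private theorem b7_prod {ι R : Type} [CommRing R] [Algebra ℚ R] (H : Submodule ℚ R)
    (s : Finset ι) (f : ι → R) (i : ι → ℕ) (h : ∀ a ∈ s, f a ∈ H ^ (i a)) :
    ∏ a ∈ s, f a ∈ H ^ (∑ a ∈ s, i a) := by
  classical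
  induction s using Finset.induction_on with
  | empty =>
    rw [Finset.prod_empty, Finset.sum_empty, pow_zero]
    exact Submodule.one_le.1 le_rfl
  | insert a s ha ih =>
    rw [Finset.prod_insert ha, Finset.sum_insert ha, pow_add]
    exact Submodule.mul_mem_mul (h a (Finset.mem_insert_self a s))
      (ih fun b hb => h b (Finset.mem_insert_of_mem hb))

theorem p_lam_mem (h1 : S_newton_mem) : S_lam_mem := by
  intro α _ R _ _ V x O b r i
  unfold lamP tot
  refine b7_prod _ _ _ _ fun a _ => ?_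
  unfold lamV
  refine h1 R (H1 V x) _ (fun k _ => ?_) (i a)
  exact Submodule.smul_mem _ _ (b7_pw V O x k)

end Pool.Agent.HH
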