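import Pool.Agent.Lib.MP_371b18_ag.Stm

/-!
(F2) Forgetting a leaf: power sums. (helper30)
-/

open Finset

namespace Pool.Agent.HH

section

variable {R : Type} [CommRing R]

theorem f2_pow (m e Y y : R) (h : m * (e * Y) = m * (e * y)) (k : ℕ) :
    m * ((Y + e) ^ k - Y ^ k) = m * ((y + e) ^ k - y ^ k) := by
  obtain ⟨Q, hQ⟩ := sub_dvd_pow_sub_pow ((Polynomial.X : Polynomial R) + Polynomial.C e)
    Polynomial.X k
  have ev : ∀ a : R, (a + e) ^ k - a ^ k = e * Q.eval a := by
    intro a
    have h1 := congrArg (Polynomial.eval a) hQ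
    simpa using h1
  obtain ⟨c, hc⟩ := Polynomial.sub_dvd_eval_sub Y y Q
  have h2 : m * (e * (Y - y)) = 0 := by
    rw [mul_sub, mul_sub, h, sub_self]
  have h3 : m * (e * (Q.eval Y - Q.eval y)) = 0 := by
    rw [hc, ← mul_assoc e, ← mul_assoc m, h2, zero_mul]
  rw [ev, ev]
  rw [mul_sub, mul_sub] at h3
  exact sub_eq_zero.1 h3

variable {α : Type} [DecidableEq α]

/-- sums over the subsets of `V` -/
theorem f2_split (V : Finset α) (u : α) (hu : u ∈ V) (f : Finset α → R) :
    ∑ S ∈ V.powerset, f S = ∑ T ∈ (V.erase u).powerset, (f T + f (insert u T)) := by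
  conv_lhs => rw [← Finset.insert_erase hu]
  rw [Finset.sum_powerset_insert (Finset.notMem_erase u V), Finset.sum_add_distrib]

theorem f2_notMem {V T : Finset α} {u : α} (hT : T ⊆ V.erase u) : u ∉ T := fun h =>
  (Finset.mem_erase.1 (hT h)).1 rfl

theorem f2_ss1 {S T : Finset α} {u : α} (hT : u ∉ T) : T ⊂ insert u S ↔ T ⊆ S := by
  rw [Finset.ssubset_iff_subset_ne]
  constructor
  · rintro ⟨h, -⟩ a ha
    rcases Finset.mem_insert.1 (h ha) with h' | h'
    · exact absurd (h' ▸ ha) hT
    · exact h'
  · intro h
    refine ⟨h.trans (Finset.subset_insert _ _), fun h' => hT ?_⟩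
    rw [h']
    exact Finset.mem_insert_self _ _

theorem f2_ss2 {S T : Finset α} {u : α} (hS : u ∉ S) (hT : u ∉ T) :
    insert u T ⊂ insert u S ↔ T ⊂ S := by
  rw [Finset.ssubset_iff_subset_ne, Finset.ssubset_iff_subset_ne,
    Finset.insert_subset_insert_iff hT]
  refine and_congr_right fun _ => not_congr ⟨fun h => ?_, fun h => by rw [h]⟩
  rw [← Finset.erase_insert hT, ← Finset.erase_insert hS, h]

theorem f2_ss3 {S T : Finset α} {u : α} (hS : u ∉ S) : ¬ insert u T ⊂ S := fun h =>
  hS (h.1 (Finset.mem_insert_self _ _))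

/-- `yp` of a set without `u` -/
theorem f2_yp1 (V : Finset α) (u : α) (hu : u ∈ V) (x : Finset α → R) (T : Finset α)
    (hT : T ⊆ V.erase u) : yp V x T = yp (V.erase u) (forx x u) T + x (insert u T) := by
  classical
  unfold yp
  rw [Finset.sum_filter, f2_split V u hu, Finset.sum_filter]
  have h1 : ∑ S ∈ (V.erase u).powerset, (if S = T then x (insert u T) else 0) =
      x (insert u T) := by
    rw [Finset.sum_ite_eq' (V.erase u).powerset T, if_pos (Finset.mem_powerset.2 hT)]
  rw [← h1, ← Finset.sum_add_distrib]
  refine Finset.sum_congr rfl fun S hS => ?_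
  have hS' := Finset.mem_powerset.1 hS
  have huS := f2_notMem hS'
  have huT := f2_notMem hT
  unfold forx
  by_cases hST : S = T
  · subst hST
    rw [if_neg (fun h : S ⊂ S => h.2 (le_refl S)), if_pos ((f2_ss1 huT).2 (le_refl S)),
      if_neg (fun h : S ⊂ S => h.2 (le_refl S)), if_pos rfl]
  · rw [if_neg hST, add_zero]
    by_cases h : T ⊂ S
    · rw [if_pos h, if_pos h, if_pos ((f2_ss1 huT).2 h.1)]
    · rw [if_neg h, if_neg h, if_neg, add_zero]
      intro h'
      exact h (Finset.ssubset_iff_subset_ne.2 ⟨(f2_ss1 huT).1 h', fun h'' => hST h''.symm⟩)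

/-- `yp` of a set with `u` -/
theorem f2_yp2 (V : Finset α) (u : α) (hu : u ∈ V) (x : Finset α → R) (T : Finset α)
    (hT : T ⊆ V.erase u) : yp V x (insert u T) =
      ∑ S ∈ (V.erase u).powerset with T ⊂ S, x (insert u S) := by
  classical
  unfold yp
  rw [Finset.sum_filter, f2_split V u hu, Finset.sum_filter]
  refine Finset.sum_congr rfl fun S hS => ?_
  have hS' := Finset.mem_powerset.1 hS
  have huS := f2_notMem hS'
  have huT := f2_notMem hT
  rw [if_neg (f2_ss3 huS), zero_add]
  by_cases h : T ⊂ S
  · rw [if_pos h, if_pos ((f2_ss2 huS huT).2 h)]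
  · rw [if_neg h, if_neg (fun h' => h ((f2_ss2 huS huT).1 h'))]

end

theorem p_forget_pw : S_forget_pw := by
  intro α _ R _ _ m V x hsys u hu O hOu hO k hk
  classical
  unfold pw
  rw [Finset.sum_filter, f2_split V u hu, Finset.sum_filter, Finset.mul_sum, Finset.mul_sum]
  refine Finset.sum_congr rfl fun T hT => ?_
  have hT' := Finset.mem_powerset.1 hT
  have huT := f2_notMem hT'
  rcases Finset.eq_empty_or_nonempty T with h0 | h0
  · subst h0
    rw [if_neg, if_neg, if_neg, add_zero]
    · rintro ⟨h, -⟩
      exact Finset.not_nonempty_empty h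
    · rintro ⟨-, h⟩
      have h1 : (insert u (∅ : Finset α)) = {u} := rfl
      rw [h1, hOu] at h
      exact absurd h (by decide)
    · rintro ⟨h, -⟩
      exact Finset.not_nonempty_empty h
  · by_cases hOT : O T = true
    · rw [if_pos ⟨h0, hOT⟩, if_pos ⟨Finset.insert_nonempty _ _, by rw [hO T hT' h0]; exact hOT⟩,
        if_pos ⟨h0, hOT⟩]
      set e := x (insert u T) with he
      set Y := yp (V.erase u) (forx x u) T with hY
      set y := yp V x (insert u T) with hy
      have hcT : 1 ≤ T.card := Finset.card_pos.2 h0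
      have hci : (insert u T).card = T.card + 1 := Finset.card_insert_of_notMem huT
      have key : m * (e * Y) = m * (e * y) := by
        have h1 : Y = (∑ S ∈ (V.erase u).powerset with T ⊂ S, x S) + y := by
          rw [hy, f2_yp2 V u hu x T hT', hY]
          unfold yp forx
          rw [Finset.sum_add_distrib]
        have h2 : m * (e * ∑ S ∈ (V.erase u).powerset with T ⊂ S, x S) = 0 := by
          rw [Finset.mul_sum, Finset.mul_sum]
          refine Finset.sum_eq_zero fun S hS => ?_
          rw [Finset.mem_filter, Finset.mem_powerset] at hS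
          obtain ⟨hS1, hS2⟩ := hS
          have huS := f2_notMem hS1
          have hcS : T.card < S.card := Finset.card_lt_card hS2
          refine hsys.cross (insert u T) S ?_ ?_ ?_ ?_ ?_
          · exact Finset.insert_subset hu (hT'.trans (Finset.erase_subset _ _))
          · exact hS1.trans (Finset.erase_subset _ _)
          · omega
          · omega
          · rintro (h | h | h)
            · exact huS (h (Finset.mem_insert_self _ _))
            · apply hS2.2
              intro a ha
              rcases Finset.mem_insert.1 (h ha) with h' | h'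
              · exact absurd (h' ▸ ha) huS
              · exact h'
            · obtain ⟨a, ha⟩ := h0
              exact Finset.disjoint_left.1 h (Finset.mem_insert_of_mem ha) (hS2.1 ha)
        rw [h1, mul_add, mul_add, h2, zero_add]
      have hz : zz V x T = zz (V.erase u) (forx x u) T := by
        unfold zz
        by_cases h2 : 2 ≤ T.card
        · rw [if_pos h2, if_pos h2, f2_yp1 V u hu x T hT']
          unfold forx
          ring
        · rw [if_neg h2, if_neg h2]
      have hz2 : zz V x (insert u T) = e + y := by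
        unfold zz
        rw [if_pos (by omega)]
      rw [f2_yp1 V u hu x T hT', hz, hz2, ← hY, ← he]
      have := f2_pow m e Y y key k
      rw [add_comm e y]
      linear_combination this
    · rw [if_neg (fun h => hOT h.2), if_neg (fun h => hOT (by rw [← hO T hT' h0]; exact h.2)),
        if_neg (fun h => hOT h.2), add_zero]

end Pool.Agent.HH
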