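import Pool.Agent.Lib.MP_371b18_ag.Stm2

/-! Final assembly for `MP_371b18_ag` from the statements of the pieces. -/

open Finset

namespace Pool.Agent.HH

open Pool.Agent.HHI

private lemma fin_isDegree (hE : S_degree_exists) {ι : Type} [Fintype ι] [DecidableEq ι]
    (h : 3 ≤ Fintype.card ι) : IsDegree (degree : Chow ι →ₗ[ℚ] ℚ) := by
  have h1 := hE ι h
  unfold degree
  rw [dif_pos h1]
  exact h1.choose_spec

private lemma fin_neg_xr {ι : Type} [Fintype ι] [DecidableEq ι] (j : ι) :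
    -(xr j (univ.erase j)) = psi j := by
  simp [xr]

/-- the general formula -/
private lemma fin_eval (hM : S_main) (hR : S_rooted) (hL : S_lam) (hE : S_degree_exists)
    (hP : S_degree_psi) {r : ℕ} (c : (Fin r → ℕ) → ℚ)
    (hc : ∀ (i : Fin r → ℕ) (α : Type) [DecidableEq α] (R : Type) [CommRing R] [Algebra ℚ R]
      (m : R) (V : Finset α) (x : Finset α → R) (O : Finset α → Bool), V.card = tot i + 2 →
      IsPar V O V.card → Sys m V x → m * lamP V O bco x i = c i • (m * (-x V) ^ (tot i)))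
    {ι : Type} [Fintype ι] [DecidableEq ι] (h3 : 3 ≤ Fintype.card ι) (W : Finset ι)
    (hW : Even W.card) (j : ι) (i : Fin r → ℕ) (hi : tot i + 3 ≤ Fintype.card ι) :
    hurwitzHodge W j (Fintype.card ι - 3 - tot i) i = (1 / 2) * aN c (W.erase j).card i := by
  have hV : (univ.erase j : Finset ι).card = Fintype.card ι - 1 := by
    rw [card_erase_of_mem (mem_univ j), card_univ]
  have hpar : IsPar (univ.erase j) (par W) (W.erase j).card := by
    refine ⟨W.erase j, erase_subset_erase j (subset_univ W), rfl, fun T hT => ?_⟩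
    unfold par
    congr 3
    ext t
    simp only [mem_inter, mem_erase]
    constructor
    · rintro ⟨h1, h2⟩
      exact ⟨h1, (mem_erase.1 (hT h1)).1, h2⟩
    · rintro ⟨h1, _, h2⟩
      exact ⟨h1, h2⟩
  have hm := hM bco r c hc ι (Chow ι) 1 (univ.erase j) (xr j) (par W) (W.erase j).card
    (by omega) hpar (hR ι j h3) i (by omega)
  rw [one_mul, one_mul, fin_neg_xr] at hm
  have hlam : (∏ a, lam W (i a)) = lamP (univ.erase j) (par W) bco (xr j) i := by
    unfold lamP
    exact prod_congr rfl fun a _ => hL ι j W h3 hW (i a)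
  unfold hurwitzHodge
  rw [hlam]
  have e1 : Fintype.card ι - 3 - tot i = (univ.erase j : Finset ι).card - 2 - tot i := by omega
  rw [e1, hm, map_smul, smul_eq_mul]
  have e2 : (univ.erase j : Finset ι).card - 2 = Fintype.card ι - 3 := by omega
  rw [e2, hP ι j h3 _ (fin_isDegree hE h3), mul_one]

/-- the constant in degree one is `1/2` -/
private lemma fin_half (hO : S_one) (hB : S_bco) (hR : S_rooted) (hE : S_degree_exists)
    (hP : S_degree_psi) {r : ℕ} (c : (Fin r → ℕ) → ℚ)
    (hc : ∀ (i : Fin r → ℕ) (α : Type) [DecidableEq α] (R : Type) [CommRing R] [Algebra ℚ R]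
      (m : R) (V : Finset α) (x : Finset α → R) (O : Finset α → Bool), V.card = tot i + 2 →
      IsPar V O V.card → Sys m V x → m * lamP V O bco x i = c i • (m * (-x V) ^ (tot i)))
    (i : Fin r → ℕ) (hi : tot i = 1) : c i = 1 / 2 := by
  have h3 : 3 ≤ Fintype.card (Fin 4) := by simp
  have hV : (univ.erase (0 : Fin 4) : Finset (Fin 4)).card = 3 := by decide
  have hpar : IsPar (univ.erase (0 : Fin 4)) (par univ) 3 := by
    refine ⟨univ.erase 0, subset_rfl, hV, fun T hT => ?_⟩
    unfold par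
    rw [inter_univ, inter_eq_left.2 hT]
  have h1 := hc i (Fin 4) (Chow (Fin 4)) 1 (univ.erase 0) (xr 0) (par univ)
    (by rw [hV, hi]) (by rw [hV]; exact hpar) (hR (Fin 4) 0 h3)
  have h2 := hO bco r i hi (Fin 4) (Chow (Fin 4)) 1 (univ.erase 0) (xr 0) (par univ) hV hpar
    (hR (Fin 4) 0 h3)
  rw [h2, hi, fin_neg_xr, one_mul, pow_one, hB, one_mul] at h1
  have h4 := congrArg (degree : Chow (Fin 4) →ₗ[ℚ] ℚ) h1
  have h5 := hP (Fin 4) 0 h3 _ (fin_isDegree hE h3)
  have e : Fintype.card (Fin 4) - 3 = 1 := by simp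
  rw [e, pow_one] at h5
  rw [map_smul, map_smul, h5, smul_eq_mul, smul_eq_mul, mul_one, mul_one] at h4
  rw [← h4]
  norm_num

/-- the whole theorem from the pieces -/
theorem final_of (hM : S_main) (hC : S_const) (hO : S_one) (hB : S_bco) (hQ : S_poly)
    (hR : S_rooted) (hL : S_lam) (hE : S_degree_exists) (hP : S_degree_psi) :
    ∀ (r : ℕ) (i : Fin r → ℕ), ∃ P Q : Polynomial ℚ,
      P.natDegree = 2 * ∑ a, i a ∧ Q.natDegree = 2 * ∑ a, i a ∧
      P.leadingCoeff = 1 / (2 ^ (∑ a, i a + 1) * ∏ a, ((i a).factorial : ℚ)) ∧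
      Q.leadingCoeff = 1 / (2 ^ (∑ a, i a + 1) * ∏ a, ((i a).factorial : ℚ)) ∧
      (∀ g : ℕ, 1 ≤ g → ∑ a, i a ≤ 2 * g - 1 → ∀ j : Fin (2 * g + 2),
        bigD i g j = P.eval (g : ℚ)) ∧
      (∀ g : ℕ, 1 ≤ g → ∑ a, i a ≤ 2 * g → smallD i g = Q.eval (g : ℚ)) := by
  intro r i
  obtain ⟨c, hc⟩ := hC bco r
  have hhalf := fin_half hO hB hR hE hP c hc
  obtain ⟨P1, hd1, hl1, he1⟩ := hQ r c hhalf 1 le_rfl i
  obtain ⟨P0, hd0, hl0, he0⟩ := hQ r c hhalf 0 (Nat.zero_le 1) i
  have ht : tot i = ∑ a, i a := rfl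
  have hX : (Polynomial.X + Polynomial.C (1 : ℚ)).natDegree = 1 := Polynomial.natDegree_X_add_C 1
  have hXl : (Polynomial.X + Polynomial.C (1 : ℚ)).leadingCoeff = 1 :=
    Polynomial.leadingCoeff_X_add_C 1
  have h2 : ((1 : ℚ) / 2) ≠ 0 := by norm_num
  refine ⟨Polynomial.C (1 / 2) * P1,
    Polynomial.C (1 / 2) * P0.comp (Polynomial.X + Polynomial.C 1), ?_, ?_, ?_, ?_, ?_, ?_⟩
  · rw [Polynomial.natDegree_C_mul h2, hd1, ht]
  · rw [Polynomial.natDegree_C_mul h2, Polynomial.natDegree_comp, hX, hd0, ht, mul_one]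
  · rw [Polynomial.leadingCoeff_mul, Polynomial.leadingCoeff_C, hl1, ht, pow_succ]
    field_simp
  · rw [Polynomial.leadingCoeff_mul, Polynomial.leadingCoeff_C,
      Polynomial.leadingCoeff_comp (by rw [hX]; exact one_ne_zero), hXl, hl0, ht, one_pow,
      mul_one, pow_succ]
    field_simp
  · intro g hg hi j
    have h := fin_eval hM hR hL hE hP c hc (ι := Fin (2 * g + 2)) (by simp; omega) univ
      (by rw [card_univ, Fintype.card_fin]; exact ⟨g + 1, by ring⟩) j i (by simp [ht]; omega)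
    have e1 : Fintype.card (Fin (2 * g + 2)) - 3 - tot i = 2 * g - 1 - ∑ a, i a := by
      simp [ht]
    have e2 : ((univ : Finset (Fin (2 * g + 2))).erase j).card = 2 * g + 1 := by simp
    rw [e1, e2, he1 g] at h
    unfold bigD
    rw [h, Polynomial.eval_mul, Polynomial.eval_C]
  · intro g hg hi
    have h := fin_eval hM hR hL hE hP c hc (ι := Fin (2 * g + 3)) (by simp)
      ((univ : Finset (Fin (2 * g + 3))).erase (Fin.last (2 * g + 2)))
      (by rw [card_erase_of_mem (mem_univ _), card_univ, Fintype.card_fin]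
          exact ⟨g + 1, by omega⟩) (Fin.last (2 * g + 2)) i (by simp [ht]; omega)
    have e1 : Fintype.card (Fin (2 * g + 3)) - 3 - tot i = 2 * g - ∑ a, i a := by
      simp [ht]
    have e2 : (((univ : Finset (Fin (2 * g + 3))).erase (Fin.last (2 * g + 2))).erase
        (Fin.last (2 * g + 2))).card = 2 * (g + 1) + 0 := by
      rw [erase_idem, card_erase_of_mem (mem_univ _)]
      simp
      ring
    rw [e1, e2, he0 (g + 1)] at h
    unfold smallD
    rw [h, Polynomial.eval_mul, Polynomial.eval_C, Polynomial.eval_comp]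
    simp

end Pool.Agent.HH
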