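import Mathlib
import Pool.Agent.Lib.MP_371b18_ag.Stm

/-! Piece G1: relabelling. -/

open Finset

namespace Pool.Agent.HH

section g1

variable {α β : Type} [DecidableEq α] [DecidableEq β] {R : Type} [CommRing R]

omit [DecidableEq β] in
private theorem g1_sub {V0 : Finset β} {g : β → α} (hg : Set.InjOn g V0) {S T : Finset β}
    (hS : S ⊆ V0) (hT : T ⊆ V0) : S.image g ⊆ T.image g ↔ S ⊆ T := by
  constructor
  · intro h a ha
    obtain ⟨t, ht, hta⟩ := Finset.mem_image.1 (h (Finset.mem_image_of_mem g ha))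
    have h1 : t = a := hg (Finset.mem_coe.2 (hT ht)) (Finset.mem_coe.2 (hS ha)) hta
    rwa [← h1]
  · exact fun h => Finset.image_subset_image h

private theorem g1_ssub {V0 : Finset β} {g : β → α} (hg : Set.InjOn g V0) {S T : Finset β}
    (hS : S ⊆ V0) (hT : T ⊆ V0) : S.image g ⊂ T.image g ↔ S ⊂ T := by
  rw [Finset.ssubset_iff_subset_ne, Finset.ssubset_iff_subset_ne, g1_sub hg hS hT]
  constructor
  · rintro ⟨h1, h2⟩
    exact ⟨h1, fun h => h2 (by rw [h])⟩
  · rintro ⟨h1, h2⟩
    refine ⟨h1, fun h => h2 (Finset.Subset.antisymm h1 ?_)⟩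
    rw [← g1_sub hg hT hS, h]

omit [DecidableEq β] in
private theorem g1_card {V0 : Finset β} {g : β → α} (hg : Set.InjOn g V0) {S : Finset β}
    (hS : S ⊆ V0) : (S.image g).card = S.card :=
  Finset.card_image_of_injOn (hg.mono (Finset.coe_subset.2 hS))

omit [DecidableEq β] in
private theorem g1_mem {V0 : Finset β} {g : β → α} (hg : Set.InjOn g V0) {S : Finset β}
    (hS : S ⊆ V0) {a : β} (ha : a ∈ V0) : g a ∈ S.image g ↔ a ∈ S := by
  constructor
  · intro h
    obtain ⟨t, ht, hta⟩ := Finset.mem_image.1 h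
    have h1 : t = a := hg (Finset.mem_coe.2 (hS ht)) (Finset.mem_coe.2 ha) hta
    rwa [← h1]
  · exact fun h => Finset.mem_image_of_mem g h

private theorem g1_sum {V0 : Finset β} {g : β → α} (hg : Set.InjOn g V0)
    (P' : Finset β → Prop) (P : Finset α → Prop) [DecidablePred P'] [DecidablePred P]
    (hP : ∀ T, T ⊆ V0 → (P' T ↔ P (T.image g))) (F : Finset α → R) :
    ∑ T ∈ V0.powerset with P' T, F (T.image g) = ∑ S ∈ (V0.image g).powerset with P S, F S := by
  refine Finset.sum_bij (fun T _ => T.image g) ?_ ?_ ?_ ?_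
  · intro T hT
    rw [Finset.mem_filter, Finset.mem_powerset] at hT ⊢
    exact ⟨Finset.image_subset_image hT.1, (hP T hT.1).1 hT.2⟩
  · intro T hT T' hT' h
    rw [Finset.mem_filter, Finset.mem_powerset] at hT hT'
    refine Finset.Subset.antisymm ?_ ?_
    · rw [← g1_sub hg hT.1 hT'.1, h]
    · rw [← g1_sub hg hT'.1 hT.1, h]
  · intro S hS
    rw [Finset.mem_filter, Finset.mem_powerset] at hS
    obtain ⟨T, hT, rfl⟩ := Finset.subset_image_iff.1 hS.1
    have hT' : T ⊆ V0 := Finset.coe_subset.1 hT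
    refine ⟨T, ?_, rfl⟩
    rw [Finset.mem_filter, Finset.mem_powerset]
    exact ⟨hT', (hP T hT').2 hS.2⟩
  · intro T _
    rfl

private theorem g1_yp {V0 : Finset β} {g : β → α} (hg : Set.InjOn g V0) (x : Finset α → R)
    {S : Finset β} (hS : S ⊆ V0) :
    yp V0 (fun T => x (T.image g)) S = yp (V0.image g) x (S.image g) := by
  unfold yp
  exact g1_sum hg _ _ (fun T hT => (g1_ssub hg hS hT).symm) x

private theorem g1_zz {V0 : Finset β} {g : β → α} (hg : Set.InjOn g V0) (x : Finset α → R)
    {S : Finset β} (hS : S ⊆ V0) :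
    zz V0 (fun T => x (T.image g)) S = zz (V0.image g) x (S.image g) := by
  unfold zz
  rw [g1_card hg hS, g1_yp hg x hS]

private theorem g1_pw {V0 : Finset β} {g : β → α} (hg : Set.InjOn g V0) (x : Finset α → R)
    (O : Finset α → Bool) (k : ℕ) :
    pw V0 (fun T => O (T.image g)) (fun T => x (T.image g)) k = pw (V0.image g) O x k := by
  unfold pw
  rw [← g1_sum hg (fun S => S.Nonempty ∧ O (S.image g) = true)
    (fun S => S.Nonempty ∧ O S = true) (fun T _ => by rw [Finset.image_nonempty])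
    (fun S => yp (V0.image g) x S ^ k - zz (V0.image g) x S ^ k)]
  refine Finset.sum_congr rfl fun S hS => ?_
  rw [Finset.mem_filter, Finset.mem_powerset] at hS
  rw [g1_yp hg x hS.1, g1_zz hg x hS.1]

end g1

theorem p_relabel : S_relabel := by
  intro α β _ _ R _ _ m V0 g hg x O hS
  refine ⟨⟨?_, ?_⟩, ?_⟩
  · intro S T hSV hTV hS2 hT2 hC
    refine hS.cross (S.image g) (T.image g) (Finset.image_subset_image hSV)
      (Finset.image_subset_image hTV) (by rwa [g1_card hg hSV]) (by rwa [g1_card hg hTV]) ?_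
    rintro (h | h | h)
    · exact hC (Or.inl ((g1_sub hg hSV hTV).1 h))
    · exact hC (Or.inr (Or.inl ((g1_sub hg hTV hSV).1 h)))
    · refine hC (Or.inr (Or.inr ?_))
      rw [Finset.disjoint_left] at h ⊢
      exact fun a ha ha' => h (Finset.mem_image_of_mem g ha) (Finset.mem_image_of_mem g ha')
  · intro a ha b hb hab
    have h1 := hS.lin (g a) (Finset.mem_image_of_mem g ha) (g b) (Finset.mem_image_of_mem g hb)
      (fun h => hab (hg (Finset.mem_coe.2 ha) (Finset.mem_coe.2 hb) h))
    rw [← h1]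
    congr 1
    exact g1_sum hg _ _ (fun T hT => by rw [g1_mem hg hT ha, g1_mem hg hT hb]) x
  · intro b r i
    unfold lamP lamV
    have h2 : (fun k => b k • pw V0 (fun T => O (T.image g)) (fun T => x (T.image g)) k) =
        fun k => b k • pw (V0.image g) O x k := by
      funext k
      rw [g1_pw hg x O k]
    rw [h2]

end Pool.Agent.HH
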