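import Pool.Agent.Lib.MP_371b18_ag.Stm2

/-!
(G2) Universal constants. (helper30)
-/

open Finset

namespace Pool.Agent.HH

section

variable {α : Type} [DecidableEq α] {R R' : Type} [CommRing R] [Algebra ℚ R] [CommRing R']
  [Algebra ℚ R']

theorem g2_yp_map (f : R →ₐ[ℚ] R') (V : Finset α) (x : Finset α → R) (S : Finset α) :
    f (yp V x S) = yp V (fun T => f (x T)) S := by
  unfold yp
  rw [map_sum]

theorem g2_zz_map (f : R →ₐ[ℚ] R') (V : Finset α) (x : Finset α → R) (S : Finset α) :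
    f (zz V x S) = zz V (fun T => f (x T)) S := by
  unfold zz
  split_ifs
  · rw [map_add, g2_yp_map]
  · rw [map_zero]

theorem g2_pw_map (f : R →ₐ[ℚ] R') (V : Finset α) (O : Finset α → Bool) (x : Finset α → R)
    (k : ℕ) : f (pw V O x k) = pw V O (fun T => f (x T)) k := by
  unfold pw
  rw [map_sum]
  refine Finset.sum_congr rfl fun S _ => ?_
  rw [map_sub, map_pow, map_pow, g2_yp_map, g2_zz_map]

theorem g2_lamP_map (h1 : S_newton_map) (f : R →ₐ[ℚ] R') (V : Finset α) (O : Finset α → Bool)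
    (b : ℕ → ℚ) (x : Finset α → R) {r : ℕ} (i : Fin r → ℕ) :
    f (lamP V O b x i) = lamP V O b (fun T => f (x T)) i := by
  unfold lamP
  rw [map_prod]
  refine Finset.prod_congr rfl fun a _ => ?_
  unfold lamV
  rw [h1 R R' f]
  congr 1
  funext k
  rw [map_smul, g2_pw_map]

theorem g2_pw_congr (V : Finset α) (O O' : Finset α → Bool) (x : Finset α → R) (k : ℕ)
    (h : ∀ T, T ⊆ V → O T = O' T) : pw V O x k = pw V O' x k := by
  unfold pw
  rw [Finset.sum_filter, Finset.sum_filter]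
  refine Finset.sum_congr rfl fun S hS => ?_
  rw [h S (Finset.mem_powerset.1 hS)]

theorem g2_lamP_congr (V : Finset α) (O O' : Finset α → Bool) (b : ℕ → ℚ) (x : Finset α → R)
    {r : ℕ} (i : Fin r → ℕ) (h : ∀ T, T ⊆ V → O T = O' T) :
    lamP V O b x i = lamP V O' b x i := by
  unfold lamP lamV
  refine Finset.prod_congr rfl fun a _ => ?_
  congr 1
  funext k
  rw [g2_pw_congr V O O' x k h]

end

/-- the relations -/
noncomputable def g2_I (V : Finset ℕ) : Ideal (MvPolynomial (Finset ℕ) ℚ) :=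
  Ideal.span ({p | ∃ S T, S ⊆ V ∧ T ⊆ V ∧ 2 ≤ S.card ∧ 2 ≤ T.card ∧ ¬ Compat S T ∧
      p = MvPolynomial.X S * MvPolynomial.X T} ∪
    {p | ∃ a ∈ V, ∃ b ∈ V, a ≠ b ∧
      p = ∑ S ∈ V.powerset with (a ∈ S ∧ b ∈ S), MvPolynomial.X S})

theorem g2_sys (V : Finset ℕ) : Sys (1 : MvPolynomial (Finset ℕ) ℚ ⧸ g2_I V) V
    (fun S => Ideal.Quotient.mkₐ ℚ (g2_I V) (MvPolynomial.X S)) := by
  constructor
  · intro S T hS hT hS2 hT2 h
    rw [one_mul, ← map_mul]
    refine Ideal.Quotient.eq_zero_iff_mem.2 (Ideal.subset_span (Or.inl ?_))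
    exact ⟨S, T, hS, hT, hS2, hT2, h, rfl⟩
  · intro a ha b hb hab
    rw [one_mul, ← map_sum]
    refine Ideal.Quotient.eq_zero_iff_mem.2 (Ideal.subset_span (Or.inr ?_))
    exact ⟨a, ha, b, hb, hab, rfl⟩

theorem g2_kill {R : Type} [CommRing R] [Algebra ℚ R] (m : R) (V : Finset ℕ) (x : Finset ℕ → R)
    (h : Sys m V x) (p : MvPolynomial (Finset ℕ) ℚ) (hp : p ∈ g2_I V) :
    m * MvPolynomial.aeval x p = 0 := by
  unfold g2_I at hp
  refine Submodule.span_induction (p := fun p _ => m * MvPolynomial.aeval x p = 0)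
    ?_ ?_ ?_ ?_ hp
  · rintro q (⟨S, T, hS, hT, hS2, hT2, hc, rfl⟩ | ⟨a, ha, b, hb, hab, rfl⟩)
    · rw [map_mul, MvPolynomial.aeval_X, MvPolynomial.aeval_X]
      exact h.cross S T hS hT hS2 hT2 hc
    · rw [map_sum]
      simp only [MvPolynomial.aeval_X]
      exact h.lin a ha b hb hab
  · rw [map_zero, mul_zero]
  · intro y z _ _ hy hz
    rw [map_add, mul_add, hy, hz, add_zero]
  · intro a y _ hy
    rw [smul_eq_mul, map_mul, mul_left_comm, hy, mul_zero]

theorem p_const (h1 : S_newton_map) (h2 : S_relabel) (h3 : S_span) (h4 : S_lam_mem) :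
    S_const := by
  classical
  intro b r
  -- the universal identity
  have key : ∀ i : Fin r → ℕ, ∃ c : ℚ,
      lamP (range (tot i + 2)) (fun T => decide (Odd T.card)) b
        (MvPolynomial.X : Finset ℕ → MvPolynomial (Finset ℕ) ℚ) i -
        c • (-(MvPolynomial.X (range (tot i + 2)) : MvPolynomial (Finset ℕ) ℚ)) ^ (tot i) ∈
        g2_I (range (tot i + 2)) := by
    intro i
    have hcard : (range (tot i + 2)).card = tot i + 2 := Finset.card_range _
    have hm := h4 ℕ (MvPolynomial (Finset ℕ) ℚ ⧸ g2_I (range (tot i + 2)))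
      (range (tot i + 2))
      (fun S => Ideal.Quotient.mkₐ ℚ (g2_I (range (tot i + 2))) (MvPolynomial.X S))
      (fun T => decide (Odd T.card)) b r i
    obtain ⟨c, hc⟩ := h3 ℕ (MvPolynomial (Finset ℕ) ℚ ⧸ g2_I (range (tot i + 2))) 1
      (range (tot i + 2)) _ (g2_sys _) (by rw [hcard]; omega) _
      (by rw [hcard, Nat.add_sub_cancel]; exact hm)
    refine ⟨c, ?_⟩
    rw [hcard, Nat.add_sub_cancel, one_mul, one_mul, ← g2_lamP_map h1, ← map_neg, ← map_pow,
      ← map_smul, ← sub_eq_zero, ← map_sub] at hc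
    exact Ideal.Quotient.eq_zero_iff_mem.1 hc
  choose c hc using key
  refine ⟨c, ?_⟩
  intro i α _ R _ _ m V x O hV hO hsys
  -- relabelling
  obtain ⟨g, hg1, hg2⟩ : ∃ g : ℕ → α, (range (tot i + 2)).image g = V ∧
      Set.InjOn g (range (tot i + 2)) := by
    have e : Fin (tot i + 2) ≃ V := (Finset.equivFinOfCardEq hV).symm
    have a0 : α := (e 0).1
    refine ⟨fun n => if h : n < tot i + 2 then (e ⟨n, h⟩).1 else a0, ?_, ?_⟩
    · ext a
      rw [Finset.mem_image]
      constructor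
      · rintro ⟨n, hn, rfl⟩
        rw [dif_pos (Finset.mem_range.1 hn)]
        exact (e _).2
      · intro ha
        refine ⟨(e.symm ⟨a, ha⟩).1, Finset.mem_range.2 (e.symm ⟨a, ha⟩).2, ?_⟩
        rw [dif_pos (e.symm ⟨a, ha⟩).2]
        simp
    · intro n hn n' hn' h
      have hn1 : n < tot i + 2 := Finset.mem_range.1 hn
      have hn2 : n' < tot i + 2 := Finset.mem_range.1 hn'
      simp only [dif_pos hn1, dif_pos hn2] at h
      have := e.injective (Subtype.ext h)
      exact congrArg Fin.val this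
  subst hg1
  obtain ⟨hs, hl⟩ := h2 α ℕ R m (range (tot i + 2)) g hg2 x O hsys
  -- parities
  obtain ⟨W, hW1, hW2, hW3⟩ := hO
  have hWV : W = (range (tot i + 2)).image g := Finset.eq_of_subset_of_card_le hW1 hW2.ge
  have hpar : ∀ T, T ⊆ range (tot i + 2) → O (T.image g) = decide (Odd T.card) := by
    intro T hT
    have hTi : T.image g ⊆ (range (tot i + 2)).image g := Finset.image_subset_image hT
    rw [hW3 _ hTi, hWV, Finset.inter_eq_left.2 hTi,
      Finset.card_image_of_injOn (hg2.mono (Finset.coe_subset.2 hT))]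
  rw [← hl b r i, g2_lamP_congr _ _ (fun T => decide (Odd T.card)) b _ i hpar]
  have h5 := g2_kill m _ _ hs _ (hc i)
  rw [map_sub, g2_lamP_map h1, map_smul, map_pow, map_neg, MvPolynomial.aeval_X, mul_sub,
    sub_eq_zero, mul_smul_comm] at h5
  rw [← h5]
  congr 2
  funext T
  rw [MvPolynomial.aeval_X]

end Pool.Agent.HH
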