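import Mathlib
import Pool.Agent.Lib.MP_371b18_ag.Stm

/-! Piece G3: the constant in degree one. -/

open Finset

namespace Pool.Agent.HH

private theorem g3_sum {α : Type} [DecidableEq α] {R : Type} [AddCommMonoid R] {a b c : α}
    (hab : a ≠ b) (hac : a ≠ c) (hbc : b ≠ c) (f : Finset α → R) :
    ∑ T ∈ ({a, b, c} : Finset α).powerset, f T =
      (f ∅ + f {c} + (f {b} + f {b, c})) + (f {a} + f {a, c} + (f {a, b} + f {a, b, c})) := by
  have h1 : a ∉ ({b, c} : Finset α) := by simp [hab, hac]
  have h2 : b ∉ ({c} : Finset α) := by simp [hbc]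
  have h3 : ∀ g : Finset α → R, ∑ T ∈ ({c} : Finset α).powerset, g T = g ∅ + g {c} := by
    intro g
    have h4 : c ∉ (∅ : Finset α) := Finset.notMem_empty c
    have h5 := Finset.sum_powerset_insert h4 g
    rw [insert_empty_eq c, Finset.powerset_empty, Finset.sum_singleton,
      Finset.sum_singleton, insert_empty_eq c] at h5
    exact h5
  rw [Finset.sum_powerset_insert h1, Finset.sum_powerset_insert h2, Finset.sum_powerset_insert h2,
    h3, h3, h3, h3]
  simp only [insert_empty_eq]

private theorem g3_yp {α : Type} [DecidableEq α] {R : Type} [CommRing R] [Algebra ℚ R]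
    {a b c : α} (hab : a ≠ b) (hac : a ≠ c) (hbc : b ≠ c) (x : Finset α → R) :
    yp {a, b, c} x {a} = x {a, b} + x {a, c} + x {a, b, c} ∧
    yp {a, b, c} x {b} = x {a, b} + x {b, c} + x {a, b, c} ∧
    yp {a, b, c} x {c} = x {a, c} + x {b, c} + x {a, b, c} ∧
    yp {a, b, c} x {a, b, c} = 0 := by
  refine ⟨?_, ?_, ?_, ?_⟩ <;> unfold yp <;>
    rw [Finset.sum_filter, g3_sum hab hac hbc]
  · simp [Finset.ssubset_def, Finset.subset_iff, hab, hac, hbc, hab.symm, hac.symm, hbc.symm]
    ring
  · simp [Finset.ssubset_def, Finset.subset_iff, hab, hac, hbc, hab.symm, hac.symm, hbc.symm]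
    ring
  · simp [Finset.ssubset_def, Finset.subset_iff, hab, hac, hbc, hab.symm, hac.symm, hbc.symm]
    ring
  · simp [Finset.ssubset_def, Finset.subset_iff, hab, hac, hbc, hab.symm, hac.symm, hbc.symm]

private theorem g3_pw {α : Type} [DecidableEq α] {R : Type} [CommRing R] [Algebra ℚ R]
    {a b c : α} (hab : a ≠ b) (hac : a ≠ c) (hbc : b ≠ c) (O : Finset α → Bool)
    (hO : ∀ T ⊆ ({a, b, c} : Finset α), O T = decide (Odd (T ∩ {a, b, c}).card))
    (x : Finset α → R) :
    pw {a, b, c} O x 1 = 2 * (x {a, b} + x {a, c} + x {b, c}) + 2 * x {a, b, c} := by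
  obtain ⟨ha, hb, hc, hv⟩ := g3_yp hab hac hbc x
  have c3 : ({a, b, c} : Finset α).card = 3 := Finset.card_eq_three.2 ⟨a, b, c, hab, hac, hbc, rfl⟩
  have cab : ({a, b} : Finset α).card = 2 := Finset.card_pair hab
  have cac : ({a, c} : Finset α).card = 2 := Finset.card_pair hac
  have cbc : ({b, c} : Finset α).card = 2 := Finset.card_pair hbc
  have hO' : ∀ T ⊆ ({a, b, c} : Finset α), O T = decide (Odd T.card) := fun T hT => by
    rw [hO T hT, Finset.inter_eq_left.2 hT]
  have o1 : O {a} = true := by rw [hO' _ (by simp)]; simp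
  have o2 : O {b} = true := by rw [hO' _ (by simp)]; simp
  have o3 : O {c} = true := by rw [hO' _ (by simp)]; simp
  have oab : O {a, b} = false := by
    rw [hO' _ (by intro t; simp only [mem_insert, mem_singleton]; tauto), cab]; decide
  have oac : O {a, c} = false := by
    rw [hO' _ (by intro t; simp only [mem_insert, mem_singleton]; tauto), cac]; decide
  have obc : O {b, c} = false := by
    rw [hO' _ (by intro t; simp only [mem_insert, mem_singleton]; tauto), cbc]; decide
  have oabc : O {a, b, c} = true := by rw [hO' _ (Finset.Subset.refl _), c3]; decide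
  unfold pw
  rw [Finset.sum_filter, g3_sum hab hac hbc]
  simp only [o1, o2, o3, oab, oac, obc, oabc, Finset.not_nonempty_empty, false_and, if_false,
    and_false, Bool.false_eq_true, Finset.singleton_nonempty, Finset.insert_nonempty, and_self,
    if_true, pow_one, ha, hb, hc, hv, zz, c3, Finset.card_singleton]
  norm_num
  ring

private theorem g3_newton_zero {R : Type} [CommRing R] [Algebra ℚ R] (p : ℕ → R) :
    newton p 0 = 1 := by
  unfold newton; rfl

private theorem g3_newton_one {R : Type} [CommRing R] [Algebra ℚ R] (p : ℕ → R) :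
    newton p 1 = p 1 := by
  unfold newton
  simp [g3_newton_zero]

theorem p_one : S_one := by
  intro b r i hi α _ R _ _ m V x O hV hpar hS
  obtain ⟨W, hWV, hW3, hO⟩ := hpar
  have hWV' : W = V := Finset.eq_of_subset_of_card_le hWV (by omega)
  subst hWV'
  obtain ⟨u, v, w, huv, huw, hvw, rfl⟩ := Finset.card_eq_three.1 hV
  -- exactly one index is nonzero
  have h1 : ∃ a, i a = 1 ∧ ∀ a', a' ≠ a → i a' = 0 := by
    have h2 : ∃ a, i a ≠ 0 := by
      by_contra hcon
      push Not at hcon
      unfold tot at hi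
      rw [Finset.sum_eq_zero fun a _ => hcon a] at hi
      omega
    obtain ⟨a, ha⟩ := h2
    unfold tot at hi
    rw [← Finset.add_sum_erase _ _ (Finset.mem_univ a)] at hi
    refine ⟨a, by omega, fun a' ha' => ?_⟩
    have h3 : ∑ t ∈ univ.erase a, i t = 0 := by omega
    exact (Finset.sum_eq_zero_iff.1 h3) a' (Finset.mem_erase.2 ⟨ha', Finset.mem_univ _⟩)
  obtain ⟨a, ha, ha'⟩ := h1
  have h4 : lamP {u, v, w} O b x i = b 1 • pw {u, v, w} O x 1 := by
    unfold lamP
    rw [Finset.prod_eq_single_of_mem a (Finset.mem_univ a)]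
    · unfold lamV
      rw [ha, g3_newton_one]
    · intro a' _ hne
      unfold lamV
      rw [ha' a' hne, g3_newton_zero]
  have e1 := hS.lin u (by simp) v (by simp) huv
  have e2 := hS.lin u (by simp) w (by simp) huw
  have e3 := hS.lin v (by simp) w (by simp) hvw
  rw [Finset.sum_filter, g3_sum huv huw hvw] at e1 e2 e3
  simp [huv, huw, hvw, huv.symm, huw.symm, hvw.symm] at e1 e2 e3
  rw [h4, g3_pw huv huw hvw O hO x]
  have h5 : m * (2 * (x {u, v} + x {u, w} + x {v, w}) + 2 * x {u, v, w}) =
      (4 : ℚ) • (m * (-x {u, v, w})) := by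
    rw [show (4 : ℚ) • (m * (-x {u, v, w})) = 4 * (m * (-x {u, v, w})) by
      rw [Algebra.smul_def]; congr 1; exact map_ofNat _ 4]
    linear_combination 2 * e1 + 2 * e2 + 2 * e3
  rw [mul_smul_comm, h5, smul_smul, mul_comm (b 1)]

end Pool.Agent.HH
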