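import Pool.Agent.Lib.MP_371b18_ag.Stm

open Finset

namespace Pool.Agent.HH

private theorem j1_tot {r : ℕ} {i : Fin r → ℕ} {w : Fin r → ℕ × ℕ} (hw : w ∈ spl i) :
    tot (fun a => (w a).1) + tot (fun a => (w a).2) = tot i := by
  unfold tot
  rw [← Finset.sum_add_distrib]
  refine Finset.sum_congr rfl fun a _ => ?_
  unfold spl at hw
  rw [Fintype.mem_piFinset] at hw
  exact mem_antidiagonal.1 (hw a)

private theorem j1_zero {r : ℕ} (c : (Fin r → ℕ) → ℚ) {N : ℕ} (hN : N ≤ 1) {i : Fin r → ℕ} :
    aN c N i = if tot i = 0 then 1 else 0 := by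
  have h : N = 0 ∨ N = 1 := by omega
  rcases h with rfl | rfl
  · rw [aN]
  · rw [aN]

private theorem j1_inner {r : ℕ} (c : (Fin r → ℕ) → ℚ) (N k : ℕ) (hk : k < N) (i : Fin r → ℕ)
    (hi : N ≤ tot i) (hne : k + 1 < tot i)
    (ih : ∀ M < N + 2, ∀ j : Fin r → ℕ, 1 ≤ tot j → M ≤ tot j + 1 → aN c M j = 0) :
    ∑ w ∈ (spl i).filter (fun w => tot (fun a => (w a).1) = k + 1),
        c (fun a => (w a).1) *
          aN c (if Even k then N - k else N - (k + 1)) (fun a => (w a).2) = 0 := by
  refine Finset.sum_eq_zero fun w hw => ?_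
  rw [mem_filter] at hw
  have h1 := j1_tot hw.1
  have h2 := hw.2
  rw [ih (if Even k then N - k else N - (k + 1)) (by split_ifs <;> omega) _ (by omega)
    (by split_ifs <;> omega), mul_zero]

theorem p_dim : S_dim := by
  intro r c N
  induction N using Nat.strong_induction_on with
  | _ N ih =>
    intro i hi hN
    by_cases h1 : N ≤ 1
    · rw [j1_zero c h1, if_neg (by omega)]
    · obtain ⟨M, rfl⟩ : ∃ M, N = M + 2 := ⟨N - 2, by omega⟩
      rw [aN, ih M (by omega) i hi (by omega), zero_add]
      refine Finset.sum_eq_zero fun k _ => ?_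
      rw [j1_inner c M k k.2 i (by omega) (by omega) ih, mul_zero]

private theorem j1_zero_of_tot {r : ℕ} {i : Fin r → ℕ} (h : tot i = 0) (a : Fin r) : i a = 0 := by
  unfold tot at h
  exact (Finset.sum_eq_zero_iff.1 h) a (mem_univ a)

theorem p_topc (h : S_dim) : S_topc := by
  intro r c i hi
  have hNe : ∃ M, tot i = M + 1 := ⟨tot i - 1, by omega⟩
  obtain ⟨M, hM⟩ := hNe
  rw [hM, aN, h r c (M + 1) i hi (by omega), zero_add, Fin.sum_univ_castSucc]
  rw [Finset.sum_eq_zero, zero_add]
  · rw [Fin.val_last]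
    have hone : aN c (if Even M then M + 1 - M else M + 1 - (M + 1)) (fun _ : Fin r => 0) = 1 := by
      rw [j1_zero c (by split_ifs <;> omega)]
      simp [tot]
    rw [Finset.sum_eq_single (fun a => (i a, 0))]
    · rw [hone, Nat.choose_self]
      simp
    · intro w hw hne
      exfalso
      rw [mem_filter] at hw
      have h1 := j1_tot hw.1
      have h2 := hw.2
      have h3 : tot (fun a => (w a).2) = 0 := by omega
      apply hne
      funext a
      have h4 : (w a).2 = 0 := j1_zero_of_tot h3 a
      have h5 := hw.1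
      unfold spl at h5
      rw [Fintype.mem_piFinset] at h5
      have h6 := mem_antidiagonal.1 (h5 a)
      apply Prod.ext
      · change (w a).1 = i a
        omega
      · exact h4
    · intro hw
      exfalso
      apply hw
      rw [mem_filter]
      refine ⟨?_, hM⟩
      unfold spl
      rw [Fintype.mem_piFinset]
      intro a
      exact mem_antidiagonal.2 (by simp)
  · intro k _
    have hk : ((Fin.castSucc k : Fin (M + 1)) : ℕ) < M := by
      rw [Fin.val_castSucc]; exact k.2
    rw [j1_inner c (M + 1) (Fin.castSucc k : Fin (M + 1)) (by omega) i (by omega) (by omega)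
      (fun N' _ j hj hj' => h r c N' j hj hj'), mul_zero]

end Pool.Agent.HH
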