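import Pool.Agent.Lib.MP_371b18_ag.Stm

set_option autoImplicit false

/-!
String equation (J3) for MP_371b18_ag. (helper8)
-/

open Finset

namespace Pool.Agent.HH

section

variable {α : Type} [DecidableEq α] {R : Type} [CommRing R] [Algebra ℚ R]

/-- `m ψ D = 0` -/
theorem j3_psiD {m : R} {V : Finset α} {x : Finset α → R} (h : Sys m V x) (hV : 3 ≤ V.card) {u : α}
    (hu : u ∈ V) : m * (x V * x (V.erase u)) = 0 := by
  have hc : (V.erase u).card + 1 = V.card := Finset.card_erase_add_one hu
  have hne : (V.erase u).Nonempty := Finset.card_pos.1 (by omega)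
  obtain ⟨a, ha⟩ := hne
  have hau : a ≠ u := Finset.ne_of_mem_erase ha
  have haV : a ∈ V := Finset.mem_of_mem_erase ha
  have hlin := h.lin a haV u hu hau
  have hmul : m * (∑ S ∈ V.powerset with (a ∈ S ∧ u ∈ S), x S) * x (V.erase u) = 0 := by
    rw [hlin, zero_mul]
  rw [mul_assoc, Finset.sum_mul, Finset.mul_sum] at hmul
  rw [Finset.sum_eq_single V] at hmul
  · exact hmul
  · intro S hS hSV
    rw [Finset.mem_filter, Finset.mem_powerset] at hS
    obtain ⟨hSsub, haS, huS⟩ := hS
    refine h.cross S (V.erase u) hSsub (Finset.erase_subset _ _) ?_ (by omega) ?_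
    · exact Finset.one_lt_card.2 ⟨a, haS, u, huS, hau⟩
    · rintro (h1 | h1 | h1)
      · exact Finset.notMem_erase u V (h1 huS)
      · apply hSV
        apply Finset.Subset.antisymm hSsub
        intro b hb
        by_cases hbu : b = u
        · rw [hbu]; exact huS
        · exact h1 (Finset.mem_erase.2 ⟨hbu, hb⟩)
      · exact (Finset.disjoint_left.1 h1 haS) ha
  · intro hn
    exact absurd (Finset.mem_filter.2 ⟨Finset.mem_powerset.2 (Finset.Subset.refl V), haV, hu⟩) hn

/-- `m ψ^(f+1) = m (π^(f+1) + D π^f)` -/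
theorem j3_pow {m ps pi D : R} (h1 : ps = pi + D) (h2 : m * (ps * D) = 0) (f : ℕ) :
    m * ps ^ (f + 1) = m * (pi ^ (f + 1) + D * pi ^ f) := by
  induction f with
  | zero => simp [h1]
  | succ f ih =>
    calc m * ps ^ (f + 1 + 1) = (m * ps ^ (f + 1)) * ps := by ring
      _ = (m * (pi ^ (f + 1) + D * pi ^ f)) * ps := by rw [ih]
      _ = m * (ps * pi ^ (f + 1)) + (m * (ps * D)) * pi ^ f := by ring
      _ = m * (ps * pi ^ (f + 1)) := by rw [h2, zero_mul, add_zero]
      _ = m * ((pi + D) * pi ^ (f + 1)) := by rw [h1]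
      _ = m * (pi ^ (f + 1 + 1) + D * pi ^ (f + 1)) := by ring

end

theorem p_string (h1 : S_forget_sys) (h2 : S_top) : S_string := by
  intro α _ R _ _ m V x h hV u hu e d he hed q hq
  have hc : (V.erase u).card + 1 = V.card := Finset.card_erase_add_one hu
  obtain ⟨f, rfl⟩ : ∃ f, e = f + 1 := ⟨e - 1, by omega⟩
  have hS := h1 α R m V x h u hu
  have hX : forx x u (V.erase u) = x (V.erase u) + x V := by
    unfold forx
    rw [Finset.insert_erase hu]
  set pi : R := -(forx x u (V.erase u)) with hpi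
  have hps : -x V = pi + x (V.erase u) := by rw [hpi, hX]; ring
  have hpD : m * (-x V * x (V.erase u)) = 0 := by
    have := j3_psiD h hV hu
    linear_combination -this
  have hpow := j3_pow hps hpD f
  have hpimem : pi ∈ H1 (V.erase u) (forx x u) := by
    rw [hpi]
    refine Submodule.neg_mem _ (Submodule.subset_span ⟨V.erase u, Finset.Subset.refl _, by omega, rfl⟩)
  have hmem : pi ^ (f + 1) * q ∈ (H1 (V.erase u) (forx x u)) ^ (f + 1 + d) := by
    rw [pow_add]
    exact Submodule.mul_mem_mul (Submodule.pow_mem_pow _ hpimem _) hq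
  have hz : m * (pi ^ (f + 1) * q) = 0 :=
    h2 α R m (V.erase u) (forx x u) hS (by omega) (f + 1 + d) (by omega) _ hmem
  calc m * ((-x V) ^ (f + 1) * q) = (m * (-x V) ^ (f + 1)) * q := by ring
    _ = (m * (pi ^ (f + 1) + x (V.erase u) * pi ^ f)) * q := by rw [hpow]
    _ = m * (pi ^ (f + 1) * q) + x (V.erase u) * (m * (pi ^ f * q)) := by ring
    _ = x (V.erase u) * (m * (pi ^ (f + 1 - 1) * q)) := by rw [hz, zero_add, Nat.add_sub_cancel]

end Pool.Agent.HH
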