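import Pool.Agent.Lib.MP_371b18_ag.Stm

/-!
J4: topological recursion and splitting. (helper45)
-/

open Finset

namespace Pool.Agent.HH

section

variable {α : Type} [DecidableEq α] {R : Type} [CommRing R] [Algebra ℚ R]

theorem j4_tot {r : ℕ} {i : Fin r → ℕ} {w : Fin r → ℕ × ℕ} (hw : w ∈ spl i) :
    tot (fun t => (w t).1) + tot (fun t => (w t).2) = tot i := by
  unfold spl at hw
  rw [Fintype.mem_piFinset] at hw
  unfold tot
  rw [← Finset.sum_add_distrib]
  apply Finset.sum_congr rfl
  intro t _
  exact mem_antidiagonal.1 (hw t)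

theorem j4_outV_card {V S : Finset α} {s : α} (hSV : S ⊆ V) (hs : s ∈ S) :
    (outV V S s).card + S.card = V.card + 1 := by
  unfold outV
  rw [Finset.card_insert_of_notMem (fun h => (mem_sdiff.1 h).2 hs)]
  have := Finset.card_sdiff_add_card_eq_card hSV
  omega

theorem j4_outS_outV {V S : Finset α} {s : α} (hSV : S ⊆ V) (hs : s ∈ S) :
    outS S s (outV V S s) = V := by
  unfold outS outV
  rw [if_pos (Finset.mem_insert_self _ _)]
  ext c
  rw [mem_union, mem_insert, mem_sdiff]
  constructor
  · rintro ((h | h) | h)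
    · rw [h]; exact hSV hs
    · exact h.1
    · exact hSV h
  · intro h
    by_cases h2 : c ∈ S
    · exact Or.inr h2
    · exact Or.inl (Or.inr ⟨h, h2⟩)

end

theorem p_trr (h1 : S_sys_in) (h2 : S_sys_out) (h3 : S_lam_split) (h4 : S_top)
    (h5 : S_lam_mem) : S_trr := by
  intro α _ R _ _ m V x hsys hV a ha b hb hab O β r i e he hdim
  -- the relation
  have hrel : m * (-x V) = ∑ S ∈ V.powerset with (a ∈ S ∧ b ∈ S ∧ S ≠ V), m * x S := by
    have hl := hsys.lin a ha b hb hab
    have hset : V.powerset.filter (fun S => a ∈ S ∧ b ∈ S) =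
        insert V (V.powerset.filter (fun S => a ∈ S ∧ b ∈ S ∧ S ≠ V)) := by
      ext S
      rw [mem_insert, mem_filter, mem_filter, mem_powerset]
      constructor
      · rintro ⟨g1, g2, g3⟩
        by_cases h : S = V
        · exact Or.inl h
        · exact Or.inr ⟨g1, g2, g3, h⟩
      · rintro (h | ⟨g1, g2, g3, _⟩)
        · rw [h]; exact ⟨Finset.Subset.refl _, ha, hb⟩
        · exact ⟨g1, g2, g3⟩
    rw [hset, Finset.sum_insert (by
      rw [mem_filter]
      rintro ⟨_, _, _, h⟩
      exact h rfl), mul_add, Finset.mul_sum] at hl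
    rw [mul_neg]
    exact (eq_neg_of_add_eq_zero_right hl).symm
  have he1 : e = (e - 1) + 1 := by omega
  have hstep : m * ((-x V) ^ e * lamP V O β x i) =
      (m * (-x V)) * ((-x V) ^ (e - 1) * lamP V O β x i) := by
    conv_lhs => rw [he1, pow_succ]
    ring
  rw [hstep, hrel, Finset.sum_mul]
  apply Finset.sum_congr rfl
  intro S hS
  rw [mem_filter, mem_powerset] at hS
  obtain ⟨hSV, haS, hbS, hSne⟩ := hS
  have hSs : S ⊂ V := Finset.ssubset_iff_subset_ne.2 ⟨hSV, hSne⟩
  have hS2 : 2 ≤ S.card := by
    have : ({a, b} : Finset α) ⊆ S := by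
      intro c hc
      rw [mem_insert, mem_singleton] at hc
      rcases hc with h | h
      · rw [h]; exact haS
      · rw [h]; exact hbS
    have h6 := Finset.card_le_card this
    rw [Finset.card_pair hab] at h6
    exact h6
  have hsplit := h3 α R m V x hsys S hSs hS2 a haS O β r i
  have e1 : m * x S * ((-x V) ^ (e - 1) * lamP V O β x i) =
      (-x V) ^ (e - 1) * (m * x S * lamP V O β x i) := by ring
  rw [e1, hsplit]
  have e2 : (-x V) ^ (e - 1) * (m * x S * ∑ w ∈ spl i, lamP S O β (inx V x S) (fun a => (w a).1) *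
      lamP (outV V S a) (outO O S a) β (outx x S a) (fun a => (w a).2)) =
      ∑ w ∈ spl i, m * x S * (lamP S O β (inx V x S) (fun t => (w t).1) *
        ((-x V) ^ (e - 1) * lamP (outV V S a) (outO O S a) β (outx x S a) (fun t => (w t).2))) := by
    rw [Finset.mul_sum, Finset.mul_sum]
    apply Finset.sum_congr rfl
    intro w _
    ring
  rw [e2]
  symm
  apply Finset.sum_subset (Finset.filter_subset _ _)
  intro w hw hw'
  have htot := j4_tot hw
  have hne : tot (fun t => (w t).1) + 2 ≠ S.card := by
    intro h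
    exact hw' (mem_filter.2 ⟨hw, h⟩)
  have hcard := j4_outV_card hSV haS
  have hSlt := Finset.card_lt_card hSs
  rcases lt_or_gt_of_ne hne with hlt | hgt
  · -- the outer side has too large degree
    have hsys2 := h2 α R m V x hsys S hSs hS2 a haS
    have hxV : x V = outx x S a (outV V S a) := by
      unfold outx
      rw [j4_outS_outV hSV haS]
    have hmem1 : (-x V) ∈ H1 (outV V S a) (outx x S a) := by
      apply Submodule.neg_mem
      apply Submodule.subset_span
      refine ⟨outV V S a, Finset.Subset.refl _, by omega, hxV⟩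
    have hmem : (-x V) ^ (e - 1) * lamP (outV V S a) (outO O S a) β (outx x S a) (fun t => (w t).2) ∈
        (H1 (outV V S a) (outx x S a)) ^ ((e - 1) + tot (fun t => (w t).2)) := by
      rw [pow_add]
      exact Submodule.mul_mem_mul (Submodule.pow_mem_pow _ hmem1 _) (h5 α R _ _ _ β r _)
    have h0 := h4 α R (m * x S) (outV V S a) (outx x S a) hsys2 (by omega)
      ((e - 1) + tot (fun t => (w t).2)) (by omega) _ hmem
    calc m * x S * (lamP S O β (inx V x S) (fun t => (w t).1) *
        ((-x V) ^ (e - 1) * lamP (outV V S a) (outO O S a) β (outx x S a) (fun t => (w t).2)))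
        = lamP S O β (inx V x S) (fun t => (w t).1) * (m * x S *
        ((-x V) ^ (e - 1) * lamP (outV V S a) (outO O S a) β (outx x S a) (fun t => (w t).2))) := by ring
      _ = 0 := by rw [h0, mul_zero]
  · -- the inner side has too large degree
    have hsys1 := h1 α R m V x hsys S hSs hS2
    have h0 := h4 α R (m * x S) S (inx V x S) hsys1 hS2 (tot (fun t => (w t).1)) hgt _
      (h5 α R S (inx V x S) O β r (fun t => (w t).1))
    rw [← mul_assoc, h0, zero_mul]

end Pool.Agent.HH
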