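import Pool.Agent.Lib.MP_371b18_ag.Stm

open Finset

namespace Pool.Agent.HH

private lemma j5_spl_tot {r : ℕ} {i : Fin r → ℕ} {w : Fin r → ℕ × ℕ} (hw : w ∈ spl i) :
    tot (fun t => (w t).1) + tot (fun t => (w t).2) = tot i := by
  unfold spl at hw
  rw [Fintype.mem_piFinset] at hw
  unfold tot
  rw [← sum_add_distrib]
  exact sum_congr rfl fun t _ => HasAntidiagonal.mem_antidiagonal.1 (hw t)

private lemma j5_tot_zero {r : ℕ} {i : Fin r → ℕ} (h : tot i = 0) (t : Fin r) : i t = 0 := by
  unfold tot at h
  exact (sum_eq_zero_iff.1 h) t (mem_univ t)

private lemma j5_lamP_one {α : Type} [DecidableEq α] {R : Type} [CommRing R] [Algebra ℚ R]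
    (V : Finset α) (O : Finset α → Bool) (b : ℕ → ℚ) (x : Finset α → R) {r : ℕ}
    {i : Fin r → ℕ} (h : tot i = 0) : lamP V O b x i = 1 := by
  unfold lamP
  refine prod_eq_one fun t _ => ?_
  rw [j5_tot_zero h t]
  unfold lamV
  rw [newton]

private lemma j5_aN_zero {r : ℕ} (c : (Fin r → ℕ) → ℚ) {i : Fin r → ℕ} (h : tot i = 0) :
    ∀ N, aN c N i = 1 := by
  intro N
  induction N using Nat.strong_induction_on with
  | _ N ih =>
    match N with
    | 0 => rw [aN, if_pos h]
    | 1 => rw [aN, if_pos h]
    | N + 2 =>
      rw [aN, ih N (by omega)]
      rw [sum_eq_zero, add_zero]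
      intro k _
      rw [sum_eq_zero, mul_zero]
      intro w hw
      rw [mem_filter] at hw
      have := j5_spl_tot hw.1
      omega

/-- the recursion in a form without `Fin` -/
private lemma j5_aN_succ {r : ℕ} (c : (Fin r → ℕ) → ℚ) (N : ℕ) (i : Fin r → ℕ) :
    aN c (N + 2) i = aN c N i + ∑ k ∈ range N, (N.choose (k + 1) : ℚ) *
      ∑ w ∈ (spl i).filter (fun w => tot (fun a => (w a).1) + 2 = k + 3),
        c (fun a => (w a).1) *
          aN c (if Even k then N - k else N - (k + 1)) (fun a => (w a).2) := by
  rw [aN, ← Fin.sum_univ_eq_sum_range (fun k => (N.choose (k + 1) : ℚ) *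
      ∑ w ∈ (spl i).filter (fun w => tot (fun a => (w a).1) + 2 = k + 3),
        c (fun a => (w a).1) *
          aN c (if Even k then N - k else N - (k + 1)) (fun a => (w a).2)) N]
  congr 1
  refine sum_congr rfl fun k _ => ?_
  congr 1
  refine sum_congr ?_ fun w _ => rfl
  ext w
  simp only [mem_filter]
  constructor <;> rintro ⟨h1, h2⟩ <;> exact ⟨h1, by omega⟩

private lemma j5_outS_sub {α : Type} [DecidableEq α] {V S : Finset α} {s : α} (hS : S ⊆ V)
    {T : Finset α} (hs : s ∈ S) (hT : T ⊆ outV V S s) : outS S s T ⊆ V := by
  unfold outS
  intro t ht
  split_ifs at ht with h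
  · rcases mem_union.1 ht with h1 | h1
    · rcases mem_insert.1 (hT h1) with h2 | h2
      · rw [h2]; exact hS hs
      · exact (mem_sdiff.1 h2).1
    · exact hS h1
  · rcases mem_insert.1 (hT ht) with h2 | h2
    · rw [h2]; exact hS hs
    · exact (mem_sdiff.1 h2).1

private lemma j5_outV_card {α : Type} [DecidableEq α] {V S : Finset α} {s : α} (hS : S ⊆ V)
    (hs : s ∈ S) : (outV V S s).card = V.card - S.card + 1 := by
  unfold outV
  rw [card_insert_of_notMem (fun h => (mem_sdiff.1 h).2 hs), card_sdiff_of_subset hS]

/-- parity of the other side, all leaves twisted -/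
private lemma j5_isPar_out {α : Type} [DecidableEq α] {V S : Finset α} {s : α}
    {O : Finset α → Bool} (hO : ∀ T ⊆ V, O T = decide (Odd T.card)) (hS : S ⊆ V) (hs : s ∈ S) :
    IsPar (outV V S s) (outO O S s)
      (if Odd S.card then V.card - S.card + 1 else V.card - S.card) := by
  have hkey : ∀ T ⊆ outV V S s, s ∈ T → (T ∪ S).card + 1 = T.card + S.card := by
    intro T hT hsT
    have h1 : T ∩ S = {s} := by
      ext t
      rw [mem_inter, mem_singleton]
      constructor
      · rintro ⟨h1, h2⟩
        rcases mem_insert.1 (hT h1) with h3 | h3
        · exact h3
        · exact absurd h2 (mem_sdiff.1 h3).2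
      · rintro rfl
        exact ⟨hsT, hs⟩
    have h2 := card_union_add_card_inter T S
    rw [h1, card_singleton] at h2
    exact h2
  by_cases hodd : Odd S.card
  · rw [if_pos hodd]
    refine ⟨outV V S s, subset_rfl, j5_outV_card hS hs, fun T hT => ?_⟩
    rw [inter_eq_left.2 hT]
    unfold outO
    rw [hO _ (j5_outS_sub hS hs hT)]
    congr 1
    unfold outS
    split_ifs with h
    · have h3 := hkey T hT h
      rw [eq_iff_iff]
      rw [Nat.odd_iff] at hodd ⊢
      rw [Nat.odd_iff]
      omega
    · rfl
  · rw [if_neg hodd]
    refine ⟨V \ S, subset_insert _ _, card_sdiff_of_subset hS, fun T hT => ?_⟩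
    unfold outO
    rw [hO _ (j5_outS_sub hS hs hT)]
    congr 1
    unfold outS
    split_ifs with h
    · have h3 := hkey T hT h
      have h4 : T ∩ (V \ S) = T.erase s := by
        ext t
        rw [mem_inter, mem_erase, mem_sdiff]
        constructor
        · rintro ⟨h5, h6, h7⟩
          exact ⟨fun h8 => h7 (h8 ▸ hs), h5⟩
        · rintro ⟨h5, h6⟩
          rcases mem_insert.1 (hT h6) with h7 | h7
          · exact absurd h7 h5
          · exact ⟨h6, mem_sdiff.1 h7⟩
      rw [h4, card_erase_of_mem h]
      have h5 : 1 ≤ T.card := card_pos.2 ⟨s, h⟩
      rw [eq_iff_iff]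
      rw [Nat.odd_iff] at hodd
      rw [Nat.odd_iff, Nat.odd_iff]
      omega
    · have h4 : T ∩ (V \ S) = T := by
        refine inter_eq_left.2 fun t ht => ?_
        rcases mem_insert.1 (hT ht) with h7 | h7
        · exact absurd (h7 ▸ ht) h
        · exact h7
      rw [h4]

/-- sums over the sets between `{a,b}` and `V`, grouped by size -/
private lemma j5_sum_sets {α : Type} [DecidableEq α] (V : Finset α) (a b : α) (ha : a ∈ V)
    (hb : b ∈ V) (hab : a ≠ b) (F : ℕ → ℚ) (hF : F V.card = 0) :
    ∑ S ∈ V.powerset with (a ∈ S ∧ b ∈ S ∧ S ≠ V), F S.card =
      ∑ j ∈ range (V.card - 2 + 1), ((V.card - 2).choose j : ℚ) * F (j + 2) := by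
  have hab2 : ({a, b} : Finset α) ⊆ V := by
    intro t ht
    rcases mem_insert.1 ht with h | h
    · rw [h]; exact ha
    · rw [mem_singleton.1 h]; exact hb
  have hc : (V \ {a, b}).card = V.card - 2 := by
    rw [card_sdiff_of_subset hab2, card_pair hab]
  have h1 : ∑ S ∈ V.powerset with (a ∈ S ∧ b ∈ S ∧ S ≠ V), F S.card =
      ∑ S ∈ V.powerset with (a ∈ S ∧ b ∈ S), F S.card := by
    refine sum_subset ?_ ?_
    · intro S hS
      rw [mem_filter] at hS ⊢
      exact ⟨hS.1, hS.2.1, hS.2.2.1⟩
    · intro S hS hS'
      rw [mem_filter] at hS hS'
      have : S = V := by
        by_contra h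
        exact hS' ⟨hS.1, hS.2.1, hS.2.2, h⟩
      rw [this, hF]
  rw [h1]
  have h2 : ∑ S ∈ V.powerset with (a ∈ S ∧ b ∈ S), F S.card =
      ∑ T ∈ (V \ {a, b}).powerset, F (T.card + 2) := by
    symm
    refine sum_nbij' (fun T => T ∪ {a, b}) (fun S => S \ {a, b}) ?_ ?_ ?_ ?_ ?_
    · intro T hT
      rw [mem_powerset] at hT
      rw [mem_filter, mem_powerset]
      refine ⟨union_subset (hT.trans sdiff_subset) hab2, ?_, ?_⟩
      · exact mem_union_right _ (mem_insert_self a _)
      · exact mem_union_right _ (mem_insert_of_mem (mem_singleton_self b))
    · intro S hS
      rw [mem_filter, mem_powerset] at hS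
      rw [mem_powerset]
      exact sdiff_subset_sdiff hS.1 subset_rfl
    · intro T hT
      rw [mem_powerset] at hT
      rw [union_sdiff_right]
      exact sdiff_eq_self_of_disjoint (disjoint_of_subset_left hT sdiff_disjoint)
    · intro S hS
      rw [mem_filter] at hS
      refine sdiff_union_of_subset ?_
      intro t ht
      rcases mem_insert.1 ht with h | h
      · rw [h]; exact hS.2.1
      · rw [mem_singleton.1 h]; exact hS.2.2
    · intro T hT
      rw [mem_powerset] at hT
      rw [card_union_of_disjoint (disjoint_of_subset_left hT sdiff_disjoint), card_pair hab]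
  rw [h2, sum_powerset_apply_card (fun n => F (n + 2)), hc]
  exact sum_congr rfl fun j _ => by rw [nsmul_eq_mul]

theorem p_main (h1 : S_sys_in) (h2 : S_sys_out) (h3 : S_forget_sys) (h4 : S_forget_lam)
    (h5 : S_string) (h6 : S_trr) (h7 : S_link) (h8 : S_top) (h9 : S_lam_mem) (h10 : S_dim)
    (h11 : S_topc) : S_main := by
  intro b r c hc
  have key : ∀ (n : ℕ) (α : Type) [DecidableEq α] (R : Type) [CommRing R] [Algebra ℚ R] (m : R)
      (V : Finset α) (x : Finset α → R) (O : Finset α → Bool) (N : ℕ), V.card = n →
      2 ≤ V.card → IsPar V O N → Sys m V x →
      ∀ i : Fin r → ℕ, tot i + 2 ≤ V.card →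
        m * ((-x V) ^ (V.card - 2 - tot i) * lamP V O b x i) =
          aN c N i • (m * (-x V) ^ (V.card - 2)) := by
    intro n
    induction n using Nat.strong_induction_on with
    | _ n ih =>
      intro α _ R _ _ m V x O N hn hV hpar hsys i hi
      obtain ⟨W, hWV, hWN, hO⟩ := hpar
      by_cases hW : ∃ u ∈ V, u ∉ W
      · obtain ⟨u, hu, huW⟩ := hW
        have hV0 : (V.erase u).card = V.card - 1 := card_erase_of_mem hu
        have hNlt : N < V.card := by
          rw [← hWN]
          exact card_lt_card ⟨hWV, fun h => huW (h hu)⟩
        rcases Nat.lt_or_ge V.card 3 with hlt | hge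
        · have hV2 : V.card = 2 := by omega
          have ht : tot i = 0 := by omega
          rw [j5_lamP_one V O b x ht, j5_aN_zero c ht, hV2, ht]
          simp
        · have hOu : O {u} = false := by
            rw [hO {u} (singleton_subset_iff.2 hu), singleton_inter_of_notMem huW]
            simp
          have hOT : ∀ T, T ⊆ V.erase u → T.Nonempty → O (insert u T) = O T := by
            intro T hT _
            rw [hO T (hT.trans (erase_subset _ _)),
              hO _ (insert_subset hu (hT.trans (erase_subset _ _))),
              insert_inter_of_notMem huW]
          have hsys0 := h3 α R m V x hsys u hu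
          have hl := h4 α R m V x hsys u hu O hOu hOT b r i
          have hm0 := h9 α R (V.erase u) (forx x u) O b r i
          have hpar0 : IsPar (V.erase u) O N :=
            ⟨W, fun t ht => mem_erase.2 ⟨fun h => huW (h ▸ ht), hWV ht⟩, hWN,
              fun T hT => hO T (hT.trans (erase_subset _ _))⟩
          rcases Nat.lt_or_ge (tot i + 2) V.card with hlt | hge2
          · -- `e ≥ 1`
            have e1 : m * ((-x V) ^ (V.card - 2 - tot i) * lamP V O b x i) =
                m * ((-x V) ^ (V.card - 2 - tot i) * lamP (V.erase u) O b (forx x u) i) := by
              rw [mul_left_comm, hl, mul_left_comm]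
            rw [e1, h5 α R m V x hsys hge u hu (V.card - 2 - tot i) (tot i) (by omega) (by omega)
              _ hm0]
            have hih := ih (V.erase u).card (by omega) α R m (V.erase u) (forx x u) O N rfl
              (by omega) hpar0 hsys0 i (by omega)
            have e2 : V.card - 2 - tot i - 1 = (V.erase u).card - 2 - tot i := by omega
            rw [e2, hih]
            have h12 := h5 α R m V x hsys hge u hu (V.card - 2) 0 (by omega) (by omega) 1
              (by rw [pow_zero]; exact Submodule.one_le.1 le_rfl)
            rw [mul_one, mul_one] at h12
            have e3 : V.card - 2 - 1 = (V.erase u).card - 2 := by omega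
            rw [h12, e3, mul_smul_comm]
          · -- `e = 0`
            have e0 : V.card - 2 - tot i = 0 := by omega
            rw [e0, pow_zero, one_mul, hl,
              h8 α R m (V.erase u) (forx x u) hsys0 (by omega) (tot i) (by omega) _ hm0,
              h10 r c N i (by omega) (by omega), zero_smul]
      · -- all leaves are twisted
        have hWV' : W = V := subset_antisymm hWV (fun u hu => by
          by_contra h
          exact hW ⟨u, hu, h⟩)
        subst hWV'
        have hO' : ∀ T ⊆ W, O T = decide (Odd T.card) := by
          intro T hT
          rw [hO T hT, inter_eq_left.2 hT]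
        have hparW : ∀ S ⊆ W, IsPar S O S.card := fun S hS =>
          ⟨S, subset_rfl, rfl, fun T hT => by rw [hO' T (hT.trans hS), inter_eq_left.2 hT]⟩
        rcases Nat.lt_or_ge (tot i + 2) W.card with hlt | hge2
        · -- `e ≥ 1`
          obtain ⟨a, ha, a', ha', haa⟩ := one_lt_card.1 (show 1 < W.card by omega)
          rw [h6 α R m W x hsys (by omega) a ha a' ha' haa O b r i (W.card - 2 - tot i)
            (by omega) (by omega)]
          -- the value of one term
          have hterm : ∀ S ∈ W.powerset.filter (fun S => a ∈ S ∧ a' ∈ S ∧ S ≠ W),
              ∑ w ∈ (spl i).filter (fun w => tot (fun t => (w t).1) + 2 = S.card),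
                m * x S * (lamP S O b (inx W x S) (fun t => (w t).1) *
                  ((-x W) ^ (W.card - 2 - tot i - 1) *
                    lamP (outV W S a) (outO O S a) b (outx x S a) (fun t => (w t).2))) =
              (∑ w ∈ (spl i).filter (fun w => tot (fun t => (w t).1) + 2 = S.card),
                (if S.card = 2 then 1 else c (fun t => (w t).1)) *
                  aN c (if Odd S.card then W.card - S.card + 1 else W.card - S.card)
                    (fun t => (w t).2)) • (m * (-x W) ^ (W.card - 2)) := by
            intro S hS
            rw [mem_filter, mem_powerset] at hS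
            obtain ⟨hSW, haS, haS', hSne⟩ := hS
            have hSs : S ⊂ W := lt_of_le_of_ne hSW hSne
            have hS2 : 2 ≤ S.card := one_lt_card.2 ⟨a, haS, a', haS', haa⟩
            have hSc : S.card < W.card := card_lt_card hSs
            have hA1 := h1 α R m W x hsys S hSs hS2
            have hA2 := h2 α R m W x hsys S hSs hS2 a haS
            have hcV := j5_outV_card (s := a) hSW haS
            have hxW : outx x S a (outV W S a) = x W := by
              unfold outx outS
              rw [if_pos (show a ∈ outV W S a from mem_insert_self _ _)]
              congr 1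
              ext t
              rw [mem_union]
              unfold outV
              rw [mem_insert, mem_sdiff]
              constructor
              · rintro ((h | h) | h)
                · rw [h]; exact ha
                · exact h.1
                · exact hSW h
              · intro h
                by_cases h' : t ∈ S
                · exact Or.inr h'
                · exact Or.inl (Or.inr ⟨h, h'⟩)
            rw [sum_smul]
            refine sum_congr rfl fun w hw => ?_
            rw [mem_filter] at hw
            have hwt := j5_spl_tot hw.1
            have hw1 := hw.2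
            have ho := ih (outV W S a).card (by rw [hcV]; omega) α R (m * x S) (outV W S a)
              (outx x S a) (outO O S a)
              (if Odd S.card then W.card - S.card + 1 else W.card - S.card) rfl
              (by rw [hcV]; omega) (j5_isPar_out hO' hSW haS) hA2 (fun t => (w t).2)
              (by rw [hcV]; omega)
            rw [hxW, hcV] at ho
            have e1 : W.card - S.card + 1 - 2 - tot (fun t => (w t).2) =
                W.card - 2 - tot i - 1 := by omega
            have e2 : W.card - S.card + 1 - 2 = W.card - S.card - 1 := by omega
            rw [e1, e2] at ho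
            have hin : m * x S * lamP S O b (inx W x S) (fun t => (w t).1) =
                (if S.card = 2 then 1 else c (fun t => (w t).1)) •
                  (m * x S * (-(x S + yp W x S)) ^ (S.card - 2)) := by
              split_ifs with h
              · rw [j5_lamP_one S O b _ (by omega), h]
                simp
              · have h13 := hc (fun t => (w t).1) α R (m * x S) S (inx W x S) O (by omega)
                  (hparW S hSW) hA1
                rw [h13]
                have e3 : tot (fun t => (w t).1) = S.card - 2 := by omega
                rw [e3]
                unfold inx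
                rw [if_pos rfl]
            have hlk := h7 α R m W x hsys S hSs hS2
            calc m * x S * (lamP S O b (inx W x S) (fun t => (w t).1) *
                  ((-x W) ^ (W.card - 2 - tot i - 1) *
                    lamP (outV W S a) (outO O S a) b (outx x S a) (fun t => (w t).2)))
                = (m * x S * lamP S O b (inx W x S) (fun t => (w t).1)) *
                  ((-x W) ^ (W.card - 2 - tot i - 1) *
                    lamP (outV W S a) (outO O S a) b (outx x S a) (fun t => (w t).2)) := by ring
              _ = (if S.card = 2 then 1 else c (fun t => (w t).1)) •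
                  ((-(x S + yp W x S)) ^ (S.card - 2) * (m * x S *
                  ((-x W) ^ (W.card - 2 - tot i - 1) *
                    lamP (outV W S a) (outO O S a) b (outx x S a) (fun t => (w t).2)))) := by
                  rw [hin, smul_mul_assoc]
                  congr 1
                  ring
              _ = ((if S.card = 2 then 1 else c (fun t => (w t).1)) *
                  aN c (if Odd S.card then W.card - S.card + 1 else W.card - S.card)
                    (fun t => (w t).2)) • (m * (-x W) ^ (W.card - 2)) := by
                  rw [ho, mul_smul_comm, smul_smul, ← hlk]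
                  congr 1
                  ring
          rw [sum_congr rfl hterm, ← sum_smul]
          congr 1
          have hWc : W.card = (W.card - 2) + 2 := by omega
          rw [j5_sum_sets W a a' ha ha' haa (fun s =>
            ∑ w ∈ (spl i).filter (fun w => tot (fun t => (w t).1) + 2 = s),
                (if s = 2 then 1 else c (fun t => (w t).1)) *
                  aN c (if Odd s then W.card - s + 1 else W.card - s) (fun t => (w t).2))]
          · rw [← hWN, sum_range_succ']
            conv_rhs => rw [hWc, j5_aN_succ]
            rw [add_comm]
            congr 1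
            · -- the pair term
              rw [Nat.choose_zero_right, Nat.cast_one, one_mul]
              have e4 : (spl i).filter (fun w => tot (fun t => (w t).1) + 2 = 0 + 2) =
                  {fun t => (0, i t)} := by
                ext w
                rw [mem_filter, mem_singleton]
                constructor
                · rintro ⟨hw, hw2⟩
                  unfold spl at hw
                  rw [Fintype.mem_piFinset] at hw
                  funext t
                  have h13 := HasAntidiagonal.mem_antidiagonal.1 (hw t)
                  have h14 := j5_tot_zero (i := fun t => (w t).1) (by omega) t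
                  ext
                  · exact h14
                  · simp only
                    omega
                · rintro rfl
                  refine ⟨?_, ?_⟩
                  · unfold spl
                    rw [Fintype.mem_piFinset]
                    intro t
                    rw [HasAntidiagonal.mem_antidiagonal]
                    simp
                  · simp [tot]
              rw [e4, sum_singleton]
              have h2o : ¬ Odd 2 := by decide
              simp [h2o]
            · refine sum_congr rfl fun k hk => ?_
              rw [mem_range] at hk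
              congr 1
              have e5 : k + 1 + 2 = k + 3 := by omega
              rw [e5]
              refine sum_congr rfl fun w _ => ?_
              rw [if_neg (by omega)]
              congr 2
              by_cases hk2 : Even k
              · rw [if_pos hk2, if_pos (by
                  rw [Nat.odd_iff]; rw [Nat.even_iff] at hk2; omega)]
                omega
              · rw [if_neg hk2, if_neg (by
                  rw [Nat.odd_iff]; rw [Nat.even_iff] at hk2; omega)]
                omega
          · apply sum_eq_zero
            intro w hw
            rw [mem_filter] at hw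
            have := j5_spl_tot hw.1
            omega
        · -- `e = 0`
          have hWt : W.card = tot i + 2 := by omega
          have e0 : W.card - 2 - tot i = 0 := by omega
          have e1 : W.card - 2 = tot i := by omega
          rw [e0, pow_zero, one_mul, hc i α R m W x O hWt (hparW W subset_rfl) hsys, e1, ← hWN, hWt]
          rcases Nat.eq_zero_or_pos (tot i) with h0 | h0
          · rw [j5_aN_zero c h0]
            have h14 := hc i α R m W x O hWt (hparW W subset_rfl) hsys
            rw [j5_lamP_one W O b x h0, mul_one, h0, pow_zero, mul_one] at h14
            rw [h0, pow_zero, mul_one, ← h14, one_smul]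
          · rw [h11 r c i h0]
  intro α _ R _ _ m V x O N hV hpar hsys i hi
  exact key V.card α R m V x O N rfl hV hpar hsys i hi

end Pool.Agent.HH
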