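import Pool.Agent.Lib.MP_371b18_ag.Stm2

/-!
Push forward along the map which forgets a leaf.
-/

open Finset

namespace Pool.Agent.HH

section k1

variable {α : Type} [DecidableEq α]

/-- minus the sum of the variables of the sets strictly above `T` -/
private noncomputable def k1w (V T : Finset α) : MvPolynomial (Finset α) ℚ :=
  - ∑ U ∈ V.powerset with T ⊂ U, MvPolynomial.X U

/-- the value for exponent one -/
private noncomputable def k1c (V T : Finset α) : MvPolynomial (Finset α) ℚ :=
  if T.card = 1 then 1 else if T = V then -1 else 0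

/-- the factor of the smallest set, for exponent `a + 1` -/
private noncomputable def k1Q (V T : Finset α) : ℕ → MvPolynomial (Finset α) ℚ
  | 0 => k1c V T
  | a + 1 => (if 2 ≤ T.card then - MvPolynomial.X T ^ (a + 1) else 0) + k1w V T * k1Q V T a

/-- the smallest set -/
private def k1T (V : Finset α) (m : Finset α →₀ ℕ) : Finset α :=
  V.filter (fun i => ∀ T ∈ m.support, i ∈ T)

/-- chains of nonempty subsets of `V` -/
private def k1Ch (V : Finset α) (m : Finset α →₀ ℕ) : Prop :=
  (∀ T ∈ m.support, T ⊆ V ∧ T.Nonempty) ∧ ∀ T ∈ m.support, ∀ U ∈ m.support, T ⊆ U ∨ U ⊆ T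

/-- the product of the variables -/
private noncomputable def k1F (m : Finset α →₀ ℕ) : MvPolynomial (Finset α) ℚ :=
  m.prod (fun U k => MvPolynomial.X U ^ k)

open Classical in
/-- the value of the push forward on a monomial -/
private noncomputable def k1v (V : Finset α) (m : Finset α →₀ ℕ) : MvPolynomial (Finset α) ℚ :=
  if k1Ch V m ∧ m ≠ 0 then k1Q V (k1T V m) (m (k1T V m) - 1) * k1F (m.erase (k1T V m)) else 0

omit [DecidableEq α] in
private theorem k1_F_zero : k1F (0 : Finset α →₀ ℕ) = 1 := by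
  unfold k1F
  rw [Finsupp.prod_zero_index]

omit [DecidableEq α] in
private theorem k1_F_add (m n : Finset α →₀ ℕ) : k1F (m + n) = k1F m * k1F n := by
  unfold k1F
  exact Finsupp.prod_add_index' (fun _ => pow_zero _) (fun _ _ _ => pow_add _ _ _)

omit [DecidableEq α] in
private theorem k1_F_single (T : Finset α) (k : ℕ) :
    k1F (Finsupp.single T k) = MvPolynomial.X T ^ k := by
  unfold k1F
  rw [Finsupp.prod_single_index]
  exact pow_zero _

private theorem k1_mem (E : Finset α →₀ ℕ) (T U : Finset α) :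
    U ∈ (E + Finsupp.single T 1).support ↔ U ∈ E.support ∨ U = T := by
  simp only [Finsupp.mem_support_iff, Finsupp.add_apply, Finsupp.single_apply]
  by_cases h : T = U
  · simp [h]
  · have h' : ¬ U = T := fun h' => h h'.symm
    simp [h, h']

private theorem k1_add_ne (E : Finset α →₀ ℕ) (T : Finset α) : E + Finsupp.single T 1 ≠ 0 := by
  intro h
  have h1 : T ∈ (E + Finsupp.single T 1).support := (k1_mem E T T).2 (Or.inr rfl)
  rw [h] at h1
  simp at h1

private theorem k1_Ch_add {V : Finset α} {E : Finset α →₀ ℕ} {T : Finset α} :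
    k1Ch V (E + Finsupp.single T 1) ↔ k1Ch V E ∧ T ⊆ V ∧ T.Nonempty ∧
      ∀ U ∈ E.support, T ⊆ U ∨ U ⊆ T := by
  unfold k1Ch
  simp only [k1_mem]
  constructor
  · rintro ⟨h1, h2⟩
    exact ⟨⟨fun U hU => h1 U (Or.inl hU), fun U hU W hW => h2 U (Or.inl hU) W (Or.inl hW)⟩,
      (h1 T (Or.inr rfl)).1, (h1 T (Or.inr rfl)).2, fun U hU => h2 T (Or.inr rfl) U (Or.inl hU)⟩
  · rintro ⟨⟨h1, h2⟩, h3, h4, h5⟩
    refine ⟨?_, ?_⟩
    · rintro U (hU | rfl)
      · exact h1 U hU
      · exact ⟨h3, h4⟩
    · rintro U (hU | rfl) W (hW | rfl)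
      · exact h2 U hU W hW
      · exact (h5 U hU).symm
      · exact h5 W hW
      · exact Or.inl (Finset.Subset.refl _)

private theorem k1_T_add {V : Finset α} {E : Finset α →₀ ℕ} {T : Finset α} :
    k1T V (E + Finsupp.single T 1) = k1T V E ∩ T := by
  ext i
  unfold k1T
  simp only [mem_filter, mem_inter, k1_mem]
  constructor
  · rintro ⟨h1, h2⟩
    exact ⟨⟨h1, fun U hU => h2 U (Or.inl hU)⟩, h2 T (Or.inr rfl)⟩
  · rintro ⟨⟨h1, h2⟩, h3⟩
    refine ⟨h1, ?_⟩
    rintro U (hU | rfl)
    · exact h2 U hU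
    · exact h3

private theorem k1_T_le {V : Finset α} {E : Finset α →₀ ℕ} {T : Finset α} (hT : T ∈ E.support) :
    k1T V E ⊆ T := fun _ hi => (mem_filter.1 hi).2 T hT

private theorem k1_T_mem {V : Finset α} {E : Finset α →₀ ℕ} (hE : k1Ch V E) (h0 : E ≠ 0) :
    k1T V E ∈ E.support := by
  obtain ⟨U, hU, hm⟩ := Finset.exists_min_image E.support Finset.card
    (Finsupp.support_nonempty_iff.2 h0)
  have h1 : k1T V E = U := by
    apply Finset.Subset.antisymm (k1_T_le hU)
    intro i hi
    refine mem_filter.2 ⟨(hE.1 U hU).1 hi, fun T hT => ?_⟩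
    rcases hE.2 U hU T hT with h | h
    · exact h hi
    · rw [Finset.eq_of_subset_of_card_le h (hm T hT)]
      exact hi
  rw [h1]
  exact hU

private theorem k1_v_not {V : Finset α} {m : Finset α →₀ ℕ} (h : ¬ k1Ch V m) : k1v V m = 0 :=
  if_neg fun h' => h h'.1

private theorem k1_v_eq {V : Finset α} {m : Finset α →₀ ℕ} (h : k1Ch V m) (h0 : m ≠ 0) :
    k1v V m = k1Q V (k1T V m) (m (k1T V m) - 1) * k1F (m.erase (k1T V m)) := if_pos ⟨h, h0⟩

/-- adding a set which is not the smallest one -/
private theorem k1_V1 {V : Finset α} {E : Finset α →₀ ℕ} (hE : k1Ch V E) (h0 : E ≠ 0)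
    {T : Finset α} (hTV : T ⊆ V) (hc : ∀ U ∈ E.support, T ⊆ U ∨ U ⊆ T) (h1 : k1T V E ⊂ T) :
    k1v V (E + Finsupp.single T 1) = MvPolynomial.X T * k1v V E := by
  have hne : T.Nonempty := by
    by_contra h
    rw [Finset.not_nonempty_iff_eq_empty] at h
    rw [h] at h1
    exact Finset.not_ssubset_empty _ h1
  have hT : k1T V (E + Finsupp.single T 1) = k1T V E := by
    rw [k1_T_add]
    exact Finset.inter_eq_left.2 h1.1
  have hne' : T ≠ k1T V E := fun h => by
    rw [← h] at h1
    exact h1.2 (Finset.Subset.refl _)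
  rw [k1_v_eq (k1_Ch_add.2 ⟨hE, hTV, hne, hc⟩) (k1_add_ne _ _), k1_v_eq hE h0, hT,
    Finsupp.add_apply, Finsupp.single_eq_of_ne' hne', add_zero, Finsupp.erase_add,
    Finsupp.erase_single_ne hne'.symm, k1_F_add, k1_F_single, pow_one]
  ring

private theorem k1_Q_succ (V T : Finset α) (a : ℕ) : k1Q V T (a + 1) =
    (if 2 ≤ T.card then - MvPolynomial.X T ^ (a + 1) else 0) + k1w V T * k1Q V T a := rfl

/-- adding the smallest set -/
private theorem k1_V2 {V : Finset α} {E : Finset α →₀ ℕ} (hE : k1Ch V E) (h0 : E ≠ 0) :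
    k1v V (E + Finsupp.single (k1T V E) 1) = k1w V (k1T V E) * k1v V E -
      (if 2 ≤ (k1T V E).card then k1F E else 0) := by
  have hm := k1_T_mem hE h0
  have hT : k1T V (E + Finsupp.single (k1T V E) 1) = k1T V E := by
    rw [k1_T_add]
    exact Finset.inter_self _
  have h1 : E (k1T V E) + 1 - 1 = (E (k1T V E) - 1) + 1 := by
    have := Finsupp.mem_support_iff.1 hm
    omega
  have h2 : k1F E = MvPolynomial.X (k1T V E) ^ (E (k1T V E)) * k1F (E.erase (k1T V E)) :=
    (Finsupp.mul_prod_erase E _ _ hm).symm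
  have h3 : E (k1T V E) - 1 + 1 = E (k1T V E) := by
    have := Finsupp.mem_support_iff.1 hm
    omega
  rw [k1_v_eq (k1_Ch_add.2 ⟨hE, (hE.1 _ hm).1, (hE.1 _ hm).2, fun U hU => Or.inl (k1_T_le hU)⟩)
    (k1_add_ne _ _), k1_v_eq hE h0, hT, Finsupp.add_apply, Finsupp.single_eq_same,
    Finsupp.erase_add, Finsupp.erase_single, add_zero, h1, k1_Q_succ, h3, h2]
  split_ifs <;> ring

/-- adding a smaller set -/
private theorem k1_V3 {V : Finset α} {E : Finset α →₀ ℕ} (hE : k1Ch V E) {T : Finset α}
    (hne : T.Nonempty) (h1 : T ⊆ k1T V E) (h2 : T ∉ E.support) :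
    k1v V (E + Finsupp.single T 1) = k1c V T * k1F E := by
  have hT : k1T V (E + Finsupp.single T 1) = T := by
    rw [k1_T_add]
    exact Finset.inter_eq_right.2 h1
  have h3 : E T = 0 := Finsupp.notMem_support_iff.1 h2
  rw [k1_v_eq (k1_Ch_add.2 ⟨hE, h1.trans (Finset.filter_subset _ _), hne,
    fun U hU => Or.inl (h1.trans (k1_T_le hU))⟩) (k1_add_ne _ _), hT, Finsupp.add_apply,
    Finsupp.single_eq_same, h3, Finsupp.erase_add, Finsupp.erase_single, add_zero,
    Finsupp.erase_of_notMem_support h2]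
  rfl

/-- adding an incomparable set -/
private theorem k1_V0 {V : Finset α} {E : Finset α →₀ ℕ} {T U : Finset α} (hU : U ∈ E.support)
    (h : ¬ (T ⊆ U ∨ U ⊆ T)) : k1v V (E + Finsupp.single T 1) = 0 :=
  k1_v_not fun h' => h ((k1_Ch_add.1 h').2.2.2 U hU)

private theorem k1_Q_dvd {V T : Finset α} (h2 : 2 ≤ T.card) (hV : T ≠ V) (a : ℕ) :
    MvPolynomial.X T ∣ k1Q V T a := by
  induction a with
  | zero =>
    unfold k1Q k1c
    rw [if_neg (by omega), if_neg hV]
    exact dvd_zero _
  | succ a ih =>
    unfold k1Q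
    rw [if_pos h2]
    refine dvd_add ?_ (Dvd.dvd.mul_left ih _)
    rw [dvd_neg]
    exact dvd_pow_self _ (Nat.succ_ne_zero a)

private theorem k1_v_dvd {V : Finset α} {m : Finset α →₀ ℕ} {U : Finset α} (hU : U ∈ m.support)
    (h2 : 2 ≤ U.card) (hV : U ≠ V) : MvPolynomial.X U ∣ k1v V m := by
  by_cases h : k1Ch V m
  · have h0 : m ≠ 0 := by
      rintro rfl
      simp at hU
    rw [k1_v_eq h h0]
    by_cases hT : k1T V m = U
    · rw [hT]
      exact Dvd.dvd.mul_right (k1_Q_dvd h2 hV _) _
    · refine Dvd.dvd.mul_left ?_ _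
      unfold k1F Finsupp.prod
      have h3 : U ∈ (m.erase (k1T V m)).support := by
        rw [Finsupp.support_erase]
        exact Finset.mem_erase.2 ⟨Ne.symm hT, hU⟩
      refine dvd_trans (dvd_pow_self _ ?_) (Finset.dvd_prod_of_mem _ h3)
      exact Finsupp.mem_support_iff.1 h3
  · rw [k1_v_not h]
    exact dvd_zero _

private theorem k1_cross {V S T : Finset α} (hS : S ⊆ V) (hT : T ⊆ V) (hS2 : 2 ≤ S.card)
    (hT2 : 2 ≤ T.card) (h : ¬ Compat S T) :
    (MvPolynomial.X S * MvPolynomial.X T : MvPolynomial (Finset α) ℚ) ∈ RI V :=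
  Ideal.subset_span (RootRel.cross S T hS hT hS2 hT2 h)

private theorem k1_card {S T : Finset α} (h : ¬ Compat S T) : 2 ≤ T.card := by
  by_contra hc
  apply h
  rcases T.eq_empty_or_nonempty with h1 | ⟨t, ht⟩
  · rw [h1]
    exact Or.inr (Or.inl (Finset.empty_subset _))
  · have h1 : T = {t} := by
      refine (Finset.eq_of_subset_of_card_le (Finset.singleton_subset_iff.2 ht) ?_).symm
      rw [Finset.card_singleton]
      omega
    rw [h1]
    by_cases hS : t ∈ S
    · exact Or.inr (Or.inl (Finset.singleton_subset_iff.2 hS))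
    · exact Or.inr (Or.inr (Finset.disjoint_singleton_right.2 hS))

/-- products which vanish -/
private theorem k1_D {V : Finset α} {m : Finset α →₀ ℕ} {S U : Finset α} (hm : k1Ch V m)
    (hU : U ∈ m.support) (hS : S ⊆ V) (h : ¬ Compat S U) :
    MvPolynomial.X S * k1v V m ∈ RI V := by
  have h1 : ¬ Compat U S := fun h' => h (by
    rcases h' with h' | h' | h'
    · exact Or.inr (Or.inl h')
    · exact Or.inl h'
    · exact Or.inr (Or.inr h'.symm))
  have hV : U ≠ V := by
    rintro rfl
    exact h (Or.inl hS)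
  obtain ⟨c, hc⟩ := k1_v_dvd hU (k1_card h) hV
  rw [hc, ← mul_assoc]
  exact Ideal.mul_mem_right _ _ (k1_cross hS (hm.1 U hU).1 (k1_card h1) (k1_card h) h)

private theorem k1_ch_ne {V : Finset α} {m : Finset α →₀ ℕ} (hm : k1Ch V m) {U : Finset α}
    (hU : U ∈ m.support) : (k1T V m).Nonempty := by
  have h0 : m ≠ 0 := by
    rintro rfl
    simp at hU
  exact (hm.1 _ (k1_T_mem hm h0)).2

/-- relation (ii) -/
private theorem k1_ii {V : Finset α} {F : Finset α →₀ ℕ} {S T : Finset α} (hS : S ⊆ V)
    (hT : T ∈ F.support) (h1 : ¬ S ⊆ T) (h2 : ¬ Disjoint S T) :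
    MvPolynomial.X S * k1v V F - k1v V (F + Finsupp.single S 1) ∈ RI V := by
  by_cases hF : k1Ch V F
  · have h0 : F ≠ 0 := by
      rintro rfl
      simp at hT
    by_cases hc : ∀ U ∈ F.support, S ⊆ U ∨ U ⊆ S
    · have h3 : k1T V F ⊂ S := by
        have h4 : T ⊂ S := by
          rcases hc T hT with h | h
          · exact absurd h h1
          · exact ⟨h, h1⟩
        exact lt_of_le_of_lt (k1_T_le hT) h4
      rw [k1_V1 hF h0 hS hc h3, sub_self]
      exact Ideal.zero_mem _
    · push Not at hc
      obtain ⟨U, hU, hc1, hc2⟩ := hc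
      rw [k1_V0 hU (by rintro (h | h); exacts [hc1 h, hc2 h]), sub_zero]
      by_cases hd : Disjoint S U
      · have h5 : ¬ T ⊆ U := fun h => h2 (Finset.disjoint_of_subset_right h hd)
        have h6 : U ⊆ T := (hF.2 T hT U hU).resolve_left h5
        refine k1_D hF hT hS ?_
        rintro (h | h | h)
        · exact h1 h
        · obtain ⟨u, hu⟩ := (hF.1 U hU).2
          exact (Finset.disjoint_left.1 hd (h (h6 hu))) hu
        · exact h2 h
      · refine k1_D hF hU hS ?_
        rintro (h | h | h)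
        · exact hc1 h
        · exact hc2 h
        · exact hd h
  · rw [k1_v_not hF, k1_v_not fun h => hF (k1_Ch_add.1 h).1, mul_zero, sub_zero]
    exact Ideal.zero_mem _

/-- relation (iii) -/
private theorem k1_iii {V : Finset α} {E : Finset α →₀ ℕ} {S T : Finset α} (hS : S ⊆ V)
    (hT : T ⊆ V) (h : ¬ Compat S T) :
    MvPolynomial.X S * MvPolynomial.X T * k1v V E
      - MvPolynomial.X S * k1v V (E + Finsupp.single T 1)
      - MvPolynomial.X T * k1v V (E + Finsupp.single S 1)
      + k1v V (E + Finsupp.single S 1 + Finsupp.single T 1) ∈ RI V := by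
  have h' : ¬ Compat T S := fun h' => h (by
    rcases h' with h' | h' | h'
    · exact Or.inr (Or.inl h')
    · exact Or.inl h'
    · exact Or.inr (Or.inr h'.symm))
  have h1 : MvPolynomial.X S * k1v V (E + Finsupp.single T 1) ∈ RI V := by
    by_cases hc : k1Ch V (E + Finsupp.single T 1)
    · exact k1_D hc ((k1_mem _ _ _).2 (Or.inr rfl)) hS h
    · rw [k1_v_not hc, mul_zero]
      exact Ideal.zero_mem _
  have h2 : MvPolynomial.X T * k1v V (E + Finsupp.single S 1) ∈ RI V := by
    by_cases hc : k1Ch V (E + Finsupp.single S 1)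
    · exact k1_D hc ((k1_mem _ _ _).2 (Or.inr rfl)) hT h'
    · rw [k1_v_not hc, mul_zero]
      exact Ideal.zero_mem _
  have h3 : k1v V (E + Finsupp.single S 1 + Finsupp.single T 1) = 0 := by
    refine k1_V0 ((k1_mem _ _ _).2 (Or.inr rfl)) (U := S) ?_
    rintro (h4 | h4)
    · exact h (Or.inr (Or.inl h4))
    · exact h (Or.inl h4)
  rw [h3, add_zero]
  refine Ideal.sub_mem _ (Ideal.sub_mem _ (Ideal.mul_mem_right _ _ ?_) h1) h2
  exact k1_cross hS hT (k1_card h') (k1_card h) h

/-- adding a set above the smallest one -/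
private theorem k1_above {V : Finset α} {E : Finset α →₀ ℕ} (hE : k1Ch V E) (h0 : E ≠ 0)
    {T : Finset α} (hTV : T ⊆ V) (h1 : k1T V E ⊂ T) :
    k1v V (E + Finsupp.single T 1) - MvPolynomial.X T * k1v V E ∈ RI V := by
  by_cases hc : ∀ U ∈ E.support, T ⊆ U ∨ U ⊆ T
  · rw [k1_V1 hE h0 hTV hc h1, sub_self]
    exact Ideal.zero_mem _
  · push Not at hc
    obtain ⟨U, hU, hc1, hc2⟩ := hc
    rw [k1_V0 hU (by rintro (h | h); exacts [hc1 h, hc2 h]), zero_sub]
    refine (Ideal.neg_mem_iff _).2 (k1_D hE hU hTV ?_)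
    rintro (h | h | h)
    · exact hc1 h
    · exact hc2 h
    · obtain ⟨t, ht⟩ := k1_ch_ne hE hU
      exact Finset.disjoint_left.1 h (h1.1 ht) (k1_T_le hU ht)

/-- relation (iv) -/
private theorem k1_iv {V : Finset α} (hV : 2 ≤ V.card) (E : Finset α →₀ ℕ) {i : α}
    (hi : i ∈ V) : ∑ T ∈ V.powerset with i ∈ T, k1v V (E + Finsupp.single T 1) ∈ RI V := by
  by_cases hE : k1Ch V E
  swap
  · rw [Finset.sum_eq_zero fun T _ => k1_v_not fun h => hE (k1_Ch_add.1 h).1]
    exact Ideal.zero_mem _
  have hci : k1c V ({i} : Finset α) = 1 := by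
    unfold k1c
    rw [if_pos (Finset.card_singleton _)]
  have hcV : k1c V V = -1 := by
    unfold k1c
    rw [if_neg (by omega), if_pos rfl]
  by_cases h0 : E = 0
  · have hT0 : k1T V E = V := by
      rw [h0]
      unfold k1T
      simp
    have h1 : ∀ T ∈ V.powerset.filter (fun T => i ∈ T), k1v V (E + Finsupp.single T 1) =
        (if T = {i} then (1 : MvPolynomial (Finset α) ℚ) else 0) + (if T = V then -1 else 0) := by
      intro T hT
      rw [mem_filter, mem_powerset] at hT
      rw [k1_V3 hE ⟨i, hT.2⟩ (by rw [hT0]; exact hT.1) (by rw [h0]; simp), h0, k1_F_zero, mul_one]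
      by_cases hTi : T = {i}
      · rw [hTi, hci, if_pos rfl, if_neg, add_zero]
        rintro rfl
        simp at hV
      · rw [if_neg hTi, zero_add]
        unfold k1c
        rw [if_neg]
        intro hc
        obtain ⟨j, hj⟩ := Finset.card_eq_one.1 hc
        apply hTi
        rw [hj] at hT ⊢
        rw [Finset.mem_singleton.1 hT.2]
    rw [Finset.sum_congr rfl h1, Finset.sum_add_distrib, Finset.sum_ite_eq', Finset.sum_ite_eq',
      if_pos, if_pos, add_neg_cancel]
    · exact Ideal.zero_mem _
    · exact mem_filter.2 ⟨mem_powerset.2 (Finset.Subset.refl _), hi⟩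
    · exact mem_filter.2 ⟨mem_powerset.2 (Finset.singleton_subset_iff.2 hi),
        Finset.mem_singleton_self _⟩
  have hTm := k1_T_mem hE h0
  have hTV := (hE.1 _ hTm).1
  have hTne := (hE.1 _ hTm).2
  set T1 := k1T V E with hT1
  by_cases hi1 : i ∈ T1
  · set g : Finset α → MvPolynomial (Finset α) ℚ := fun T =>
      (if T = {i} then (if T1 = {i} then 0 else k1F E) else 0) +
      (if T = T1 then (k1w V T1 * k1v V E - (if 2 ≤ T1.card then k1F E else 0)) else 0) +
      (if T1 ⊂ T then MvPolynomial.X T * k1v V E else 0) with hg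
    have h1 : ∀ T ∈ V.powerset.filter (fun T => i ∈ T),
        k1v V (E + Finsupp.single T 1) - g T ∈ RI V := by
      intro T hT
      rw [mem_filter, mem_powerset] at hT
      simp only [hg]
      by_cases hTT : T = T1
      · rw [hTT, if_pos rfl, if_neg (fun h : T1 ⊂ T1 => h.2 (Finset.Subset.refl _)), add_zero, hT1, k1_V2 hE h0, ← hT1]
        by_cases hTi : T1 = {i}
        · rw [if_pos hTi, if_pos hTi, zero_add, sub_self]
          exact Ideal.zero_mem _
        · rw [if_neg hTi, zero_add, sub_self]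
          exact Ideal.zero_mem _
      · rw [if_neg hTT, add_zero]
        by_cases hTi : T = {i}
        · have h2 : T ⊆ T1 := by
            rw [hTi]
            exact Finset.singleton_subset_iff.2 hi1
          have h3 : ¬ T1 ⊆ T := fun h => hTT (Finset.Subset.antisymm h2 h)
          rw [if_neg (fun h : T1 ⊂ T => h3 h.1), add_zero, if_pos hTi,
            if_neg (fun h => hTT (hTi.trans h.symm)), k1_V3 hE ⟨i, hT.2⟩ h2
            (fun h => h3 (k1_T_le h)), hTi, hci, one_mul, sub_self]
          exact Ideal.zero_mem _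
        · rw [if_neg hTi, zero_add]
          by_cases hs : T1 ⊂ T
          · rw [if_pos hs]
            exact k1_above hE h0 hT.1 hs
          · rw [if_neg hs, sub_zero]
            have h3 : ¬ T1 ⊆ T := fun h => hs (lt_of_le_of_ne h (Ne.symm hTT))
            by_cases h2 : T ⊆ T1
            · rw [k1_V3 hE ⟨i, hT.2⟩ h2 (fun h => h3 (k1_T_le h))]
              have h4 : k1c V T = 0 := by
                unfold k1c
                rw [if_neg, if_neg]
                · rintro rfl
                  exact h3 hTV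
                · intro hc
                  obtain ⟨j, hj⟩ := Finset.card_eq_one.1 hc
                  apply hTi
                  rw [hj] at hT ⊢
                  rw [Finset.mem_singleton.1 hT.2]
              rw [h4, zero_mul]
              exact Ideal.zero_mem _
            · rw [k1_V0 hTm (by rintro (h | h); exacts [h2 h, h3 h])]
              exact Ideal.zero_mem _
    have h2 : ∑ T ∈ V.powerset with i ∈ T, g T = 0 := by
      have hm1 : ({i} : Finset α) ∈ V.powerset.filter (fun T => i ∈ T) :=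
        mem_filter.2 ⟨mem_powerset.2 (Finset.singleton_subset_iff.2 hi),
          Finset.mem_singleton_self _⟩
      have hm2 : T1 ∈ V.powerset.filter (fun T => i ∈ T) := mem_filter.2 ⟨mem_powerset.2 hTV, hi1⟩
      simp only [hg]
      rw [Finset.sum_add_distrib, Finset.sum_add_distrib, Finset.sum_ite_eq', Finset.sum_ite_eq',
        if_pos hm1, if_pos hm2, ← Finset.sum_filter, Finset.filter_filter, ← Finset.sum_mul]
      have h3 : ∑ T ∈ V.powerset with (i ∈ T ∧ T1 ⊂ T), MvPolynomial.X T = - k1w V T1 := by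
        unfold k1w
        rw [neg_neg]
        refine Finset.sum_congr ?_ fun _ _ => rfl
        ext T
        simp only [mem_filter]
        exact ⟨fun h => ⟨h.1, h.2.2⟩, fun h => ⟨h.1, h.2.1 hi1, h.2⟩⟩
      have h4 : (if T1 = {i} then 0 else k1F E) = (if 2 ≤ T1.card then k1F E else 0) := by
        by_cases hTi : T1 = {i}
        · rw [if_pos hTi, if_neg]
          rw [hTi]
          simp
        · rw [if_neg hTi, if_pos]
          by_contra hc
          apply hTi
          refine (Finset.eq_of_subset_of_card_le (Finset.singleton_subset_iff.2 hi1) ?_).symm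
          rw [Finset.card_singleton]
          omega
      rw [h3, h4]
      ring
    have h3 : ∑ T ∈ V.powerset with i ∈ T, k1v V (E + Finsupp.single T 1) =
        ∑ T ∈ V.powerset with i ∈ T, (k1v V (E + Finsupp.single T 1) - g T) := by
      rw [Finset.sum_sub_distrib, h2, sub_zero]
    rw [h3]
    exact Ideal.sum_mem _ h1
  · set g : Finset α → MvPolynomial (Finset α) ℚ := fun T =>
      (if T1 ⊂ T then MvPolynomial.X T * k1v V E else 0) with hg
    have h1 : ∀ T ∈ V.powerset.filter (fun T => i ∈ T),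
        k1v V (E + Finsupp.single T 1) - g T ∈ RI V := by
      intro T hT
      rw [mem_filter, mem_powerset] at hT
      simp only [hg]
      by_cases hs : T1 ⊂ T
      · rw [if_pos hs]
        exact k1_above hE h0 hT.1 hs
      · rw [if_neg hs, sub_zero]
        have h2 : ¬ T ⊆ T1 := fun h => hi1 (h hT.2)
        have h3 : ¬ T1 ⊆ T := fun h => hs ⟨h, h2⟩
        rw [k1_V0 hTm (by rintro (h | h); exacts [h2 h, h3 h])]
        exact Ideal.zero_mem _
    have h2 : ∑ T ∈ V.powerset with i ∈ T, g T ∈ RI V := by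
      simp only [hg]
      rw [← Finset.sum_filter, Finset.filter_filter, ← Finset.sum_mul]
      obtain ⟨t, ht⟩ := hTne
      have hti : t ≠ i := fun h => hi1 (h ▸ ht)
      have hrel : (∑ S ∈ V.powerset with (t ∈ S ∧ i ∈ S), MvPolynomial.X S :
          MvPolynomial (Finset α) ℚ) ∈ RI V :=
        Ideal.subset_span (RootRel.lin t i (hTV ht) hi hti)
      by_cases hc : 2 ≤ T1.card
      · have hTV' : T1 ≠ V := by
          intro h
          rw [h] at hi1
          exact hi1 hi
        obtain ⟨c, hcc⟩ := k1_v_dvd hTm hc hTV'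
        rw [hcc, ← mul_assoc]
        refine Ideal.mul_mem_right _ _ ?_
        have h3 : (∑ S ∈ V.powerset with (t ∈ S ∧ i ∈ S), MvPolynomial.X S :
            MvPolynomial (Finset α) ℚ) * MvPolynomial.X T1 =
            (∑ S ∈ V.powerset with (i ∈ S ∧ T1 ⊂ S), MvPolynomial.X S) * MvPolynomial.X T1 +
            ∑ S ∈ V.powerset with ((t ∈ S ∧ i ∈ S) ∧ ¬ T1 ⊂ S),
              MvPolynomial.X S * MvPolynomial.X T1 := by
          rw [← Finset.sum_mul, ← add_mul]
          congr 1
          rw [← Finset.sum_filter_add_sum_filter_not (V.powerset.filter fun S => t ∈ S ∧ i ∈ S)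
            (fun S => T1 ⊂ S), Finset.filter_filter, Finset.filter_filter]
          congr 1
          refine Finset.sum_congr ?_ fun _ _ => rfl
          ext T
          simp only [mem_filter]
          exact ⟨fun h => ⟨h.1, h.2.1.2, h.2.2⟩, fun h => ⟨h.1, ⟨h.2.2.1 ht, h.2.1⟩, h.2.2⟩⟩
        rw [← sub_eq_iff_eq_add] at h3
        rw [← h3]
        refine Ideal.sub_mem _ (Ideal.mul_mem_right _ _ hrel) (Ideal.sum_mem _ fun S hS => ?_)
        rw [mem_filter, mem_powerset] at hS
        obtain ⟨hS1, ⟨hS2, hS3⟩, hS4⟩ := hS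
        have h5 : ¬ Compat S T1 := by
          rintro (h | h | h)
          · exact hi1 (h hS3)
          · exact hS4 ⟨h, fun h' => hi1 (h' hS3)⟩
          · exact Finset.disjoint_left.1 h hS2 ht
        have h6 : ¬ Compat T1 S := fun h' => h5 (by
          rcases h' with h' | h' | h'
          · exact Or.inr (Or.inl h')
          · exact Or.inl h'
          · exact Or.inr (Or.inr h'.symm))
        exact k1_cross hS1 hTV (k1_card h6) (k1_card h5) h5
      · have h3 : T1 = {t} := by
          refine (Finset.eq_of_subset_of_card_le (Finset.singleton_subset_iff.2 ht) ?_).symm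
          rw [Finset.card_singleton]
          omega
        refine Ideal.mul_mem_right _ _ ?_
        have h4 : (V.powerset.filter fun S => i ∈ S ∧ T1 ⊂ S) =
            V.powerset.filter fun S => t ∈ S ∧ i ∈ S := by
          ext T
          simp only [mem_filter]
          constructor
          · rintro ⟨h5, h6, h7⟩
            exact ⟨h5, h7.1 ht, h6⟩
          · rintro ⟨h5, h6, h7⟩
            refine ⟨h5, h7, ?_, fun h => hi1 (h h7)⟩
            rw [h3]
            exact Finset.singleton_subset_iff.2 h6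
        rw [h4]
        exact hrel
    have h3 : ∑ T ∈ V.powerset with i ∈ T, k1v V (E + Finsupp.single T 1) =
        ∑ T ∈ V.powerset with i ∈ T, (k1v V (E + Finsupp.single T 1) - g T) +
          ∑ T ∈ V.powerset with i ∈ T, g T := by
      rw [Finset.sum_sub_distrib, sub_add_cancel]
    rw [h3]
    exact Ideal.add_mem _ (Ideal.sum_mem _ h1) h2

/-! ### The map -/

/-- the images of the variables -/
private noncomputable def k1tv (V : Finset α) (q : α) (S : Finset α) :
    MvPolynomial (Finset α) (MvPolynomial (Finset α) ℚ) :=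
  if q ∈ S then (if S ⊆ insert q V ∧ 2 ≤ S.card then MvPolynomial.X (S.erase q) else 0)
  else (if S ⊆ V ∧ 2 ≤ S.card then MvPolynomial.C (MvPolynomial.X S) - MvPolynomial.X S else 0)

/-- the algebra map -/
private noncomputable def k1tau (V : Finset α) (q : α) : MvPolynomial (Finset α) ℚ →ₐ[ℚ]
    MvPolynomial (Finset α) (MvPolynomial (Finset α) ℚ) := MvPolynomial.aeval (k1tv V q)

/-- the linear map -/
private noncomputable def k1rho (V : Finset α) :
    MvPolynomial (Finset α) (MvPolynomial (Finset α) ℚ) →ₗ[MvPolynomial (Finset α) ℚ]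
      MvPolynomial (Finset α) ℚ :=
  (MvPolynomial.basisMonomials (Finset α) (MvPolynomial (Finset α) ℚ)).constr
    (MvPolynomial (Finset α) ℚ) (k1v V)

private theorem k1_rho_mono (V : Finset α) (m : Finset α →₀ ℕ) (a : MvPolynomial (Finset α) ℚ) :
    k1rho V (MvPolynomial.monomial m a) = a * k1v V m := by
  have h1 : (MvPolynomial.monomial m a :
      MvPolynomial (Finset α) (MvPolynomial (Finset α) ℚ)) = a • MvPolynomial.monomial m 1 := by
    rw [MvPolynomial.smul_monomial, smul_eq_mul, mul_one]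
  rw [h1, map_smul, smul_eq_mul]
  congr 1
  have h2 := (MvPolynomial.basisMonomials (Finset α) (MvPolynomial (Finset α) ℚ)).constr_basis
    (MvPolynomial (Finset α) ℚ) (k1v V) m
  rw [MvPolynomial.coe_basisMonomials] at h2
  exact h2

private theorem k1_rho_C (V : Finset α) (a : MvPolynomial (Finset α) ℚ)
    (f : MvPolynomial (Finset α) (MvPolynomial (Finset α) ℚ)) :
    k1rho V (MvPolynomial.C a * f) = a * k1rho V f := by
  rw [MvPolynomial.C_mul', map_smul, smul_eq_mul]

omit [DecidableEq α] in
private theorem k1_X_mono (T : Finset α) (E : Finset α →₀ ℕ) :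
    (MvPolynomial.X T * MvPolynomial.monomial E 1 :
      MvPolynomial (Finset α) (MvPolynomial (Finset α) ℚ)) =
      MvPolynomial.monomial (E + Finsupp.single T 1) 1 := by
  rw [MvPolynomial.X, MvPolynomial.monomial_mul, one_mul, add_comm]

private theorem k1_rho_X (V T : Finset α) (E : Finset α →₀ ℕ) :
    k1rho V (MvPolynomial.X T * MvPolynomial.monomial E 1) =
      k1v V (E + Finsupp.single T 1) := by
  rw [k1_X_mono, k1_rho_mono, one_mul]

private theorem k1_rho_one (V : Finset α) (E : Finset α →₀ ℕ) :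
    k1rho V (MvPolynomial.monomial E 1) = k1v V E := by
  rw [k1_rho_mono, one_mul]

private theorem k1_tau_X (V : Finset α) (q : α) (S : Finset α) :
    k1tau V q (MvPolynomial.X S) = k1tv V q S := MvPolynomial.aeval_X _ _

private theorem k1_tv_in {V : Finset α} {q : α} {S : Finset α} (h : q ∈ S)
    (h1 : S ⊆ insert q V) (h2 : 2 ≤ S.card) : k1tv V q S = MvPolynomial.X (S.erase q) := by
  unfold k1tv
  rw [if_pos h, if_pos ⟨h1, h2⟩]

private theorem k1_tv_out {V : Finset α} {q : α} {S : Finset α} (h : q ∉ S)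
    (h1 : S ⊆ V) (h2 : 2 ≤ S.card) :
    k1tv V q S = MvPolynomial.C (MvPolynomial.X S) - MvPolynomial.X S := by
  unfold k1tv
  rw [if_neg h, if_pos ⟨h1, h2⟩]

private theorem k1_sub {V S : Finset α} {q : α} (h : q ∉ S) (h1 : S ⊆ insert q V) : S ⊆ V := by
  intro x hx
  rcases Finset.mem_insert.1 (h1 hx) with h2 | h2
  · exact absurd (h2 ▸ hx) h
  · exact h2

private theorem k1_cr1 {V : Finset α} {q : α} {S T : Finset α} (hS : S ⊆ insert q V)
    (hT : T ⊆ insert q V) (hS2 : 2 ≤ S.card) (hT2 : 2 ≤ T.card) (h : ¬ Compat S T)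
    (h1 : q ∉ S) (h2 : q ∈ T) (E : Finset α →₀ ℕ) :
    k1rho V (k1tv V q S * k1tv V q T * MvPolynomial.monomial E 1) ∈ RI V := by
  rw [k1_tv_out h1 (k1_sub h1 hS) hS2, k1_tv_in h2 hT hT2, mul_assoc, k1_X_mono, sub_mul,
    map_sub, k1_rho_C, k1_rho_X, k1_rho_one]
  refine k1_ii (T := T.erase q) (k1_sub h1 hS) ((k1_mem _ _ _).2 (Or.inr rfl)) ?_ ?_
  · intro h3
    exact h (Or.inl (h3.trans (Finset.erase_subset _ _)))
  · intro h3
    refine h (Or.inr (Or.inr (Finset.disjoint_left.2 fun x hx hx' => ?_)))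
    refine Finset.disjoint_left.1 h3 hx (Finset.mem_erase.2 ⟨?_, hx'⟩)
    rintro rfl
    exact h1 hx

private theorem k1_lin1 {V : Finset α} {q a : α} (hq : q ∉ V) (ha : a ∈ V) (hV : 2 ≤ V.card)
    (E : Finset α →₀ ℕ) : k1rho V ((∑ S ∈ (insert q V).powerset with (a ∈ S ∧ q ∈ S),
      k1tv V q S) * MvPolynomial.monomial E 1) ∈ RI V := by
  have haq : a ≠ q := by
    rintro rfl
    exact hq ha
  have h1 : ∑ S ∈ (insert q V).powerset with (a ∈ S ∧ q ∈ S), k1tv V q S =
      ∑ T ∈ V.powerset with a ∈ T, MvPolynomial.X T := by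
    rw [Finset.sum_filter, Finset.sum_powerset_insert hq, Finset.sum_filter]
    rw [Finset.sum_eq_zero, zero_add]
    · refine Finset.sum_congr rfl fun T hT => ?_
      rw [mem_powerset] at hT
      have hqT : q ∉ T := fun h => hq (hT h)
      by_cases haT : a ∈ T
      · rw [if_pos ⟨Finset.mem_insert_of_mem haT, Finset.mem_insert_self _ _⟩, if_pos haT,
          k1_tv_in (Finset.mem_insert_self _ _) (Finset.insert_subset_insert _ hT),
          Finset.erase_insert hqT]
        rw [Finset.card_insert_of_notMem hqT]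
        have := Finset.card_pos.2 ⟨a, haT⟩
        omega
      · rw [if_neg haT, if_neg]
        rintro ⟨h2, -⟩
        rcases Finset.mem_insert.1 h2 with h3 | h3
        · exact haq h3
        · exact haT h3
    · intro T hT
      rw [mem_powerset] at hT
      exact if_neg fun h => hq (hT h.2)
  rw [h1, Finset.sum_mul, map_sum]
  rw [Finset.sum_congr rfl fun T _ => k1_rho_X V T E]
  exact k1_iv hV E ha

private theorem k1_lin2 {V : Finset α} {q a b : α} (hq : q ∉ V) (ha : a ∈ V) (hb : b ∈ V)
    (hab : a ≠ b) (E : Finset α →₀ ℕ) :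
    k1rho V ((∑ S ∈ (insert q V).powerset with (a ∈ S ∧ b ∈ S),
      k1tv V q S) * MvPolynomial.monomial E 1) ∈ RI V := by
  have haq : a ≠ q := by
    rintro rfl
    exact hq ha
  have hbq : b ≠ q := by
    rintro rfl
    exact hq hb
  have h1 : ∑ S ∈ (insert q V).powerset with (a ∈ S ∧ b ∈ S), k1tv V q S =
      MvPolynomial.C (∑ T ∈ V.powerset with (a ∈ T ∧ b ∈ T), MvPolynomial.X T) := by
    rw [Finset.sum_filter, Finset.sum_powerset_insert hq, ← Finset.sum_add_distrib, map_sum,
      Finset.sum_filter]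
    refine Finset.sum_congr rfl fun T hT => ?_
    rw [mem_powerset] at hT
    have hqT : q ∉ T := fun h => hq (hT h)
    have h2 : ∀ x, x ≠ q → (x ∈ insert q T ↔ x ∈ T) := fun x hx =>
      ⟨fun h => (Finset.mem_insert.1 h).resolve_left hx, Finset.mem_insert_of_mem⟩
    simp only [h2 a haq, h2 b hbq]
    by_cases hc : a ∈ T ∧ b ∈ T
    · have hc2 : 2 ≤ T.card := by
        have h3 : ({a, b} : Finset α).card = 2 := Finset.card_pair hab
        rw [← h3]
        refine Finset.card_le_card ?_
        intro x hx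
        rw [Finset.mem_insert, Finset.mem_singleton] at hx
        rcases hx with rfl | rfl
        · exact hc.1
        · exact hc.2
      rw [if_pos hc, if_pos hc, if_pos hc, k1_tv_out hqT hT hc2,
        k1_tv_in (Finset.mem_insert_self _ _) (Finset.insert_subset_insert _ hT),
        Finset.erase_insert hqT, sub_add_cancel]
      rw [Finset.card_insert_of_notMem hqT]
      omega
    · rw [if_neg hc, if_neg hc, if_neg hc, add_zero]
  rw [h1, k1_rho_C]
  exact Ideal.mul_mem_right _ _ (Ideal.subset_span (RootRel.lin a b ha hb hab))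

private theorem k1_rel {V : Finset α} {q : α} (hq : q ∉ V) (hV : 2 ≤ V.card)
    {r : MvPolynomial (Finset α) ℚ} (hr : RootRel (insert q V) r) (E : Finset α →₀ ℕ) :
    k1rho V (k1tau V q r * MvPolynomial.monomial E 1) ∈ RI V := by
  cases hr with
  | junk S h =>
    have h1 : k1tv V q S = 0 := by
      unfold k1tv
      by_cases h2 : q ∈ S
      · rw [if_pos h2, if_neg h]
      · rw [if_neg h2, if_neg]
        exact fun h3 => h ⟨h3.1.trans (Finset.subset_insert _ _), h3.2⟩
    rw [k1_tau_X, h1, zero_mul, map_zero]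
    exact Ideal.zero_mem _
  | cross S T hS hT hS2 hT2 h =>
    rw [map_mul (k1tau V q), k1_tau_X, k1_tau_X]
    by_cases h1 : q ∈ S
    · by_cases h2 : q ∈ T
      · rw [k1_tv_in h1 hS hS2, k1_tv_in h2 hT hT2, mul_assoc, k1_X_mono, k1_rho_X,
          k1_V0 (U := T.erase q) ((k1_mem _ _ _).2 (Or.inr rfl))]
        · exact Ideal.zero_mem _
        · rintro (h3 | h3)
          · refine h (Or.inl ?_)
            rw [← Finset.insert_erase h1, ← Finset.insert_erase h2]
            exact Finset.insert_subset_insert _ h3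
          · refine h (Or.inr (Or.inl ?_))
            rw [← Finset.insert_erase h1, ← Finset.insert_erase h2]
            exact Finset.insert_subset_insert _ h3
      · rw [mul_comm (k1tv V q S)]
        refine k1_cr1 hT hS hT2 hS2 (fun h' => h ?_) h2 h1 E
        rcases h' with h' | h' | h'
        · exact Or.inr (Or.inl h')
        · exact Or.inl h'
        · exact Or.inr (Or.inr h'.symm)
    · by_cases h2 : q ∈ T
      · exact k1_cr1 hS hT hS2 hT2 h h1 h2 E
      · rw [k1_tv_out h1 (k1_sub h1 hS) hS2, k1_tv_out h2 (k1_sub h2 hT) hT2]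
        have h3 := k1_iii (E := E) (k1_sub h1 hS) (k1_sub h2 hT) h
        have h4 : (MvPolynomial.C (MvPolynomial.X S) - MvPolynomial.X S) *
            (MvPolynomial.C (MvPolynomial.X T) - MvPolynomial.X T) *
            (MvPolynomial.monomial E 1 : MvPolynomial (Finset α) (MvPolynomial (Finset α) ℚ)) =
            MvPolynomial.C (MvPolynomial.X S * MvPolynomial.X T) * MvPolynomial.monomial E 1 -
            MvPolynomial.C (MvPolynomial.X S) * (MvPolynomial.X T * MvPolynomial.monomial E 1) -
            MvPolynomial.C (MvPolynomial.X T) * (MvPolynomial.X S * MvPolynomial.monomial E 1) +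
            MvPolynomial.X T * (MvPolynomial.X S * MvPolynomial.monomial E 1) := by
          rw [map_mul]
          ring
        rw [h4, map_add, map_sub, map_sub, k1_rho_C, k1_rho_C, k1_rho_C, k1_rho_X, k1_rho_X,
          k1_rho_one, k1_X_mono S, k1_rho_X]
        exact h3
  | lin a b ha hb hab =>
    rw [map_sum]
    simp only [k1_tau_X]
    by_cases haq : a = q
    · subst haq
      have hb' : b ∈ V := (Finset.mem_insert.1 hb).resolve_left (Ne.symm hab)
      have h1 := k1_lin1 hq hb' hV E
      have h2 : ((insert a V).powerset.filter fun S => a ∈ S ∧ b ∈ S) =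
          (insert a V).powerset.filter fun S => b ∈ S ∧ a ∈ S :=
        Finset.filter_congr fun _ _ => and_comm
      rw [h2]
      exact h1
    · have ha' : a ∈ V := (Finset.mem_insert.1 ha).resolve_left haq
      by_cases hbq : b = q
      · subst hbq
        exact k1_lin1 hq ha' hV E
      · exact k1_lin2 hq ha' ((Finset.mem_insert.1 hb).resolve_left hbq) hab E

private theorem k1_rel' {V : Finset α} {q : α} (hq : q ∉ V) (hV : 2 ≤ V.card)
    {r : MvPolynomial (Finset α) ℚ} (hr : RootRel (insert q V) r)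
    (f : MvPolynomial (Finset α) (MvPolynomial (Finset α) ℚ)) :
    k1rho V (k1tau V q r * f) ∈ RI V := by
  induction f using MvPolynomial.induction_on' with
  | monomial u a =>
    have h1 : k1tau V q r * MvPolynomial.monomial u a =
        MvPolynomial.C a * (k1tau V q r * MvPolynomial.monomial u 1) := by
      have h2 : (MvPolynomial.monomial u a :
          MvPolynomial (Finset α) (MvPolynomial (Finset α) ℚ)) =
          MvPolynomial.C a * MvPolynomial.monomial u 1 := by
        rw [MvPolynomial.C_mul_monomial, mul_one]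
      rw [h2]
      ring
    rw [h1, k1_rho_C]
    exact Ideal.mul_mem_left _ _ (k1_rel hq hV hr u)
  | add p p' h1 h2 =>
    rw [mul_add, map_add]
    exact Ideal.add_mem _ h1 h2

/-! ### Degrees -/

/-- homogeneous elements of the big ring -/
private noncomputable def k1Gr (α : Type) (n : ℕ) :
    Submodule ℚ (MvPolynomial (Finset α) (MvPolynomial (Finset α) ℚ)) :=
  Submodule.span ℚ {f | ∃ (a : MvPolynomial (Finset α) ℚ) (m : Finset α →₀ ℕ) (k : ℕ),
    a.IsHomogeneous k ∧ k + m.degree = n ∧ f = MvPolynomial.monomial m a}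

omit [DecidableEq α] in
private theorem k1_Gr_mul {n n' : ℕ} {f g : MvPolynomial (Finset α) (MvPolynomial (Finset α) ℚ)}
    (hf : f ∈ k1Gr α n) (hg : g ∈ k1Gr α n') : f * g ∈ k1Gr α (n + n') := by
  have h1 : f * g ∈ k1Gr α n * k1Gr α n' := Submodule.mul_mem_mul hf hg
  unfold k1Gr at h1
  rw [Submodule.span_mul_span] at h1
  refine (Submodule.span_le.2 ?_) h1
  rintro _ ⟨_, ⟨a, m, k, h2, h3, rfl⟩, _, ⟨a', m', k', h2', h3', rfl⟩, rfl⟩
  refine Submodule.subset_span ⟨a * a', m + m', k + k', h2.mul h2', ?_, ?_⟩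
  · rw [map_add]
    omega
  · exact MvPolynomial.monomial_mul

omit [DecidableEq α] in
private theorem k1_Gr_one : (1 : MvPolynomial (Finset α) (MvPolynomial (Finset α) ℚ)) ∈
    k1Gr α 0 := by
  refine Submodule.subset_span ⟨1, 0, 0, MvPolynomial.isHomogeneous_one _ _, ?_, rfl⟩
  simp

omit [DecidableEq α] in
private theorem k1_Gr_pow {f : MvPolynomial (Finset α) (MvPolynomial (Finset α) ℚ)}
    (hf : f ∈ k1Gr α 1) (k : ℕ) : f ^ k ∈ k1Gr α k := by
  induction k with
  | zero =>
    rw [pow_zero]
    exact k1_Gr_one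
  | succ k ih =>
    rw [pow_succ]
    exact k1_Gr_mul ih hf

private theorem k1_Gr_tv (V : Finset α) (q : α) (S : Finset α) : k1tv V q S ∈ k1Gr α 1 := by
  have hX : ∀ T : Finset α, (MvPolynomial.X T :
      MvPolynomial (Finset α) (MvPolynomial (Finset α) ℚ)) ∈ k1Gr α 1 := fun T =>
    Submodule.subset_span ⟨1, Finsupp.single T 1, 0, MvPolynomial.isHomogeneous_one _ _, by simp,
      rfl⟩
  unfold k1tv
  split_ifs
  · exact hX _
  · exact Submodule.zero_mem _
  · refine Submodule.sub_mem _ ?_ (hX _)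
    exact Submodule.subset_span ⟨MvPolynomial.X S, 0, 1, MvPolynomial.isHomogeneous_X _ _,
      by simp, rfl⟩
  · exact Submodule.zero_mem _

private theorem k1_Gr_prod (V : Finset α) (q : α) (s : Finset (Finset α)) (k : Finset α → ℕ) :
    ∏ S ∈ s, k1tv V q S ^ k S ∈ k1Gr α (∑ S ∈ s, k S) := by
  induction s using Finset.induction_on with
  | empty =>
    rw [Finset.prod_empty, Finset.sum_empty]
    exact k1_Gr_one
  | insert S s hS ih =>
    rw [Finset.prod_insert hS, Finset.sum_insert hS]
    exact k1_Gr_mul (k1_Gr_pow (k1_Gr_tv V q S) _) ih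

private theorem k1_Gr_tau (V : Finset α) (q : α) {p : MvPolynomial (Finset α) ℚ} {n : ℕ}
    (hp : p.IsHomogeneous n) : k1tau V q p ∈ k1Gr α n := by
  rw [← MvPolynomial.support_sum_monomial_coeff p, map_sum]
  refine Submodule.sum_mem _ fun m hm => ?_
  unfold k1tau
  rw [MvPolynomial.aeval_monomial, ← Algebra.smul_def]
  refine Submodule.smul_mem _ _ ?_
  have h1 : m.degree = n := by
    have h2 := hp (MvPolynomial.mem_support_iff.1 hm)
    rw [← h2, Finsupp.degree_eq_weight_one]
    rfl
  have h3 := k1_Gr_prod V q m.support m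
  have h4 : ∑ S ∈ m.support, m S = n := by
    rw [← h1]
    rfl
  rw [h4] at h3
  exact h3

private theorem k1_w_hom (V T : Finset α) : (k1w V T).IsHomogeneous 1 := by
  unfold k1w
  exact (MvPolynomial.IsHomogeneous.sum _ _ _ fun U _ => MvPolynomial.isHomogeneous_X _ _).neg

private theorem k1_Q_hom (V T : Finset α) (a : ℕ) : (k1Q V T a).IsHomogeneous a := by
  induction a with
  | zero =>
    unfold k1Q k1c
    split_ifs
    · exact MvPolynomial.isHomogeneous_one _ _
    · exact (MvPolynomial.isHomogeneous_one _ _).neg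
    · exact MvPolynomial.isHomogeneous_zero _ _ _
  | succ a ih =>
    rw [k1_Q_succ]
    refine MvPolynomial.IsHomogeneous.add ?_ ?_
    · split_ifs
      · have h1 := ((MvPolynomial.isHomogeneous_X ℚ T).pow (a + 1)).neg
        rw [one_mul] at h1
        exact h1
      · exact MvPolynomial.isHomogeneous_zero _ _ _
    · rw [add_comm a 1]
      exact (k1_w_hom V T).mul ih

omit [DecidableEq α] in
private theorem k1_F_hom (m : Finset α →₀ ℕ) : (k1F m).IsHomogeneous m.degree := by
  unfold k1F Finsupp.prod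
  have h1 : m.degree = ∑ S ∈ m.support, 1 * m S := by
    simp only [one_mul]
    rfl
  rw [h1]
  exact MvPolynomial.IsHomogeneous.prod _ _ _ fun S _ => (MvPolynomial.isHomogeneous_X _ _).pow _

private theorem k1_v_hom (V : Finset α) (m : Finset α →₀ ℕ) {d : ℕ} (hd : m.degree = d + 1) :
    (k1v V m).IsHomogeneous d := by
  by_cases h : k1Ch V m
  · have h0 : m ≠ 0 := by
      rintro rfl
      simp at hd
    rw [k1_v_eq h h0]
    have hm := Finsupp.mem_support_iff.1 (k1_T_mem h h0)
    have h1 : m.degree = m (k1T V m) + (m.erase (k1T V m)).degree := by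
      conv_lhs => rw [← Finsupp.single_add_erase (k1T V m) m]
      rw [map_add]
      simp
    have h2 : d = m (k1T V m) - 1 + (m.erase (k1T V m)).degree := by omega
    rw [h2]
    exact (k1_Q_hom _ _ _).mul (k1_F_hom _)
  · rw [k1_v_not h]
    exact MvPolynomial.isHomogeneous_zero _ _ _

private theorem k1_v_zero (V : Finset α) : k1v V 0 = 0 := if_neg fun h => h.2 rfl

private theorem k1_rho_hom (V : Finset α) {d : ℕ}
    {f : MvPolynomial (Finset α) (MvPolynomial (Finset α) ℚ)} (hf : f ∈ k1Gr α (d + 1)) :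
    (k1rho V f).IsHomogeneous d := by
  unfold k1Gr at hf
  induction hf using Submodule.span_induction with
  | mem x hx =>
    obtain ⟨a, m, k, h1, h2, rfl⟩ := hx
    rw [k1_rho_mono]
    by_cases h0 : m = 0
    · rw [h0, k1_v_zero, mul_zero]
      exact MvPolynomial.isHomogeneous_zero _ _ _
    · have h3 : m.degree ≠ 0 := fun h => h0 ((Finsupp.degree_eq_zero_iff _).1 h)
      obtain ⟨j, hj⟩ := Nat.exists_eq_succ_of_ne_zero h3
      have h4 : d = k + j := by omega
      rw [h4]
      exact h1.mul (k1_v_hom V m hj)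
  | zero =>
    rw [map_zero]
    exact MvPolynomial.isHomogeneous_zero _ _ _
  | add x y _ _ hx hy =>
    rw [map_add]
    exact hx.add hy
  | smul c x _ hx =>
    have h1 : k1rho V (c • x) = c • k1rho V x :=
      ((k1rho V).restrictScalars ℚ).map_smul c x
    rw [h1, MvPolynomial.smul_eq_C_mul]
    have h2 := (MvPolynomial.isHomogeneous_C (Finset α) c).mul hx
    rw [zero_add] at h2
    exact h2

private theorem k1_rho_zero (V : Finset α)
    {f : MvPolynomial (Finset α) (MvPolynomial (Finset α) ℚ)} (hf : f ∈ k1Gr α 0) :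
    k1rho V f = 0 := by
  unfold k1Gr at hf
  induction hf using Submodule.span_induction with
  | mem x hx =>
    obtain ⟨a, m, k, h1, h2, rfl⟩ := hx
    have h0 : m = 0 := (Finsupp.degree_eq_zero_iff _).1 (by omega)
    rw [k1_rho_mono, h0, k1_v_zero, mul_zero]
  | zero => rw [map_zero]
  | add x y _ _ hx hy => rw [map_add, hx, hy, add_zero]
  | smul c x _ hx =>
    have h1 : k1rho V (c • x) = c • k1rho V x :=
      ((k1rho V).restrictScalars ℚ).map_smul c x
    rw [h1, hx, smul_zero]

private theorem k1_Q_top {V : Finset α} (hV : 2 ≤ V.card) (a : ℕ) :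
    k1Q V V a = - MvPolynomial.X V ^ a := by
  have hw : k1w V V = 0 := by
    unfold k1w
    rw [Finset.sum_eq_zero, neg_zero]
    intro U hU
    rw [mem_filter, mem_powerset] at hU
    exact absurd hU.1 hU.2.2
  cases a with
  | zero =>
    unfold k1Q k1c
    rw [if_neg (by omega), if_pos rfl, pow_zero]
  | succ a => rw [k1_Q_succ, if_pos hV, hw, zero_mul, add_zero]

private theorem k1_top {V : Finset α} (hV : 2 ≤ V.card) (e : ℕ) :
    k1v V (Finsupp.single V (e + 1)) = - MvPolynomial.X V ^ e := by
  have hs : (Finsupp.single V (e + 1)).support = {V} := by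
    ext U
    rw [Finsupp.mem_support_iff, Finsupp.single_apply, Finset.mem_singleton]
    split_ifs with h
    · exact ⟨fun _ => h.symm, fun _ => by omega⟩
    · exact ⟨fun h' => absurd rfl h', fun h' => absurd h'.symm h⟩
  have hc : k1Ch V (Finsupp.single V (e + 1)) := by
    unfold k1Ch
    rw [hs]
    simp only [Finset.mem_singleton, forall_eq]
    exact ⟨⟨Finset.Subset.refl _, Finset.card_pos.1 (by omega)⟩, Or.inl (Finset.Subset.refl _)⟩
  have hT : k1T V (Finsupp.single V (e + 1)) = V := by
    unfold k1T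
    rw [hs]
    simp
  rw [k1_v_eq hc (by simp), hT, Finsupp.single_eq_same, Finsupp.erase_single, k1_F_zero, mul_one,
    Nat.add_sub_cancel, k1_Q_top hV]

end k1

/-- K1 -/
theorem p_push : S_push := by
  intro α _ V q hq hV
  refine ⟨((k1rho V).restrictScalars ℚ).comp (k1tau V q).toLinearMap, ?_, ?_, ?_, ?_⟩
  · intro r hr p
    have h1 := k1_rel' hq hV hr (k1tau V q p)
    rw [← map_mul] at h1
    exact h1
  · intro d p hp
    exact k1_rho_hom V (k1_Gr_tau V q hp)
  · intro p hp
    exact k1_rho_zero V (k1_Gr_tau V q hp)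
  · intro e
    show k1rho V (k1tau V q ((-MvPolynomial.X (insert q V)) ^ (e + 1))) = _
    rw [map_pow, map_neg, k1_tau_X, k1_tv_in (Finset.mem_insert_self _ _)
      (Finset.Subset.refl _) (by rw [Finset.card_insert_of_notMem hq]; omega),
      Finset.erase_insert hq]
    have h1 : ((- MvPolynomial.X V) ^ (e + 1) :
        MvPolynomial (Finset α) (MvPolynomial (Finset α) ℚ)) =
        MvPolynomial.monomial (Finsupp.single V (e + 1)) ((-1) ^ (e + 1)) := by
      refine (neg_pow (MvPolynomial.X V :
        MvPolynomial (Finset α) (MvPolynomial (Finset α) ℚ)) (e + 1)).trans ?_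
      rw [MvPolynomial.X_pow_eq_monomial]
      have h2 : ((-1) ^ (e + 1) : MvPolynomial (Finset α) (MvPolynomial (Finset α) ℚ)) =
          MvPolynomial.C ((-1) ^ (e + 1)) := by simp
      rw [h2, MvPolynomial.C_mul_monomial, mul_one]
    rw [h1, k1_rho_mono, k1_top hV,
      neg_pow (MvPolynomial.X V : MvPolynomial (Finset α) ℚ) e, pow_succ]
    ring

end Pool.Agent.HH
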