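import Pool.Agent.Lib.MP_371b18_ag.Stm2

open Finset

namespace Pool.Agent.HH

private lemma k2_span {α : Type} [DecidableEq α] (V : Finset α)
    {M : Type} [AddCommGroup M] [Module ℚ M] (π : MvPolynomial (Finset α) ℚ →ₗ[ℚ] M)
    (N : Submodule ℚ M) (h : ∀ ρ, RootRel V ρ → ∀ p, π (ρ * p) ∈ N) :
    ∀ p ∈ RI V, π p ∈ N := by
  have key : ∀ p ∈ RI V, ∀ a, π (a * p) ∈ N := by
    intro p hp
    unfold RI at hp
    refine Submodule.span_induction (p := fun p _ => ∀ a, π (a * p) ∈ N) ?_ ?_ ?_ ?_ hp
    · intro x hx a
      rw [mul_comm]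
      exact h x hx a
    · intro a
      rw [mul_zero, map_zero]
      exact N.zero_mem
    · intro x y _ _ hx hy a
      rw [mul_add, map_add]
      exact N.add_mem (hx a) (hy a)
    · intro c x _ hx a
      rw [smul_eq_mul, ← mul_assoc]
      exact hx (a * c)
  intro p hp
  have := key p hp 1
  rwa [one_mul] at this

theorem p_rexist (h : S_push) : S_rexist := by
  intro α _ V
  induction V using Finset.induction_on with
  | empty => intro h2; simp at h2
  | insert q V hq ih =>
    intro h2
    rw [card_insert_of_notMem hq] at h2 ⊢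
    rcases Nat.lt_or_ge V.card 2 with hlt | hge
    · -- two leaves
      have hV : V.card = 1 := by omega
      refine ⟨(MvPolynomial.aeval (fun _ => (0 : ℚ)) :
        MvPolynomial (Finset α) ℚ →ₐ[ℚ] ℚ).toLinearMap, ?_, ?_, ?_⟩
      · intro p hp
        have := k2_span (insert q V) (MvPolynomial.aeval (fun _ => (0 : ℚ)) :
          MvPolynomial (Finset α) ℚ →ₐ[ℚ] ℚ).toLinearMap ⊥ ?_ p hp
        · exact (Submodule.mem_bot ℚ).1 this
        · intro ρ hρ a
          rw [Submodule.mem_bot]
          rw [AlgHom.toLinearMap_apply, map_mul]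
          cases hρ with
          | junk S h => simp
          | cross S T hS hT hS2 hT2 h => simp
          | lin a b ha hb hab => simp
      · rw [hV]
        simp
      · intro d p hp hd
        have hd0 : d ≠ 0 := by
          rintro rfl
          rw [hV] at hd
          exact hd rfl
        rw [AlgHom.toLinearMap_apply, MvPolynomial.aeval_zero']
        have : MvPolynomial.constantCoeff p = 0 := by
          rw [MvPolynomial.constantCoeff_eq]
          refine hp.coeff_eq_zero ?_
          simpa using hd0.symm
        rw [this, map_zero]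
    · obtain ⟨f, hf1, hf2, hf3⟩ := ih hge
      obtain ⟨π, hπ1, hπ2, hπ3, hπ4⟩ := h α V q hq hge
      refine ⟨f.comp π, ?_, ?_, ?_⟩
      · intro p hp
        have := k2_span (insert q V) (f.comp π) ⊥ ?_ p hp
        · exact (Submodule.mem_bot ℚ).1 this
        · intro ρ hρ a
          rw [Submodule.mem_bot]
          exact hf1 _ (hπ1 ρ hρ a)
      · have e : V.card + 1 - 2 = (V.card - 2) + 1 := by omega
        rw [e, LinearMap.comp_apply, hπ4, hf2]
      · intro d p hp hd
        rw [LinearMap.comp_apply]
        rcases d with _ | d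
        · rw [hπ3 p hp, map_zero]
        · exact hf3 d _ (hπ2 d p hp) (by omega)

end Pool.Agent.HH
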