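import Pool.Agent.Lib.MP_371b18_ag.Stm2

open Finset

namespace Pool.Agent.HH

/-- a maximal nested family with at least three leaves contains a pair -/
private lemma l2_pair (h1 : S_bound) {α : Type} [DecidableEq α] (V : Finset α)
    (F : Finset (Finset α)) (hV : 3 ≤ V.card) (hF : MaxNested V F) :
    ∃ a b, a ≠ b ∧ ({a, b} : Finset α) ∈ F := by
  obtain ⟨hF1, hF2, hF3⟩ := hF
  have hne : F.Nonempty := card_pos.1 (by omega)
  obtain ⟨S, hS, hmin⟩ := exists_min_image F card hne
  have hS2 := (hF1 S hS).2
  rcases Nat.lt_or_ge S.card 3 with hlt | hge
  · obtain ⟨a, b, hab, rfl⟩ := card_eq_two.1 (show S.card = 2 by omega)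
    exact ⟨a, b, hab, hS⟩
  · exfalso
    obtain ⟨a, ha, b, hb, hab⟩ := one_lt_card.1 (show 1 < S.card by omega)
    have hPS : ({a, b} : Finset α) ⊆ S := insert_subset ha (singleton_subset_iff.2 hb)
    have hPc : ({a, b} : Finset α).card = 2 := card_pair hab
    have hPF : ({a, b} : Finset α) ∉ F := fun h => by
      have := hmin _ h
      omega
    have hcomp : ∀ T ∈ F, Compat ({a, b} : Finset α) T := by
      intro T hT
      rcases hF2 S hS T hT with h | h | h
      · exact Or.inl (hPS.trans h)
      · have : T = S := eq_of_subset_of_card_le h (hmin T hT)
        rw [this]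
        exact Or.inl hPS
      · exact Or.inr (Or.inr (disjoint_of_subset_left hPS h))
    have hb := h1 α V (insert {a, b} F) (by omega) ?_ ?_
    · rw [card_insert_of_notMem hPF] at hb
      omega
    · intro T hT
      rcases mem_insert.1 hT with h | h
      · rw [h]
        exact ⟨lt_of_le_of_lt hPS (hF1 S hS).1, hPc.ge⟩
      · exact hF1 T h
    · intro T hT T' hT'
      rcases mem_insert.1 hT with h | h <;> rcases mem_insert.1 hT' with h' | h'
      · rw [h, h']; exact Or.inl subset_rfl
      · rw [h]; exact hcomp T' h'
      · rw [h']
        rcases hcomp T h with h2 | h2 | h2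
        · exact Or.inr (Or.inl h2)
        · exact Or.inl h2
        · exact Or.inr (Or.inr h2.symm)
      · exact hF2 T h T' h'

theorem p_point (h1 : S_bound) (h2 : S_sys_out) (h3 : S_pair) : S_point := by
  have key : ∀ (n : ℕ) (α : Type) [DecidableEq α] (R : Type) [CommRing R] [Algebra ℚ R] (m : R)
      (V : Finset α) (x : Finset α → R), V.card = n → Sys m V x → 2 ≤ V.card →
      ∀ F, MaxNested V F → m * ∏ S ∈ F, x S = m * (-x V) ^ (V.card - 2) := by
    intro n
    induction n with
    | zero => intro α _ R _ _ m V x hn hs hV; omega
    | succ n ih =>
      intro α _ R _ _ m V x hn hs hV F hF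
      rcases Nat.lt_or_ge V.card 3 with hlt | hge
      · have hV2 : V.card = 2 := by omega
        have hF0 : F = ∅ := by
          have := hF.2.2
          exact card_eq_zero.1 (by omega)
        rw [hF0, hV2]
        simp
      · obtain ⟨a, b, hab, hS⟩ := l2_pair h1 V F hge hF
        obtain ⟨hF1, hF2, hF3⟩ := hF
        set S : Finset α := {a, b} with hSdef
        have haS : a ∈ S := mem_insert_self _ _
        have hbS : b ∈ S := mem_insert_of_mem (mem_singleton_self b)
        have hSV : S ⊂ V := (hF1 S hS).1
        have hSc : S.card = 2 := card_pair hab
        have haV : a ∈ V := hSV.1 haS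
        have hbV : b ∈ V := hSV.1 hbS
        have hout : outV V S a = V.erase b := by
          ext t
          unfold outV
          rw [mem_insert, mem_sdiff, mem_erase, hSdef, mem_insert, mem_singleton]
          constructor
          · rintro (h | ⟨h, h'⟩)
            · rw [h]; exact ⟨hab, haV⟩
            · exact ⟨fun h'' => h' (Or.inr h''), h⟩
          · rintro ⟨h, h'⟩
            by_cases h'' : t = a
            · exact Or.inl h''
            · exact Or.inr ⟨h', fun h3 => h3.elim h'' h⟩
        have hcard : (V.erase b).card = V.card - 1 := card_erase_of_mem hbV
        have hdic : ∀ T ∈ F.erase S, S ⊆ T ∨ Disjoint S T := by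
          intro T hT
          rw [mem_erase] at hT
          rcases hF2 S hS T hT.2 with h | h | h
          · exact Or.inl h
          · exact absurd (eq_of_subset_of_card_le h (by rw [hSc]; exact (hF1 T hT.2).2)) hT.1
          · exact Or.inr h
        have hab' : ∀ T ∈ F.erase S, (a ∈ T ↔ b ∈ T) := by
          intro T hT
          rcases hdic T hT with h | h
          · exact ⟨fun _ => h hbS, fun _ => h haS⟩
          · exact ⟨fun h' => absurd h' (disjoint_left.1 h haS),
              fun h' => absurd h' (disjoint_left.1 h hbS)⟩
        have hinj : Set.InjOn (fun T : Finset α => T.erase b) (F.erase S : Finset (Finset α)) := by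
          intro T hT T' hT' he
          simp only at he
          have h4 : b ∈ T ↔ b ∈ T' := by
            rw [← hab' T hT, ← hab' T' hT']
            have h5 : a ∈ T.erase b ↔ a ∈ T'.erase b := by rw [he]
            rw [mem_erase, mem_erase] at h5
            constructor
            · intro h6; exact (h5.1 ⟨hab, h6⟩).2
            · intro h6; exact (h5.2 ⟨hab, h6⟩).2
          ext t
          by_cases htb : t = b
          · rw [htb]; exact h4
          · have h5 : t ∈ T.erase b ↔ t ∈ T'.erase b := by rw [he]
            rw [mem_erase, mem_erase] at h5
            constructor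
            · intro h6; exact (h5.1 ⟨htb, h6⟩).2
            · intro h6; exact (h5.2 ⟨htb, h6⟩).2
        have hMN : MaxNested (V.erase b) ((F.erase S).image fun T => T.erase b) := by
          refine ⟨?_, ?_, ?_⟩
          · intro T' hT'
            obtain ⟨T, hT, rfl⟩ := mem_image.1 hT'
            have hTF := mem_erase.1 hT
            have hTV := (hF1 T hTF.2).1
            have hT2 := (hF1 T hTF.2).2
            refine ⟨⟨erase_subset_erase b hTV.1, fun h => ?_⟩, ?_⟩
            · have haT : a ∈ T := (mem_erase.1 (h (mem_erase.2 ⟨hab, haV⟩))).2
              have hbT : b ∈ T := (hab' T hT).1 haT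
              refine hTV.2 fun t ht => ?_
              by_cases htb : t = b
              · rw [htb]; exact hbT
              · exact (mem_erase.1 (h (mem_erase.2 ⟨htb, ht⟩))).2
            · by_cases hbT : b ∈ T
              · have haT : a ∈ T := (hab' T hT).2 hbT
                have hST : S ⊆ T := insert_subset haT (singleton_subset_iff.2 hbT)
                have : S.card < T.card := card_lt_card (lt_of_le_of_ne hST hTF.1.symm)
                rw [card_erase_of_mem hbT]
                omega
              · rw [erase_eq_of_notMem hbT]
                exact hT2
          · intro T₁ hT₁ T₂ hT₂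
            obtain ⟨T, hT, rfl⟩ := mem_image.1 hT₁
            obtain ⟨T', hT', rfl⟩ := mem_image.1 hT₂
            rcases hF2 T (mem_erase.1 hT).2 T' (mem_erase.1 hT').2 with h | h | h
            · exact Or.inl (erase_subset_erase b h)
            · exact Or.inr (Or.inl (erase_subset_erase b h))
            · exact Or.inr (Or.inr (disjoint_of_subset_left (erase_subset _ _)
                (disjoint_of_subset_right (erase_subset _ _) h)))
          · rw [card_image_of_injOn hinj, card_erase_of_mem hS, hcard]
            have : 1 ≤ F.card := card_pos.2 ⟨S, hS⟩
            omega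
        have hprod : ∏ T ∈ (F.erase S).image (fun T => T.erase b), outx x S a T =
            ∏ T ∈ F.erase S, x T := by
          rw [prod_image hinj]
          refine prod_congr rfl fun T hT => ?_
          unfold outx outS
          by_cases haT : a ∈ T
          · have hbT : b ∈ T := (hab' T hT).1 haT
            rw [if_pos (mem_erase.2 ⟨hab, haT⟩)]
            congr 1
            ext t
            rw [mem_union, mem_erase, hSdef, mem_insert, mem_singleton]
            constructor
            · rintro (h | h | h)
              · exact h.2
              · rw [h]; exact haT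
              · rw [h]; exact hbT
            · intro h
              by_cases htb : t = b
              · exact Or.inr (Or.inr htb)
              · exact Or.inl ⟨htb, h⟩
          · have hbT : b ∉ T := fun h => haT ((hab' T hT).2 h)
            rw [if_neg (fun h => haT (mem_erase.1 h).2), erase_eq_of_notMem hbT]
        have hsys := h2 α R m V x hs S hSV hSc.ge a haS
        rw [hout] at hsys
        have hih := ih α R (m * x S) (V.erase b) (outx x S a) (by omega) hsys (by omega) _ hMN
        rw [hprod] at hih
        have hxV : outx x S a (V.erase b) = x V := by
          unfold outx outS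
          rw [if_pos (mem_erase.2 ⟨hab, haV⟩)]
          congr 1
          ext t
          rw [mem_union, mem_erase]
          constructor
          · rintro (h | h)
            · exact h.2
            · exact hSV.1 h
          · intro h
            by_cases htb : t = b
            · rw [htb]; exact Or.inr hbS
            · exact Or.inl ⟨htb, h⟩
        rw [hxV, hcard] at hih
        rw [← mul_prod_erase F x hS, ← mul_assoc, hih,
          h3 α R m V x hs hge a haV b hbV hab]
        congr 2
  intro α _ R _ _ m V x hs hV F hF
  exact key V.card α R m V x rfl hs hV F hF

end Pool.Agent.HH
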