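import Pool.Agent.Lib.MP_371b18_ag.Stm

/-!
(N1) `newton` of a sum of power sums. (helper30)
-/

open Finset

namespace Pool.Agent.HH

section

variable {R : Type} [CommRing R] [Algebra ℚ R]

/-- the logarithmic derivative -/
noncomputable def n1_c (p : ℕ → R) : PowerSeries R := PowerSeries.mk fun k => (-1) ^ k * p (k + 1)

theorem n1_newton_succ (p : ℕ → R) (m : ℕ) : newton p (m + 1) =
    ((m + 1 : ℚ)⁻¹) • ∑ k ∈ range (m + 1), (-1) ^ k * p (k + 1) * newton p (m - k) := by
  rw [newton]
  congr 1
  rw [← Fin.sum_univ_eq_sum_range (fun k => (-1) ^ k * p (k + 1) * newton p (m - k)) (m + 1)]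
  refine Finset.sum_congr rfl fun k _ => ?_
  rw [Algebra.smul_def, map_pow, map_neg, map_one, mul_assoc]

theorem n1_sum (p f : ℕ → R) (m : ℕ) :
    PowerSeries.coeff m (n1_c p * PowerSeries.mk f) =
      ∑ k ∈ range (m + 1), (-1) ^ k * p (k + 1) * f (m - k) := by
  rw [PowerSeries.coeff_mul, Finset.Nat.sum_antidiagonal_eq_sum_range_succ_mk]
  refine Finset.sum_congr rfl fun k _ => ?_
  rw [n1_c, PowerSeries.coeff_mk, PowerSeries.coeff_mk]

theorem n1_cancel (m : ℕ) (a : R) : ((m + 1 : ℚ)⁻¹) • ((m + 1 : R) * a) = a := by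
  have h0 : (m + 1 : ℚ) ≠ 0 := by positivity
  have h1 : (m + 1 : R) * a = (m + 1 : ℚ) • a := by
    rw [Algebra.smul_def]
    push_cast
    simp
  rw [h1, smul_smul, inv_mul_cancel₀ h0, one_smul]

theorem n1_cancel' (m : ℕ) (a : R) : (m + 1 : R) * (((m + 1 : ℚ)⁻¹) • a) = a := by
  rw [mul_smul_comm, n1_cancel]

theorem n1_der (p : ℕ → R) : PowerSeries.derivative R (PowerSeries.mk (newton p)) =
    n1_c p * PowerSeries.mk (newton p) := by
  ext m
  rw [PowerSeries.coeff_derivative, n1_sum, PowerSeries.coeff_mk, n1_newton_succ, mul_comm,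
    n1_cancel']

theorem n1_uniq (p : ℕ → R) (G : PowerSeries R) (h0 : PowerSeries.coeff 0 G = 1)
    (hd : PowerSeries.derivative R G = n1_c p * G) (m : ℕ) :
    PowerSeries.coeff m G = newton p m := by
  induction m using Nat.strong_induction_on with
  | _ m ih =>
    rcases m with _ | m
    · rw [h0, newton]
    · have h1 := congrArg (PowerSeries.coeff m) hd
      have hG : G = PowerSeries.mk (fun k => PowerSeries.coeff k G) := by
        ext k
        rw [PowerSeries.coeff_mk]
      have h2 : PowerSeries.coeff m (n1_c p * G) =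
          ∑ k ∈ range (m + 1), (-1) ^ k * p (k + 1) * PowerSeries.coeff (m - k) G := by
        conv_lhs => rw [hG]
        rw [n1_sum]
      rw [PowerSeries.coeff_derivative, h2] at h1
      have h3 : ∑ k ∈ range (m + 1), (-1) ^ k * p (k + 1) * PowerSeries.coeff (m - k) G =
          ∑ k ∈ range (m + 1), (-1) ^ k * p (k + 1) * newton p (m - k) := by
        refine Finset.sum_congr rfl fun k hk => ?_
        rw [ih (m - k) (by omega)]
      rw [h3, mul_comm] at h1
      rw [n1_newton_succ, ← h1, n1_cancel]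

end

theorem p_newton_add : S_newton_add := by
  intro R _ _ p q m
  have h := n1_uniq (fun k => p k + q k) (PowerSeries.mk (newton p) * PowerSeries.mk (newton q))
    (by
      rw [PowerSeries.coeff_mul, Finset.Nat.antidiagonal_zero, Finset.sum_singleton,
        PowerSeries.coeff_mk, PowerSeries.coeff_mk, newton, newton, mul_one])
    (by
      have hc : n1_c (fun k => p k + q k) = n1_c p + n1_c q := by
        ext k
        rw [map_add, n1_c, n1_c, n1_c, PowerSeries.coeff_mk, PowerSeries.coeff_mk,
          PowerSeries.coeff_mk, mul_add]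
      rw [Derivation.leibniz, n1_der, n1_der, hc, smul_eq_mul, smul_eq_mul]
      ring) m
  rw [← h, PowerSeries.coeff_mul]
  refine Finset.sum_congr rfl fun ab _ => ?_
  rw [PowerSeries.coeff_mk, PowerSeries.coeff_mk]

end Pool.Agent.HH
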