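import Pool.Agent.Lib.MP_371b18_ag.Stm

/-!
Pieces N2, N3, N4, N5: the function `newton` and congruences, degrees, homomorphisms.   (helper54)
-/

open Finset

namespace Pool.Agent.HH

theorem n2_succ {R : Type} [CommRing R] [Algebra ℚ R] (p : ℕ → R) (m : ℕ) :
    newton p (m + 1) = ((m + 1 : ℚ)⁻¹) • ∑ k : Fin (m + 1),
      ((-1 : ℚ) ^ (k : ℕ)) • (p (k + 1) * newton p (m - k)) := by
  rw [newton]

theorem n2_zero {R : Type} [CommRing R] [Algebra ℚ R] (p : ℕ → R) : newton p 0 = 1 := by
  rw [newton]

theorem p_newton_congr : S_newton_congr := by
  intro R _ _ μ p q h m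
  induction m using Nat.strong_induction_on with
  | _ m ih =>
    cases m with
    | zero => rw [n2_zero, n2_zero]
    | succ m =>
      rw [n2_succ, n2_succ, mul_smul_comm, mul_smul_comm, Finset.mul_sum, Finset.mul_sum]
      congr 1
      apply Finset.sum_congr rfl
      intro k _
      rw [mul_smul_comm, mul_smul_comm]
      congr 1
      have hk := h (k + 1) (by omega)
      have hi := ih (m - k) (by omega)
      calc μ * (p (k + 1) * newton p (m - k)) = (μ * p (k + 1)) * newton p (m - k) := by ring
        _ = q (k + 1) * (μ * newton p (m - k)) := by rw [hk]; ring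
        _ = μ * (q (k + 1) * newton q (m - k)) := by rw [hi]; ring

theorem p_newton_mem : S_newton_mem := by
  intro R _ _ H p h m
  induction m using Nat.strong_induction_on with
  | _ m ih =>
    cases m with
    | zero =>
      rw [n2_zero, pow_zero]
      exact Submodule.one_le.mp le_rfl
    | succ m =>
      rw [n2_succ]
      apply Submodule.smul_mem
      apply Submodule.sum_mem
      intro k _
      apply Submodule.smul_mem
      have h1 := h (k + 1) (by omega)
      have h2 := ih (m - k) (by omega)
      have h3 := Submodule.mul_mem_mul h1 h2
      rw [← pow_add] at h3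
      have h4 : (k : ℕ) + 1 + (m - k) = m + 1 := by omega
      rw [h4] at h3
      exact h3

theorem p_newton_map : S_newton_map := by
  intro R R' _ _ _ _ f p m
  induction m using Nat.strong_induction_on with
  | _ m ih =>
    cases m with
    | zero => rw [n2_zero, n2_zero, map_one]
    | succ m =>
      rw [n2_succ, n2_succ, map_smul, map_sum]
      congr 1
      apply Finset.sum_congr rfl
      intro k _
      rw [map_smul, map_mul, ih (m - k) (by omega)]

theorem p_newton_ext : S_newton_ext := by
  intro R _ _ p q h m
  induction m using Nat.strong_induction_on with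
  | _ m ih =>
    cases m with
    | zero => rw [n2_zero, n2_zero]
    | succ m =>
      rw [n2_succ, n2_succ]
      congr 1
      apply Finset.sum_congr rfl
      intro k _
      rw [h (k + 1) (by omega), ih (m - k) (by omega)]

end Pool.Agent.HH
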