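import Pool.Agent.Lib.MP_371b18_ag.Stm

open Finset

namespace Pool.Agent.HH

private lemma q1_aux : ∀ (n : ℕ) (R : Polynomial ℚ) (v : ℚ), R.natDegree ≤ n →
    ∃ P : Polynomial ℚ, P.natDegree ≤ n + 1 ∧ P.coeff (n + 1) = R.coeff n / ((n : ℚ) + 1) ∧
      P.eval 0 = v ∧ ∀ g : ℚ, P.eval (g + 1) - P.eval g = R.eval g := by
  intro n
  induction n with
  | zero =>
    intro R v hR
    obtain ⟨c, rfl⟩ : ∃ c, R = Polynomial.C c :=
      ⟨R.coeff 0, Polynomial.eq_C_of_natDegree_le_zero hR⟩
    refine ⟨Polynomial.C c * Polynomial.X + Polynomial.C v, ?_, ?_, ?_, ?_⟩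
    · exact Polynomial.natDegree_linear_le
    · simp
    · simp
    · intro g
      simp
      ring
  | succ d ih =>
    intro R v hR
    set r : ℚ := R.coeff (d + 1) / ((d : ℚ) + 1 + 1) with hr
    have hd : ((d : ℚ) + 1 + 1) ≠ 0 := by positivity
    set R' : Polynomial ℚ := R - (Polynomial.C r * (Polynomial.X + 1) ^ (d + 2) -
      Polynomial.C r * Polynomial.X ^ (d + 2)) with hR'
    have hR'd : R'.natDegree ≤ d := by
      rw [Polynomial.natDegree_le_iff_coeff_eq_zero]
      intro N hN
      rw [hR', Polynomial.coeff_sub, Polynomial.coeff_sub, Polynomial.coeff_C_mul,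
        Polynomial.coeff_C_mul, Polynomial.coeff_X_add_one_pow, Polynomial.coeff_X_pow]
      rcases Nat.lt_or_ge (d + 1) N with h | h
      · rw [Polynomial.coeff_eq_zero_of_natDegree_lt (lt_of_le_of_lt hR h)]
        rcases Nat.lt_or_ge (d + 2) N with h2 | h2
        · rw [Nat.choose_eq_zero_of_lt h2, if_neg (by omega)]
          simp
        · have : N = d + 2 := by omega
          rw [this]
          simp
      · have hN1 : N = d + 1 := by omega
        rw [hN1, if_neg (by omega), Nat.choose_succ_self_right (d + 1)]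
        rw [hr]
        push_cast
        field_simp
        ring
    obtain ⟨P, hP1, hP2, hP3, hP4⟩ := ih R' v hR'd
    refine ⟨P + Polynomial.C r * Polynomial.X ^ (d + 2), ?_, ?_, ?_, ?_⟩
    · refine (Polynomial.natDegree_add_le _ _).trans ?_
      refine max_le (hP1.trans (by omega)) ?_
      exact (Polynomial.natDegree_C_mul_X_pow_le _ _).trans (by omega)
    · rw [Polynomial.coeff_add, Polynomial.coeff_eq_zero_of_natDegree_lt
        (lt_of_le_of_lt hP1 (by omega)), Polynomial.coeff_C_mul, Polynomial.coeff_X_pow,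
        if_pos (by omega), zero_add, mul_one, hr]
      push_cast
      rfl
    · rw [Polynomial.eval_add, hP3]
      simp
    · intro g
      have h := hP4 g
      rw [hR'] at h
      simp only [Polynomial.eval_add, Polynomial.eval_sub, Polynomial.eval_mul,
        Polynomial.eval_C, Polynomial.eval_pow, Polynomial.eval_X, Polynomial.eval_one] at h ⊢
      linarith

theorem p_sum : S_sum := by
  intro d R v hd hR
  obtain ⟨n, rfl⟩ : ∃ n, d = n + 1 := ⟨d - 1, by omega⟩
  obtain ⟨P, h1, h2, h3, h4⟩ := q1_aux n R v (by simpa using hR)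
  refine ⟨P, h1, ?_, h3, h4⟩
  rw [h2]
  push_cast
  simp

end Pool.Agent.HH
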