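import Pool.Agent.Lib.MP_371b18_ag.Stm

/-!
Piece Q2 of MP_371b18_ag: polynomiality of the recursion in the number of twisted markings.
-/

open Finset Polynomial

namespace Pool.Agent.HH

private lemma q2_antidiag (n : ℕ) (f : ℕ → ℕ → ℚ) (k : ℕ) :
    (∑ p ∈ antidiagonal n, C (f p.1 p.2) * (X : ℚ[X]) ^ p.1).coeff k =
      if k ≤ n then f k (n - k) else 0 := by
  rw [Finset.Nat.sum_antidiagonal_eq_sum_range_succ_mk, finsetSum_coeff]
  simp only [coeff_C_mul_X_pow]
  rw [Finset.sum_ite_eq]
  simp only [Finset.mem_range, Nat.lt_succ_iff]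

private lemma q2_comb {r : ℕ} (i : Fin r → ℕ) :
    ∑ w ∈ (spl i).filter (fun w => tot (fun a => (w a).1) = 1),
        ∏ a, (1 / (((w a).2).factorial : ℚ))
      = (tot i : ℚ) / ∏ a, ((i a).factorial : ℚ) := by
  set Q : Fin r → ℚ[X] := fun a => ∑ p ∈ antidiagonal (i a),
    C (1 / ((p.2).factorial : ℚ)) * X ^ p.1 with hQ
  have hc : ∀ a k, (Q a).coeff k = if k ≤ i a then 1 / (((i a - k).factorial : ℕ) : ℚ) else 0 := by
    intro a k
    exact q2_antidiag (i a) (fun _ l => 1 / ((l.factorial : ℕ) : ℚ)) k
  have h1 : ∏ a, Q a = ∑ w ∈ spl i, C (∏ a, (1 / (((w a).2).factorial : ℚ))) *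
      X ^ (tot fun a => (w a).1) := by
    rw [hQ, Finset.prod_univ_sum]
    refine Finset.sum_congr rfl fun w _ => ?_
    rw [Finset.prod_mul_distrib, Finset.prod_pow_eq_pow_sum, map_prod]
    rfl
  have h2 : (∏ a, Q a).coeff 1 = ∑ w ∈ (spl i).filter (fun w => tot (fun a => (w a).1) = 1),
        ∏ a, (1 / (((w a).2).factorial : ℚ)) := by
    rw [h1, finsetSum_coeff, Finset.sum_filter]
    refine Finset.sum_congr rfl fun w _ => ?_
    rw [coeff_C_mul_X_pow]
    by_cases h : tot (fun a => (w a).1) = 1
    · rw [if_pos h, if_pos h.symm]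
    · rw [if_neg h, if_neg (fun h' => h h'.symm)]
  have h3 : (∏ a, Q a).coeff 1 = (derivative (∏ a, Q a)).coeff 0 := by
    rw [coeff_derivative]; simp
  rw [← h2, h3, derivative_prod_finset, finsetSum_coeff]
  have h4 : ∀ a ∈ (univ : Finset (Fin r)),
      ((∏ b ∈ univ.erase a, Q b) * derivative (Q a)).coeff 0 =
        (i a : ℚ) * (∏ b, ((i b).factorial : ℚ))⁻¹ := by
    intro a _
    rw [mul_coeff_zero, coeff_zero_prod, coeff_derivative]
    have e1 : ∏ b ∈ univ.erase a, (Q b).coeff 0 = ∏ b ∈ univ.erase a, ((i b).factorial : ℚ)⁻¹ := by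
      refine Finset.prod_congr rfl fun b _ => ?_
      rw [hc]; simp
    have e2 : (Q a).coeff (0 + 1) * (((0 : ℕ) : ℚ) + 1) = (i a : ℚ) * ((i a).factorial : ℚ)⁻¹ := by
      rw [hc]
      rcases Nat.eq_zero_or_pos (i a) with h0 | h0
      · rw [h0]; simp
      · rw [if_pos (by omega)]
        have : (i a).factorial = i a * (i a - 1).factorial := (Nat.mul_factorial_pred h0.ne').symm
        rw [this]
        have hne : ((i a : ℕ) : ℚ) ≠ 0 := by exact_mod_cast h0.ne'
        have hne2 : (((i a - 1).factorial : ℕ) : ℚ) ≠ 0 := by exact_mod_cast Nat.factorial_ne_zero _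
        push_cast
        rw [zero_add]
        field_simp
    rw [e1, e2, ← Finset.prod_inv_distrib, ← Finset.mul_prod_erase univ _ (Finset.mem_univ a)]
    ring
  rw [Finset.sum_congr rfl h4, ← Finset.sum_mul, div_eq_mul_inv]
  congr 1
  unfold tot
  push_cast
  rfl

/-- the polynomial `(2 X + ε) choose (k+1)` -/
private noncomputable def q2_B (ε k : ℕ) : ℚ[X] :=
  C (1 / ((k + 1).factorial : ℚ)) * (descPochhammer ℚ (k + 1)).comp (C 2 * X + C (ε : ℚ))

private lemma q2_B_eval (ε k g : ℕ) :
    (q2_B ε k).eval (g : ℚ) = ((2 * g + ε).choose (k + 1) : ℚ) := by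
  have h := descPochhammer_eval_eq_descFactorial ℚ (2 * g + ε) (k + 1)
  unfold q2_B
  rw [eval_mul, eval_C, eval_comp, eval_add, eval_mul, eval_C, eval_X, eval_C]
  have h' : ((2 * g + ε : ℕ) : ℚ) = 2 * (g : ℚ) + (ε : ℚ) := by push_cast; ring
  rw [← h', h, Nat.descFactorial_eq_factorial_mul_choose]
  have hne : (((k + 1).factorial : ℕ) : ℚ) ≠ 0 := by exact_mod_cast Nat.factorial_ne_zero _
  push_cast at hne ⊢
  field_simp

private lemma q2_B_deg (ε k : ℕ) : (q2_B ε k).natDegree ≤ k + 1 := by
  unfold q2_B
  refine (natDegree_C_mul_le _ _).trans ?_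
  refine natDegree_comp_le.trans ?_
  rw [descPochhammer_natDegree]
  have : (C 2 * X + C (ε : ℚ) : ℚ[X]).natDegree ≤ 1 := natDegree_linear_le
  nlinarith

private lemma q2_B_coeff (ε : ℕ) : (q2_B ε 0).coeff 1 = 2 := by
  unfold q2_B
  simp [coeff_C]

private lemma q2_tot_add {r : ℕ} (i : Fin r → ℕ) (w : Fin r → ℕ × ℕ) (hw : w ∈ spl i) :
    tot (fun a => (w a).1) + tot (fun a => (w a).2) = tot i := by
  unfold tot
  rw [← Finset.sum_add_distrib]
  refine Finset.sum_congr rfl fun a _ => ?_
  have := (Fintype.mem_piFinset.mp hw) a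
  exact mem_antidiagonal.mp this

theorem p_poly (h : S_sum) : S_poly := by
  intro r c hc ε hε i
  -- strong induction on the total degree
  induction ht : tot i using Nat.strong_induction_on generalizing i with
  | _ t ih =>
  rcases Nat.eq_zero_or_pos t with h0 | hpos
  · -- degree zero
    subst h0
    have hi : ∀ a, i a = 0 := by
      intro a
      unfold tot at ht
      exact (Finset.sum_eq_zero_iff.mp ht) a (Finset.mem_univ a)
    refine ⟨1, by simp, by simp [hi], ?_⟩
    have hrec : ∀ N, aN c (N + 2) i = aN c N i := by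
      intro N
      rw [aN]
      have : ∀ k : Fin N, (spl i).filter (fun w => tot (fun a => (w a).1) = (k : ℕ) + 1) = ∅ := by
        intro k
        rw [Finset.filter_eq_empty_iff]
        intro w hw hw'
        have := q2_tot_add i w hw
        omega
      rw [Finset.sum_eq_zero, add_zero]
      intro k _
      rw [this k]; simp
    intro g
    rw [eval_one]
    induction g with
    | zero =>
      rw [mul_zero, zero_add]
      interval_cases ε
      · rw [aN, if_pos ht]
      · rw [aN, if_pos ht]
    | succ g ihg =>
      rw [show 2 * (g + 1) + ε = (2 * g + ε) + 2 by ring, hrec, ihg]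
  · -- positive degree
    have ih' : ∀ j : Fin r → ℕ, tot j < t → ∃ P : ℚ[X], P.natDegree = 2 * tot j ∧
        P.leadingCoeff = 1 / (2 ^ (tot j) * ∏ a, ((j a).factorial : ℚ)) ∧
        ∀ g : ℕ, aN c (2 * g + ε) j = P.eval (g : ℚ) := by
      intro j hj
      exact ih (tot j) hj j rfl
    choose! Pol hP1 hP2 hP3 using ih'
    -- the terms
    set S : ℕ → ℚ[X] := fun k => ∑ w ∈ (spl i).filter (fun w => tot (fun a => (w a).1) = k + 1),
      C (c (fun a => (w a).1)) * (Pol (fun a => (w a).2)).comp (X - C (((k + 1) / 2 : ℕ) : ℚ)) with hS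
    have hw2 : ∀ k, ∀ w ∈ (spl i).filter (fun w => tot (fun a => (w a).1) = k + 1),
        tot (fun a => (w a).2) = t - (k + 1) ∧ k + 1 ≤ t := by
      intro k w hw
      rw [Finset.mem_filter] at hw
      have := q2_tot_add i w hw.1
      omega
    have hSdeg : ∀ k, (S k).natDegree ≤ 2 * (t - (k + 1)) := by
      intro k
      refine natDegree_sum_le_of_forall_le _ _ fun w hw => ?_
      refine (natDegree_C_mul_le _ _).trans ?_
      refine natDegree_comp_le.trans ?_
      rw [natDegree_X_sub_C, mul_one]
      obtain ⟨e1, e2⟩ := hw2 k w hw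
      rw [hP1 _ (by omega), e1]
    set R : ℚ[X] := ∑ k ∈ range t, q2_B ε k * S k with hR
    have hRdeg : R.natDegree ≤ 2 * t - 1 := by
      refine natDegree_sum_le_of_forall_le _ _ fun k hk => ?_
      refine natDegree_mul_le.trans ?_
      have := q2_B_deg ε k
      have := hSdeg k
      rw [Finset.mem_range] at hk
      omega
    obtain ⟨P, hPd, hPc, hP0, hPs⟩ := h (2 * t) R 0 (by omega) hRdeg
    -- the leading coefficient of `R`
    have hS0 : (S 0).coeff (2 * t - 2) =
        (t : ℚ) / (2 ^ t * ∏ a, ((i a).factorial : ℚ)) := by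
      have e := q2_comb i
      rw [hS]
      simp only [finsetSum_coeff, zero_add]
      have e3 : ∀ w ∈ (spl i).filter (fun w => tot (fun a => (w a).1) = 1),
          (C (c (fun a => (w a).1)) * (Pol (fun a => (w a).2)).comp
            (X - C (((1 : ℕ) / 2 : ℕ) : ℚ))).coeff (2 * t - 2)
            = (1 / 2 ^ t) * ∏ a, (1 / (((w a).2).factorial : ℚ)) := by
        intro w hw
        obtain ⟨e1, e2⟩ := hw2 0 w hw
        rw [Finset.mem_filter] at hw
        have e4 : ((1 : ℕ) / 2 : ℕ) = 0 := by norm_num
        rw [e4, Nat.cast_zero, C_0, sub_zero, comp_X, coeff_C_mul, hc _ hw.2]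
        have e5 := hP1 (fun a => (w a).2) (by omega)
        have e6 := hP2 (fun a => (w a).2) (by omega)
        have e7 : 2 * t - 2 = (Pol (fun a => (w a).2)).natDegree := by rw [e5, e1]; omega
        rw [e7, coeff_natDegree, e6, e1]
        obtain ⟨s, rfl⟩ : ∃ s, t = s + 1 := ⟨t - 1, by omega⟩
        rw [Finset.prod_div_distrib, Finset.prod_const_one]
        simp only [zero_add, Nat.add_sub_cancel]
        rw [pow_succ]
        field_simp
      rw [Finset.sum_congr rfl e3, ← Finset.mul_sum, e, ht]
      rw [div_mul_div_comm, one_mul]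
    have hRc : R.coeff (2 * t - 1) = 2 * ((t : ℚ) / (2 ^ t * ∏ a, ((i a).factorial : ℚ))) := by
      rw [hR, finsetSum_coeff, ← Finset.sum_subset (s₁ := {0})]
      · rw [Finset.sum_singleton]
        have := coeff_mul_add_eq_of_natDegree_le (q2_B_deg ε 0)
          (show (S 0).natDegree ≤ 2 * t - 2 from (hSdeg 0).trans (by omega))
        rw [show 2 * t - 1 = 0 + 1 + (2 * t - 2) by omega, this, hS0, q2_B_coeff]
      · intro x hx
        rw [Finset.mem_singleton] at hx
        subst hx
        exact Finset.mem_range.mpr hpos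
      · intro k hk hk0
        rw [Finset.mem_singleton] at hk0
        rw [Finset.mem_range] at hk
        apply coeff_eq_zero_of_natDegree_lt
        refine lt_of_le_of_lt natDegree_mul_le ?_
        have := q2_B_deg ε k
        have := hSdeg k
        omega
    have hprod : (∏ a, ((i a).factorial : ℚ)) ≠ 0 :=
      Finset.prod_ne_zero_iff.mpr fun a _ => by exact_mod_cast Nat.factorial_ne_zero _
    have htq : (t : ℚ) ≠ 0 := by exact_mod_cast hpos.ne'
    have hcoef : P.coeff (2 * t) = 1 / (2 ^ t * ∏ a, ((i a).factorial : ℚ)) := by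
      rw [hPc, hRc]
      push_cast
      field_simp
    have hdeg : P.natDegree = 2 * t := by
      apply le_antisymm hPd
      apply le_natDegree_of_ne_zero
      rw [hcoef]
      positivity
    refine ⟨P, hdeg, ?_, ?_⟩
    · rw [leadingCoeff, hdeg, hcoef]
    · -- the difference equation
      have hdiff : ∀ g : ℕ, aN c (2 * (g + 1) + ε) i - aN c (2 * g + ε) i = R.eval (g : ℚ) := by
        intro g
        rw [show 2 * (g + 1) + ε = (2 * g + ε) + 2 by ring, aN, add_sub_cancel_left]
        rw [hR, eval_finsetSum]
        -- as a sum over a common range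
        have key : ∀ k, k < 2 * g + ε → k < t →
            ∑ w ∈ (spl i).filter (fun w => tot (fun a => (w a).1) = k + 1),
              c (fun a => (w a).1) *
                aN c (if Even k then 2 * g + ε - k else 2 * g + ε - (k + 1)) (fun a => (w a).2)
            = (S k).eval (g : ℚ) := by
          intro k hk hkt
          rw [hS]
          simp only [eval_finsetSum, eval_mul, eval_C, eval_comp, eval_sub, eval_X]
          refine Finset.sum_congr rfl fun w hw => ?_
          obtain ⟨e1, e2⟩ := hw2 k w hw
          have e3 := hP3 (fun a => (w a).2) (by omega) (g - (k + 1) / 2)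
          have hle : (k + 1) / 2 ≤ g := by omega
          rw [Nat.cast_sub hle] at e3
          rw [← e3]
          congr 2
          rcases Nat.even_or_odd k with hev | hod
          · rw [if_pos hev]; obtain ⟨m, rfl⟩ := hev; omega
          · rw [if_neg (Nat.not_even_iff_odd.mpr hod)]; obtain ⟨m, rfl⟩ := hod; omega
        have hL : (∑ k : Fin (2 * g + ε), ((2 * g + ε).choose ((k : ℕ) + 1) : ℚ) *
            ∑ w ∈ (spl i).filter (fun w => tot (fun a => (w a).1) = (k : ℕ) + 1),
              c (fun a => (w a).1) *
                aN c (if Even (k : ℕ) then 2 * g + ε - k else 2 * g + ε - (k + 1))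
                  (fun a => (w a).2)) =
            ∑ k ∈ range (2 * g + ε), ((2 * g + ε).choose (k + 1) : ℚ) *
            ∑ w ∈ (spl i).filter (fun w => tot (fun a => (w a).1) = k + 1),
              c (fun a => (w a).1) *
                aN c (if Even k then 2 * g + ε - k else 2 * g + ε - (k + 1))
                  (fun a => (w a).2) :=
          Fin.sum_univ_eq_sum_range (fun k => ((2 * g + ε).choose (k + 1) : ℚ) *
            ∑ w ∈ (spl i).filter (fun w => tot (fun a => (w a).1) = k + 1),
              c (fun a => (w a).1) *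
                aN c (if Even k then 2 * g + ε - k else 2 * g + ε - (k + 1))
                  (fun a => (w a).2)) (2 * g + ε)
        rw [hL]
        have hA : ∑ k ∈ range (2 * g + ε), ((2 * g + ε).choose (k + 1) : ℚ) *
            ∑ w ∈ (spl i).filter (fun w => tot (fun a => (w a).1) = k + 1),
              c (fun a => (w a).1) *
                aN c (if Even k then 2 * g + ε - k else 2 * g + ε - (k + 1))
                  (fun a => (w a).2) =
            ∑ k ∈ range (min (2 * g + ε) t), eval (g : ℚ) (q2_B ε k * S k) := by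
          symm
          rw [← Finset.sum_subset (s₁ := range (min (2 * g + ε) t)) (s₂ := range (2 * g + ε))]
          · refine Finset.sum_congr rfl fun k hk => ?_
            rw [Finset.mem_range, lt_min_iff] at hk
            rw [eval_mul, q2_B_eval, key k hk.1 hk.2]
          · intro k hk
            rw [Finset.mem_range, lt_min_iff] at hk
            exact Finset.mem_range.mpr hk.1
          · intro k hk hk'
            rw [Finset.mem_range] at hk hk'
            have hemp : (spl i).filter (fun w => tot (fun a => (w a).1) = k + 1) = ∅ := by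
              rw [Finset.filter_eq_empty_iff]
              intro w hw hw'
              have := q2_tot_add i w hw
              apply hk'
              rw [lt_min_iff]
              omega
            rw [hemp]; simp
        rw [hA]
        refine Finset.sum_subset ?_ ?_
        · intro k hk
          rw [Finset.mem_range, lt_min_iff] at hk
          exact Finset.mem_range.mpr hk.2
        · intro k hk hk'
          rw [Finset.mem_range] at hk hk'
          rw [eval_mul, q2_B_eval, Nat.choose_eq_zero_of_lt, Nat.cast_zero, zero_mul]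
          by_contra hcon
          apply hk'
          rw [lt_min_iff]
          omega
      intro g
      induction g with
      | zero =>
        rw [mul_zero, zero_add, Nat.cast_zero, hP0]
        interval_cases ε
        · rw [aN, if_neg (by omega)]
        · rw [aN, if_neg (by omega)]
      | succ g ihg =>
        have e1 := hdiff g
        have e2 := hPs (g : ℚ)
        push_cast
        rw [ihg] at e1
        linarith

end Pool.Agent.HH
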