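import Pool.Agent.Lib.MP_371b18_ag.Stm2

open Finset

namespace Pool.Agent.HH

open Pool.Agent.HHI

section

variable {ι : Type} [Fintype ι] [DecidableEq ι]

private lemma r1_four (a b c d : ι) (h : [a, b, c, d].Nodup) :
    (∑ S : Finset ι with (a ∈ S ∧ b ∈ S ∧ c ∉ S ∧ d ∉ S), bdiv S) =
      ∑ S : Finset ι with (a ∈ S ∧ c ∈ S ∧ b ∉ S ∧ d ∉ S), bdiv S := by
  have h1 : (Ideal.Quotient.mk (Ideal.span {p | KeelRel ι p}))
      (∑ S : Finset ι with (a ∈ S ∧ b ∈ S ∧ c ∉ S ∧ d ∉ S), MvPolynomial.X S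
        - ∑ S : Finset ι with (a ∈ S ∧ c ∈ S ∧ b ∉ S ∧ d ∉ S), MvPolynomial.X S) = 0 :=
    Ideal.Quotient.eq_zero_iff_mem.2 (Ideal.subset_span (KeelRel.four a b c d h))
  rw [map_sub, map_sum, map_sum, sub_eq_zero] at h1
  exact h1

private lemma r1_step (a b c j : ι) (hab : a ≠ b) (hac : a ≠ c) (hbc : b ≠ c) (haj : a ≠ j)
    (hbj : b ≠ j) (hcj : c ≠ j) :
    (∑ T : Finset ι with (a ∈ T ∧ b ∈ T ∧ T ⊂ univ.erase j), bdiv T) =
      ∑ T : Finset ι with (a ∈ T ∧ c ∈ T ∧ T ⊂ univ.erase j), bdiv T := by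
  have hsub : ∀ T : Finset ι, ∀ e, e ≠ j → e ∉ T → (T ⊂ univ.erase j ↔ j ∉ T) := by
    intro T e hej he
    constructor
    · intro h hj
      exact (mem_erase.1 (h.1 hj)).1 rfl
    · intro hj
      refine ⟨fun t ht => mem_erase.2 ⟨fun h => hj (h ▸ ht), mem_univ t⟩, fun h => ?_⟩
      exact he (h (mem_erase.2 ⟨hej, mem_univ e⟩))
  have hL : (∑ T : Finset ι with (a ∈ T ∧ b ∈ T ∧ T ⊂ univ.erase j), bdiv T) =
      (∑ S : Finset ι with (a ∈ S ∧ b ∈ S ∧ c ∉ S ∧ j ∉ S), bdiv S) +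
      ∑ T : Finset ι with (a ∈ T ∧ b ∈ T ∧ c ∈ T ∧ T ⊂ univ.erase j), bdiv T := by
    rw [← sum_filter_add_sum_filter_not (univ.filter fun T : Finset ι =>
      a ∈ T ∧ b ∈ T ∧ T ⊂ univ.erase j) (fun T => c ∉ T), filter_filter, filter_filter]
    congr 1
    · refine sum_congr ?_ fun _ _ => rfl
      ext T
      simp only [mem_filter, mem_univ, true_and]
      constructor
      · rintro ⟨⟨h1, h2, h3⟩, h4⟩
        exact ⟨h1, h2, h4, (hsub T c hcj h4).1 h3⟩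
      · rintro ⟨h1, h2, h3, h4⟩
        exact ⟨⟨h1, h2, (hsub T c hcj h3).2 h4⟩, h3⟩
    · refine sum_congr ?_ fun _ _ => rfl
      ext T
      simp only [mem_filter, mem_univ, true_and, not_not]
      tauto
  have hR : (∑ T : Finset ι with (a ∈ T ∧ c ∈ T ∧ T ⊂ univ.erase j), bdiv T) =
      (∑ S : Finset ι with (a ∈ S ∧ c ∈ S ∧ b ∉ S ∧ j ∉ S), bdiv S) +
      ∑ T : Finset ι with (a ∈ T ∧ b ∈ T ∧ c ∈ T ∧ T ⊂ univ.erase j), bdiv T := by
    rw [← sum_filter_add_sum_filter_not (univ.filter fun T : Finset ι =>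
      a ∈ T ∧ c ∈ T ∧ T ⊂ univ.erase j) (fun T => b ∉ T), filter_filter, filter_filter]
    congr 1
    · refine sum_congr ?_ fun _ _ => rfl
      ext T
      simp only [mem_filter, mem_univ, true_and]
      constructor
      · rintro ⟨⟨h1, h2, h3⟩, h4⟩
        exact ⟨h1, h2, h4, (hsub T b hbj h4).1 h3⟩
      · rintro ⟨h1, h2, h3, h4⟩
        exact ⟨⟨h1, h2, (hsub T b hbj h3).2 h4⟩, h3⟩
    · refine sum_congr ?_ fun _ _ => rfl
      ext T
      simp only [mem_filter, mem_univ, true_and, not_not]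
      tauto
  rw [hL, hR, r1_four a b c j]
  simp [hab, hac, hbc, haj, hbj, hcj]

private lemma r1_symm (a b j : ι) :
    (∑ T : Finset ι with (a ∈ T ∧ b ∈ T ∧ T ⊂ univ.erase j), bdiv T) =
      ∑ T : Finset ι with (b ∈ T ∧ a ∈ T ∧ T ⊂ univ.erase j), bdiv T := by
  refine sum_congr ?_ fun _ _ => rfl
  ext T
  simp only [mem_filter, mem_univ, true_and]
  tauto

private lemma r1_step' (a b c j : ι) (hab : a ≠ b) (hac : a ≠ c) (haj : a ≠ j)
    (hbj : b ≠ j) (hcj : c ≠ j) :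
    (∑ T : Finset ι with (a ∈ T ∧ b ∈ T ∧ T ⊂ univ.erase j), bdiv T) =
      ∑ T : Finset ι with (a ∈ T ∧ c ∈ T ∧ T ⊂ univ.erase j), bdiv T := by
  by_cases hbc : b = c
  · rw [hbc]
  · exact r1_step a b c j hab hac hbc haj hbj hcj

end

theorem p_psi : S_psi := by
  intro ι _ _ j a b hab haj hbj
  have hc : ({j}ᶜ : Finset ι) = univ.erase j := by
    ext t
    rw [mem_compl, mem_singleton, mem_erase]
    exact ⟨fun h => ⟨h, mem_univ t⟩, fun h => h.1⟩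
  have hall : ∀ p ∈ (univ.erase j : Finset ι).offDiag,
      (∑ T : Finset ι with (p.1 ∈ T ∧ p.2 ∈ T ∧ T ⊂ univ.erase j), bdiv T) =
      ∑ T : Finset ι with (a ∈ T ∧ b ∈ T ∧ T ⊂ univ.erase j), bdiv T := by
    rintro ⟨p, q⟩ hp
    rw [mem_offDiag, mem_erase, mem_erase] at hp
    obtain ⟨⟨hpj, _⟩, ⟨hqj, _⟩, hpq⟩ := hp
    simp only at hpj hqj hpq ⊢
    by_cases hpa : p = a
    · subst hpa
      exact r1_step' p q b j hpq hab hpj hqj hbj
    · rw [r1_step' p q a j hpq hpa hpj hqj haj, r1_symm p a j,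
        r1_step' a p b j (Ne.symm hpa) hab haj hpj hbj]
  have hpos : ((univ.erase j : Finset ι).offDiag.card : ℚ) ≠ 0 := by
    have : 0 < (univ.erase j : Finset ι).offDiag.card := by
      refine card_pos.2 ⟨(a, b), ?_⟩
      rw [mem_offDiag]
      exact ⟨mem_erase.2 ⟨haj, mem_univ a⟩, mem_erase.2 ⟨hbj, mem_univ b⟩, hab⟩
    exact_mod_cast this.ne'
  unfold psi psiBranch
  rw [hc, sum_congr rfl hall, sum_const, ← Nat.cast_smul_eq_nsmul ℚ, smul_smul,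
    inv_mul_cancel₀ hpos, one_smul]

end Pool.Agent.HH
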