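import Pool.Agent.Lib.MP_371b18_ag.Stm2

open Finset

namespace Pool.Agent.HH

open Pool.Agent.HHI

private lemma r10_card {ι : Type} [Fintype ι] [DecidableEq ι] (j : ι) (h : 3 ≤ Fintype.card ι) :
    (univ.erase j : Finset ι).card + 1 = Fintype.card ι := by
  rw [card_erase_of_mem (mem_univ j), card_univ]
  omega

private lemma r10_xV {ι : Type} [Fintype ι] [DecidableEq ι] (j : ι) :
    xr j (univ.erase j) = - psi j := if_pos rfl

theorem p_degree_psi (h1 : S_rooted) (h2 : S_flag) (h3 : S_point) : S_degree_psi := by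
  intro ι _ _ j hn φ hφ
  have hV := r10_card j hn
  have hV2 : 2 ≤ (univ.erase j : Finset ι).card := by omega
  obtain ⟨F, hF⟩ := h2 ι (univ.erase j) hV2
  have hp := h3 ι (Chow ι) 1 (univ.erase j) (xr j) (h1 ι j hn) hV2 F hF
  obtain ⟨hF1, hF2, hF3⟩ := hF
  rw [one_mul, one_mul, r10_xV] at hp
  have key : ∀ u : Chow ι, - -u = u := fun u => by ring
  rw [key] at hp
  have hprod : ∏ S ∈ F, xr j S = ∏ S ∈ F, bdiv S :=
    prod_congr rfl (fun S hS => if_neg (hF1 S hS).1.ne)
  rw [hprod] at hp
  have hpt := hφ.point F (by omega) ?_ ?_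
  · rw [hp] at hpt
    have e : (univ.erase j : Finset ι).card - 2 = Fintype.card ι - 3 := by omega
    rw [e] at hpt
    exact hpt
  · intro S hS
    obtain ⟨hSV, hS2⟩ := hF1 S hS
    have hjS : j ∉ S := fun h => by
      have := hSV.1 h
      simp at this
    refine ⟨hS2, ?_, ?_⟩
    · obtain ⟨a, haV, haS⟩ := exists_of_ssubset hSV
      have haj : a ≠ j := (mem_erase.mp haV).1
      have hsub : ({a, j} : Finset ι) ⊆ Sᶜ := by
        intro c hc
        rw [mem_insert, mem_singleton] at hc
        rw [mem_compl]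
        rcases hc with rfl | rfl
        · exact haS
        · exact hjS
      have := card_le_card hsub
      rw [card_pair haj] at this
      exact this
    · intro h
      have h4 := (hF1 _ h).1.1 (mem_compl.mpr hjS)
      simp at h4
  · intro S hS T hT
    rcases hF2 S hS T hT with h | h | h
    · exact Or.inl h
    · exact Or.inr (Or.inl h)
    · refine Or.inr (Or.inr (Or.inl ?_))
      intro c hc
      rw [mem_compl]
      exact disjoint_left.mp h hc

private lemma r10_prod {R σ : Type} [CommRing R] [Algebra ℚ R] (H : Submodule ℚ R) (g : σ → R)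
    (hg : ∀ s, g s ∈ H) (t : Finset σ) (e : σ → ℕ) :
    ∏ s ∈ t, g s ^ e s ∈ H ^ (∑ s ∈ t, e s) := by
  classical
  induction t using Finset.induction_on with
  | empty =>
    rw [prod_empty, sum_empty, pow_zero]
    exact Submodule.mem_one.mpr ⟨1, map_one _⟩
  | insert a t ha ih =>
    rw [prod_insert ha, sum_insert ha, pow_add]
    exact Submodule.mul_mem_mul (Submodule.pow_mem_pow H (hg a) _) ih

private lemma r10_hom {R σ : Type} [CommRing R] [Algebra ℚ R] (f : MvPolynomial σ ℚ →ₐ[ℚ] R)
    (H : Submodule ℚ R) (hX : ∀ s, f (MvPolynomial.X s) ∈ H) (p : MvPolynomial σ ℚ) (d : ℕ)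
    (hp : p.IsHomogeneous d) : f p ∈ H ^ d := by
  rw [p.as_sum, map_sum]
  apply Submodule.sum_mem
  intro s hs
  have hs' : MvPolynomial.coeff s p ≠ 0 := MvPolynomial.mem_support_iff.mp hs
  have hd := hp hs'
  have hd' : ∑ i ∈ s.support, s i = d := by
    rw [← hd, Finsupp.weight_apply, Finsupp.sum]
    simp
  rw [MvPolynomial.monomial_eq, map_mul, Finsupp.prod, map_prod]
  have e1 : f (MvPolynomial.C (MvPolynomial.coeff s p)) = algebraMap ℚ R (MvPolynomial.coeff s p) := by
    rw [← MvPolynomial.algebraMap_eq, AlgHom.commutes]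
  rw [e1, ← Algebra.smul_def]
  apply Submodule.smul_mem
  have e2 : ∏ i ∈ s.support, f (MvPolynomial.X i ^ s i) =
      ∏ i ∈ s.support, f (MvPolynomial.X i) ^ s i :=
    prod_congr rfl (fun i _ => map_pow f _ _)
  rw [e2, ← hd']
  exact r10_prod H (fun i => f (MvPolynomial.X i)) hX s.support s

private lemma r10_zero {ι : Type} [Fintype ι] [DecidableEq ι] (p : MvPolynomial (Finset ι) ℚ)
    (h : KeelRel ι p) : cl p = 0 :=
  Ideal.Quotient.eq_zero_iff_mem.mpr (Ideal.subset_span h)

private lemma r10_compl {ι : Type} [Fintype ι] [DecidableEq ι] (S : Finset ι) :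
    bdiv S = bdiv Sᶜ := by
  have h := r10_zero _ (KeelRel.compl S)
  unfold cl at h
  rw [map_sub] at h
  exact sub_eq_zero.mp h

private lemma r10_mem {ι : Type} [Fintype ι] [DecidableEq ι] (j : ι) (S : Finset ι) :
    bdiv S ∈ H1 (univ.erase j) (xr j) := by
  have hstab : ∀ T : Finset ι, j ∉ T → 2 ≤ T.card → 2 ≤ Tᶜ.card →
      bdiv T ∈ H1 (univ.erase j) (xr j) := by
    intro T hj h2 h3
    apply Submodule.subset_span
    refine ⟨T, ?_, h2, ?_⟩
    · intro c hc
      rw [mem_erase]
      exact ⟨fun h => hj (h ▸ hc), mem_univ c⟩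
    · have hne : T ≠ univ.erase j := by
        intro h
        rw [h, compl_erase, compl_univ] at h3
        simp at h3
      exact (if_neg hne).symm
  by_cases hu : S.card ≤ 1 ∨ Sᶜ.card ≤ 1
  · have : bdiv S = 0 := r10_zero _ (KeelRel.unstable S hu)
    rw [this]
    exact Submodule.zero_mem _
  · push Not at hu
    by_cases hj : j ∈ S
    · rw [r10_compl S]
      apply hstab Sᶜ
      · rw [mem_compl, not_not]
        exact hj
      · omega
      · rw [compl_compl]
        omega
    · exact hstab S hj (by omega) (by omega)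

theorem p_degree_unique (h1 : S_rooted) (h2 : S_span) (h3 : S_degree_psi) :
    S_degree_unique := by
  intro ι _ _ hn φ ψ hφ hψ
  have hne : Nonempty ι := Fintype.card_pos_iff.mp (by omega)
  obtain ⟨j⟩ := hne
  have hV := r10_card j hn
  have hV2 : 2 ≤ (univ.erase j : Finset ι).card := by omega
  have hhom : ∀ (d : ℕ) (p : MvPolynomial (Finset ι) ℚ), p.IsHomogeneous d →
      φ (cl p) = ψ (cl p) := by
    intro d p hp
    by_cases hd : d + 3 = Fintype.card ι
    · have hmem : cl p ∈ (H1 (univ.erase j) (xr j)) ^ ((univ.erase j : Finset ι).card - 2) := by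
        have e : (univ.erase j : Finset ι).card - 2 = d := by omega
        rw [e]
        exact r10_hom (Ideal.Quotient.mkₐ ℚ (Ideal.span {p | KeelRel ι p})) _
          (fun S => r10_mem j S) p d hp
      obtain ⟨c, hc⟩ := h2 ι (Chow ι) 1 (univ.erase j) (xr j) (h1 ι j hn) hV2 (cl p) hmem
      have key : ∀ u : Chow ι, - -u = u := fun u => by ring
      rw [one_mul, one_mul, r10_xV, key] at hc
      have e : (univ.erase j : Finset ι).card - 2 = Fintype.card ι - 3 := by omega
      rw [e] at hc
      rw [hc, map_smul, map_smul, h3 ι j hn φ hφ, h3 ι j hn ψ hψ]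
    · rw [hφ.graded d p hp hd, hψ.graded d p hp hd]
  apply LinearMap.ext
  intro x
  obtain ⟨p, rfl⟩ := Ideal.Quotient.mk_surjective x
  have hsum := MvPolynomial.sum_homogeneousComponent p
  show φ (cl p) = ψ (cl p)
  rw [← hsum]
  unfold cl
  rw [map_sum, map_sum, map_sum]
  exact sum_congr rfl (fun d _ => hhom d _ (MvPolynomial.homogeneousComponent_isHomogeneous d p))

end Pool.Agent.HH
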