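import Pool.Agent.Lib.MP_371b18_ag.Stm2

open Finset

namespace Pool.Agent.HH

open Pool.Agent.HHI

private lemma r2_zero {ι : Type} [Fintype ι] [DecidableEq ι] (p : MvPolynomial (Finset ι) ℚ)
    (h : KeelRel ι p) : cl p = 0 :=
  Ideal.Quotient.eq_zero_iff_mem.mpr (Ideal.subset_span h)

private lemma r2_compl {ι : Type} [Fintype ι] [DecidableEq ι] (S : Finset ι) :
    bdiv S = bdiv Sᶜ := by
  have h := r2_zero _ (KeelRel.compl S)
  unfold cl at h
  rw [map_sub] at h
  exact sub_eq_zero.mp h

theorem p_rooted (h : S_psi) : S_rooted := by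
  intro ι _ _ j hn
  constructor
  · intro S T hS hT hS2 hT2 hc
    have hSV : S ≠ univ.erase j := fun e => hc (Or.inr (Or.inl (e ▸ hT)))
    have hTV : T ≠ univ.erase j := fun e => hc (Or.inl (e ▸ hS))
    have e1 : xr j S = bdiv S := if_neg hSV
    have e2 : xr j T = bdiv T := if_neg hTV
    have hcr : ¬ (S ⊆ T ∨ T ⊆ S ∨ S ⊆ Tᶜ ∨ Tᶜ ⊆ S) := by
      rintro (h1 | h1 | h1 | h1)
      · exact hc (Or.inl h1)
      · exact hc (Or.inr (Or.inl h1))
      · apply hc
        refine Or.inr (Or.inr ?_)
        rw [disjoint_left]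
        intro a ha
        exact mem_compl.mp (h1 ha)
      · have hj : j ∈ Tᶜ := by
          rw [mem_compl]
          intro hjT
          exact (mem_erase.mp (hT hjT)).1 rfl
        exact (mem_erase.mp (hS (h1 hj))).1 rfl
    have h2 := r2_zero _ (KeelRel.cross S T hcr)
    unfold cl at h2
    rw [map_mul] at h2
    rw [one_mul, e1, e2]
    exact h2
  · intro a ha b hb hab
    have haj := (mem_erase.mp ha).1
    have hbj := (mem_erase.mp hb).1
    rw [one_mul]
    have hV : (univ.erase j : Finset ι) ∈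
        (univ.erase j).powerset.filter (fun S : Finset ι => a ∈ S ∧ b ∈ S) := by
      rw [mem_filter, mem_powerset]
      exact ⟨Subset.refl _, ha, hb⟩
    rw [← add_sum_erase _ _ hV]
    have e1 : xr j (univ.erase j) = - psi j := if_pos rfl
    have e2 : ∑ S ∈ ((univ.erase j).powerset.filter
        (fun S : Finset ι => a ∈ S ∧ b ∈ S)).erase (univ.erase j), xr j S = psi j := by
      rw [h ι j a b hab haj hbj]
      apply sum_congr
      · ext T
        simp only [mem_erase, mem_filter, mem_powerset, mem_univ, true_and]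
        constructor
        · rintro ⟨h1, h2, h3, h4⟩
          exact ⟨h3, h4, h2, fun h' => h1 (Subset.antisymm h2 h')⟩
        · rintro ⟨h3, h4, h5⟩
          exact ⟨h5.ne, h5.1, h3, h4⟩
      · intro T hT
        rw [mem_filter] at hT
        exact if_neg hT.2.2.2.ne
    rw [e1, e2]
    have key : ∀ u : Chow ι, -u + u = 0 := fun u => by ring
    exact key _

theorem p_psi_leaf (h : S_psi) : S_psi_leaf := by
  intro ι _ _ i j hij hn
  obtain ⟨b, hb⟩ : ∃ b : ι, b ∉ ({i, j} : Finset ι) := by
    by_contra hcon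
    push Not at hcon
    have h1 : (univ : Finset ι) ⊆ {i, j} := fun c _ => hcon c
    have h2 := card_le_card h1
    rw [card_univ] at h2
    have h3 := card_le_two (a := i) (b := j)
    omega
  rw [mem_insert, mem_singleton, not_or] at hb
  obtain ⟨hbi, hbj⟩ := hb
  have hlin := (p_rooted h ι j hn).lin i (mem_erase.mpr ⟨hij, mem_univ i⟩) b
    (mem_erase.mpr ⟨hbj, mem_univ b⟩) (Ne.symm hbi)
  rw [one_mul] at hlin
  rw [h ι i j b (Ne.symm hbj) (Ne.symm hij) hbi]
  unfold yp
  rw [← sum_filter_add_sum_filter_not ((univ.erase j).powerset.filter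
    (fun T : Finset ι => {i} ⊂ T)) (fun T : Finset ι => b ∈ T) (xr j)]
  have e1 : ∑ T ∈ ((univ.erase j).powerset.filter (fun T : Finset ι => {i} ⊂ T)).filter
      (fun T => b ∈ T), xr j T = 0 := by
    rw [← hlin, filter_filter]
    apply sum_congr _ (fun _ _ => rfl)
    ext T
    simp only [mem_filter, mem_powerset]
    constructor
    · rintro ⟨h1, h2, h3⟩
      exact ⟨h1, h2.1 (mem_singleton_self i), h3⟩
    · rintro ⟨h1, h2, h3⟩
      refine ⟨h1, ⟨singleton_subset_iff.mpr h2, ?_⟩, h3⟩
      intro h4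
      exact hbi (mem_singleton.mp (h4 h3))
  rw [e1, zero_add, filter_filter]
  refine sum_bij' (fun T _ => Tᶜ) (fun T _ => Tᶜ) ?_ ?_ ?_ ?_ ?_
  · intro T hT
    rw [mem_filter] at hT
    obtain ⟨-, h1, h2, h3⟩ := hT
    have hiT : i ∉ T := fun hi => (mem_erase.mp (h3.1 hi)).1 rfl
    rw [mem_filter, mem_powerset]
    refine ⟨?_, ⟨singleton_subset_iff.mpr (mem_compl.mpr hiT), ?_⟩, ?_⟩
    · intro c hc
      rw [mem_erase]
      refine ⟨?_, mem_univ c⟩
      rintro rfl
      exact (mem_compl.mp hc) h1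
    · intro h4
      apply h3.2
      intro c hc
      by_contra hcT
      have := mem_singleton.mp (h4 (mem_compl.mpr hcT))
      exact (mem_erase.mp hc).1 this
    · rw [mem_compl, not_not]
      exact h2
  · intro T hT
    rw [mem_filter, mem_powerset] at hT
    obtain ⟨h1, h2, h3⟩ := hT
    have hiT : i ∈ T := h2.1 (mem_singleton_self i)
    rw [mem_filter]
    refine ⟨mem_univ _, ?_, mem_compl.mpr h3, ?_, ?_⟩
    · rw [mem_compl]
      intro hjT
      exact (mem_erase.mp (h1 hjT)).1 rfl
    · intro c hc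
      rw [mem_erase]
      refine ⟨?_, mem_univ c⟩
      rintro rfl
      exact (mem_compl.mp hc) hiT
    · intro h4
      apply h2.2
      intro c hc
      rw [mem_singleton]
      by_contra hci
      exact (mem_compl.mp (h4 (mem_erase.mpr ⟨hci, mem_univ c⟩))) hc
  · intro T _
    exact compl_compl T
  · intro T _
    exact compl_compl T
  · intro T hT
    rw [mem_filter] at hT
    obtain ⟨-, h1, h2, h3⟩ := hT
    have hne : Tᶜ ≠ univ.erase j := by
      intro e
      have : b ∈ Tᶜ := by
        rw [e]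
        exact mem_erase.mpr ⟨hbj, mem_univ b⟩
      exact (mem_compl.mp this) h2
    have e2 : xr j Tᶜ = bdiv Tᶜ := if_neg hne
    rw [e2]
    exact r2_compl T

end Pool.Agent.HH
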