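import Pool.Agent.Lib.MP_371b18_ag.Stm2

open Finset

namespace Pool.Agent.HH

open Pool.Agent.HHI

private lemma r4_pair {ι : Type} [Fintype ι] [DecidableEq ι] (j : ι) (S : Finset ι)
    (hS : S ⊂ univ.erase j) (hsys : Sys (1 : Chow ι) (univ.erase j) (xr j)) (a b : ι) (ha : a ∈ S)
    (hb : b ∈ S) (hab : a ≠ b) :
    bdiv S * ∑ T : Finset ι with (a ∈ T ∧ b ∈ T ∧ T ⊂ S), bdiv T =
      bdiv S * (-(xr j S + yp (univ.erase j) (xr j) S)) := by
  have hSV : S ⊆ univ.erase j := hS.1
  have hSne : S ≠ univ.erase j := hS.ne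
  have hxS : xr j S = bdiv S := if_neg hSne
  have hS2 : 2 ≤ S.card := by
    have h1 : ({a, b} : Finset ι) ⊆ S := by
      intro c hc
      rw [mem_insert, mem_singleton] at hc
      rcases hc with rfl | rfl
      · exact ha
      · exact hb
    have h2 := card_le_card h1
    rw [card_pair hab] at h2
    exact h2
  have hlin := hsys.lin a (hSV ha) b (hSV hb) hab
  rw [one_mul] at hlin
  have hpt : ∀ T ∈ (univ.erase j).powerset.filter (fun T : Finset ι => a ∈ T ∧ b ∈ T),
      bdiv S * xr j T = (if T ⊂ S then bdiv S * xr j T else 0) +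
        (if T = S then bdiv S * xr j T else 0) + (if S ⊂ T then bdiv S * xr j T else 0) := by
    intro T hT
    rw [mem_filter, mem_powerset] at hT
    obtain ⟨hTV, haT, hbT⟩ := hT
    by_cases h1 : T ⊂ S
    · rw [if_pos h1, if_neg h1.ne, if_neg (fun h => h1.2 h.1), add_zero, add_zero]
    · by_cases h2 : T = S
      · rw [if_neg h1, if_pos h2, if_neg (fun h => h.ne h2.symm), add_zero, zero_add]
      · by_cases h3 : S ⊂ T
        · rw [if_neg h1, if_neg h2, if_pos h3, add_zero, zero_add]
        · rw [if_neg h1, if_neg h2, if_neg h3, add_zero, add_zero]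
          have hT2 : 2 ≤ T.card := by
            have h4 : ({a, b} : Finset ι) ⊆ T := by
              intro c hc
              rw [mem_insert, mem_singleton] at hc
              rcases hc with rfl | rfl
              · exact haT
              · exact hbT
            have h5 := card_le_card h4
            rw [card_pair hab] at h5
            exact h5
          have hnc : ¬ Compat S T := by
            rintro (h | h | h)
            · exact h3 ⟨h, fun h' => h2 (Subset.antisymm h' h)⟩
            · exact h1 ⟨h, fun h' => h2 (Subset.antisymm h h')⟩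
            · exact (disjoint_left.mp h ha) haT
          have hc := hsys.cross S T hSV hTV hS2 hT2 hnc
          rw [one_mul, hxS] at hc
          exact hc
  have hsum : ∑ T ∈ (univ.erase j).powerset with (a ∈ T ∧ b ∈ T), bdiv S * xr j T = 0 := by
    rw [← mul_sum, hlin, mul_zero]
  rw [sum_congr rfl hpt, sum_add_distrib, sum_add_distrib] at hsum
  have e1 : ∑ T ∈ (univ.erase j).powerset with (a ∈ T ∧ b ∈ T),
      (if T ⊂ S then bdiv S * xr j T else 0) =
      bdiv S * ∑ T : Finset ι with (a ∈ T ∧ b ∈ T ∧ T ⊂ S), bdiv T := by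
    rw [mul_sum, ← sum_filter, filter_filter]
    apply sum_congr
    · ext T
      simp only [mem_filter, mem_powerset, mem_univ, true_and]
      constructor
      · rintro ⟨_, ⟨h1, h2⟩, h3⟩
        exact ⟨h1, h2, h3⟩
      · rintro ⟨h1, h2, h3⟩
        exact ⟨h3.1.trans hSV, ⟨h1, h2⟩, h3⟩
    · intro T hT
      simp only [mem_filter, mem_univ, true_and] at hT
      have : T ≠ univ.erase j := by
        intro h
        exact hT.2.2.2 (h ▸ hSV)
      have hx : xr j T = bdiv T := if_neg this
      rw [hx]
  have e2 : ∑ T ∈ (univ.erase j).powerset with (a ∈ T ∧ b ∈ T),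
      (if T = S then bdiv S * xr j T else 0) = bdiv S * xr j S := by
    rw [sum_ite_eq' _ S (fun T => bdiv S * xr j T), if_pos]
    rw [mem_filter, mem_powerset]
    exact ⟨hSV, ha, hb⟩
  have e3 : ∑ T ∈ (univ.erase j).powerset with (a ∈ T ∧ b ∈ T),
      (if S ⊂ T then bdiv S * xr j T else 0) = bdiv S * yp (univ.erase j) (xr j) S := by
    unfold yp
    rw [mul_sum, ← sum_filter, filter_filter]
    apply sum_congr _ (fun _ _ => rfl)
    ext T
    simp only [mem_filter, mem_powerset]
    constructor
    · rintro ⟨h0, _, h3⟩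
      exact ⟨h0, h3⟩
    · rintro ⟨h0, h3⟩
      exact ⟨h0, ⟨h3.1 ha, h3.1 hb⟩, h3⟩
  rw [e1, e2, e3] at hsum
  have key : ∀ u v w z : Chow ι, u + z * v + z * w = 0 → u = z * (-(v + w)) := by
    intro u v w z h
    linear_combination h
  exact key _ _ _ _ hsum

theorem p_branch_in (h : S_rooted) : S_branch_in := by
  intro ι _ _ j S hS hS2
  have hcard : 3 ≤ Fintype.card ι := by
    have h1 := card_lt_card hS
    have h2 : (univ.erase j : Finset ι).card ≤ Fintype.card ι := card_le_univ _
    omega
  have hsys := h ι j hcard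
  unfold psiBranch
  have hne : (S.offDiag.card : ℚ) ≠ 0 := by
    have : S.offDiag.card ≠ 0 := by
      rw [offDiag_card]
      have : S.card < S.card * S.card := by nlinarith
      omega
    exact_mod_cast this
  rw [mul_smul_comm, mul_sum]
  have hall : ∀ p ∈ S.offDiag,
      bdiv S * ∑ T : Finset ι with (p.1 ∈ T ∧ p.2 ∈ T ∧ T ⊂ S), bdiv T =
      bdiv S * (-(xr j S + yp (univ.erase j) (xr j) S)) := by
    intro p hp
    rw [mem_offDiag] at hp
    exact r4_pair j S hS hsys p.1 p.2 hp.1 hp.2.1 hp.2.2
  rw [sum_congr rfl hall, sum_const, ← Nat.cast_smul_eq_nsmul ℚ, smul_smul, inv_mul_cancel₀ hne,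
    one_smul]

end Pool.Agent.HH
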