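import Pool.Agent.Lib.MP_371b18_ag.Stm2

/-!
Piece R5 of MP_371b18_ag: the branch class on the outer side.
-/

open Finset

namespace Pool.Agent.HH

open Pool.Agent.HHI

private lemma r5_compl {ι : Type} [Fintype ι] [DecidableEq ι] (S : Finset ι) :
    bdiv Sᶜ = bdiv S := by
  have h : cl (MvPolynomial.X S - MvPolynomial.X Sᶜ) = 0 :=
    Ideal.Quotient.eq_zero_iff_mem.mpr (Ideal.subset_span (KeelRel.compl S))
  unfold bdiv
  unfold cl at h ⊢
  rw [map_sub, sub_eq_zero] at h
  exact h.symm

/-- `D_S` times the sum over the sets which contain `S` and `b` is zero -/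
private lemma r5_one {α : Type} [DecidableEq α] {R : Type} [CommRing R] [Algebra ℚ R]
    {V : Finset α} {x : Finset α → R} (hx : Sys (1 : R) V x) {S : Finset α} (hSV : S ⊆ V)
    (hS : 2 ≤ S.card) {b : α} (hb : b ∈ V) (hbS : b ∉ S) :
    ∑ T ∈ V.powerset with (S ⊂ T ∧ b ∈ T), x S * x T = 0 := by
  obtain ⟨s, hs⟩ : S.Nonempty := Finset.card_pos.mp (by omega)
  have hsb : s ≠ b := fun e => hbS (e ▸ hs)
  have h0 := hx.lin s (hSV hs) b hb hsb
  rw [one_mul] at h0
  have h1 : ∑ T ∈ V.powerset with (s ∈ T ∧ b ∈ T), x S * x T = 0 := by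
    rw [← Finset.mul_sum, h0, mul_zero]
  rw [← h1]
  apply Finset.sum_subset
  · intro T hT
    rw [Finset.mem_filter] at hT ⊢
    exact ⟨hT.1, hT.2.1.1 hs, hT.2.2⟩
  · intro T hT hT'
    rw [Finset.mem_filter, Finset.mem_powerset] at hT hT'
    have hc : ¬ Compat S T := by
      rintro (h | h | h)
      · exact hT' ⟨hT.1, ⟨h, fun h' => hbS (h' hT.2.2)⟩, hT.2.2⟩
      · exact hbS (h hT.2.2)
      · exact (Finset.disjoint_left.mp h) hs hT.2.1
    have h2 : 2 ≤ T.card := by
      have : ({s, b} : Finset α) ⊆ T := by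
        intro y hy
        rw [Finset.mem_insert, Finset.mem_singleton] at hy
        rcases hy with rfl | rfl
        · exact hT.2.1
        · exact hT.2.2
      have h3 := Finset.card_le_card this
      rwa [Finset.card_pair hsb] at h3
    have := hx.cross S T hSV hT.1 hS h2 hc
    rwa [one_mul] at this

private lemma r5_two {α : Type} [DecidableEq α] {R : Type} [CommRing R] [Algebra ℚ R]
    {V : Finset α} {x : Finset α → R} (hx : Sys (1 : R) V x) {S : Finset α} (hSV : S ⊆ V)
    (hS : 2 ≤ S.card) {a b : α} (ha : a ∈ V) (haS : a ∉ S) (hb : b ∈ V)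
    (hab : a ≠ b) :
    (∑ T ∈ V.powerset with (S ⊂ T ∧ a ∈ T ∧ b ∈ T), x S * x T) +
      ∑ T ∈ V.powerset with (a ∈ T ∧ b ∈ T ∧ Disjoint T S), x S * x T = 0 := by
  obtain ⟨s, hs⟩ : S.Nonempty := Finset.card_pos.mp (by omega)
  have h0 := hx.lin a ha b hb hab
  rw [one_mul] at h0
  have h1 : ∑ T ∈ V.powerset with (a ∈ T ∧ b ∈ T), x S * x T = 0 := by
    rw [← Finset.mul_sum, h0, mul_zero]
  rw [← Finset.sum_union]
  · rw [← h1]
    apply Finset.sum_subset
    · intro T hT
      rw [Finset.mem_union, Finset.mem_filter, Finset.mem_filter] at hT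
      rw [Finset.mem_filter]
      rcases hT with hT | hT
      · exact ⟨hT.1, hT.2.2.1, hT.2.2.2⟩
      · exact ⟨hT.1, hT.2.1, hT.2.2.1⟩
    · intro T hT hT'
      rw [Finset.mem_union, Finset.mem_filter, Finset.mem_filter, not_or] at hT'
      rw [Finset.mem_filter] at hT
      have hc : ¬ Compat S T := by
        rintro (h | h | h)
        · exact hT'.1 ⟨hT.1, ⟨h, fun h' => haS (h' hT.2.1)⟩, hT.2.1, hT.2.2⟩
        · exact haS (h hT.2.1)
        · exact hT'.2 ⟨hT.1, hT.2.1, hT.2.2, h.symm⟩
      have h2 : 2 ≤ T.card := by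
        have : ({a, b} : Finset α) ⊆ T := by
          intro y hy
          rw [Finset.mem_insert, Finset.mem_singleton] at hy
          rcases hy with rfl | rfl
          · exact hT.2.1
          · exact hT.2.2
        have h3 := Finset.card_le_card this
        rwa [Finset.card_pair hab] at h3
      have := hx.cross S T hSV (Finset.mem_powerset.mp hT.1) hS h2 hc
      rwa [one_mul] at this
  · rw [Finset.disjoint_left]
    intro T hT hT'
    rw [Finset.mem_filter] at hT hT'
    exact (Finset.disjoint_left.mp hT'.2.2.2) (hT.2.1.1 hs) hs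

theorem p_branch_out (h : S_rooted) (h2 : S_psi) : S_branch_out := by
  intro ι _ _ j S hSV hS
  clear h2
  set V : Finset ι := univ.erase j with hV
  obtain ⟨b0, hb0, hb0S⟩ := Finset.exists_of_ssubset hSV
  have hcard : 3 ≤ Fintype.card ι := by
    have e1 := Finset.card_lt_card hSV
    rw [hV, Finset.card_erase_of_mem (Finset.mem_univ j), Finset.card_univ] at e1
    omega
  have hx := h ι j hcard
  rw [← hV] at hx
  have hxS : xr j S = bdiv S := by
    unfold xr
    rw [if_neg hSV.ne]
  have hjS : j ∉ S := fun hj => Finset.notMem_erase j univ (hSV.1 hj)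
  have hxT : ∀ T : Finset ι, T ≠ V → xr j T = bdiv T := by
    intro T hT
    unfold xr
    rw [if_neg hT]
  have hVm : ∀ y : ι, y ∈ V ↔ y ≠ j := by
    intro y; rw [hV, Finset.mem_erase]; simp
  -- the main identity for one pair
  have main : ∀ a b : ι, a ∈ Sᶜ → b ∈ Sᶜ → a ≠ b →
      bdiv S * ∑ T : Finset ι with (a ∈ T ∧ b ∈ T ∧ T ⊂ Sᶜ), bdiv T
        = bdiv S * yp V (xr j) S := by
    intro a b ha hb hab
    rw [Finset.mem_compl] at ha hb
    -- split according to `j`
    have e1 : ∑ T : Finset ι with (a ∈ T ∧ b ∈ T ∧ T ⊂ Sᶜ), bdiv T =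
        (∑ T ∈ V.powerset with (S ⊂ T ∧ a ∉ T ∧ b ∉ T), xr j T) +
        ∑ T ∈ V.powerset with (a ∈ T ∧ b ∈ T ∧ Disjoint T S), xr j T := by
      rw [← Finset.sum_filter_add_sum_filter_not _ (fun T => j ∈ T)]
      congr 1
      · refine Finset.sum_nbij' (fun T => Tᶜ) (fun T => Tᶜ) ?_ ?_ ?_ ?_ ?_
        · intro T hT
          rw [Finset.mem_filter, Finset.mem_filter] at hT
          obtain ⟨⟨-, h1, h2, h3⟩, h4⟩ := hT
          rw [Finset.mem_filter, Finset.mem_powerset]
          refine ⟨?_, ?_, ?_, ?_⟩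
          · intro y hy
            rw [hVm]
            rintro rfl
            exact (Finset.mem_compl.mp hy) h4
          · rw [← compl_compl S]
            exact Finset.compl_ssubset_compl.mpr h3
          · rw [Finset.mem_compl, not_not]; exact h1
          · rw [Finset.mem_compl, not_not]; exact h2
        · intro T hT
          rw [Finset.mem_filter, Finset.mem_powerset] at hT
          obtain ⟨h0, h1, h2, h3⟩ := hT
          rw [Finset.mem_filter, Finset.mem_filter]
          refine ⟨⟨Finset.mem_univ _, ?_, ?_, ?_⟩, ?_⟩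
          · exact Finset.mem_compl.mpr h2
          · exact Finset.mem_compl.mpr h3
          · exact Finset.compl_ssubset_compl.mpr h1
          · rw [Finset.mem_compl]
            intro hj
            exact (hVm j).mp (h0 hj) rfl
        · intro T _; exact compl_compl T
        · intro T _; exact compl_compl T
        · intro T hT
          rw [Finset.mem_filter, Finset.mem_filter] at hT
          obtain ⟨⟨-, h1, h2, h3⟩, h4⟩ := hT
          rw [hxT, r5_compl]
          intro hT'
          have hnot : ∀ y, y ∈ T → y = j := by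
            intro y hy
            by_contra hyj
            have : y ∈ Tᶜ := by rw [hT', hVm]; exact hyj
            exact (Finset.mem_compl.mp this) hy
          exact hab ((hnot a h1).trans (hnot b h2).symm)
      · refine Finset.sum_congr ?_ ?_
        · ext T
          rw [Finset.mem_filter, Finset.mem_filter, Finset.mem_filter, Finset.mem_powerset]
          constructor
          · rintro ⟨⟨-, h1, h2, h3⟩, h4⟩
            refine ⟨?_, h1, h2, ?_⟩
            · intro y hy
              rw [hVm]
              rintro rfl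
              exact h4 hy
            · rw [Finset.disjoint_left]
              intro y hy
              exact Finset.mem_compl.mp (h3.1 hy)
          · rintro ⟨h0, h1, h2, h3⟩
            have hjT : j ∉ T := fun hj => (hVm j).mp (h0 hj) rfl
            refine ⟨⟨Finset.mem_univ _, h1, h2, ?_⟩, hjT⟩
            refine ⟨?_, ?_⟩
            · intro y hy
              rw [Finset.mem_compl]
              exact (Finset.disjoint_left.mp h3) hy
            · intro hsub
              exact hjT (hsub (Finset.mem_compl.mpr hjS))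
        · intro T hT
          rw [Finset.mem_filter, Finset.mem_powerset] at hT
          obtain ⟨h0, h1, h2, h3⟩ := hT
          rw [hxT]
          intro hTV
          obtain ⟨s, hs⟩ : S.Nonempty := Finset.card_pos.mp (by omega)
          exact (Finset.disjoint_left.mp h3) (hTV ▸ hSV.1 hs) hs
    have e2 : ∑ T ∈ V.powerset with (S ⊂ T ∧ a ∉ T ∧ b ∉ T), bdiv S * xr j T =
        (∑ T ∈ V.powerset with S ⊂ T, bdiv S * xr j T)
        - (∑ T ∈ V.powerset with (S ⊂ T ∧ a ∈ T), bdiv S * xr j T)
        - (∑ T ∈ V.powerset with (S ⊂ T ∧ b ∈ T), bdiv S * xr j T)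
        + ∑ T ∈ V.powerset with (S ⊂ T ∧ a ∈ T ∧ b ∈ T), bdiv S * xr j T := by
      simp only [Finset.sum_filter]
      rw [← Finset.sum_sub_distrib, ← Finset.sum_sub_distrib, ← Finset.sum_add_distrib]
      refine Finset.sum_congr rfl fun T _ => ?_
      by_cases c1 : S ⊂ T <;> by_cases c2 : a ∈ T <;> by_cases c3 : b ∈ T <;> simp [c1, c2, c3]
    have e3 : ∀ y : ι, y ∉ S →
        ∑ T ∈ V.powerset with (S ⊂ T ∧ y ∈ T), bdiv S * xr j T = 0 := by
      intro y hy
      by_cases hyj : y = j
      · apply Finset.sum_eq_zero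
        intro T hT
        rw [Finset.mem_filter, Finset.mem_powerset] at hT
        exact absurd hyj ((hVm y).mp (hT.1 hT.2.2))
      · have := r5_one hx hSV.1 hS ((hVm y).mpr hyj) hy
        rwa [hxS] at this
    have e4 : (∑ T ∈ V.powerset with (S ⊂ T ∧ a ∈ T ∧ b ∈ T), bdiv S * xr j T) +
        ∑ T ∈ V.powerset with (a ∈ T ∧ b ∈ T ∧ Disjoint T S), bdiv S * xr j T = 0 := by
      by_cases hj : a = j ∨ b = j
      · rw [Finset.sum_eq_zero, Finset.sum_eq_zero, add_zero]
        · intro T hT
          rw [Finset.mem_filter, Finset.mem_powerset] at hT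
          rcases hj with hj | hj
          · exact absurd hj ((hVm a).mp (hT.1 hT.2.1))
          · exact absurd hj ((hVm b).mp (hT.1 hT.2.2.1))
        · intro T hT
          rw [Finset.mem_filter, Finset.mem_powerset] at hT
          rcases hj with hj | hj
          · exact absurd hj ((hVm a).mp (hT.1 hT.2.2.1))
          · exact absurd hj ((hVm b).mp (hT.1 hT.2.2.2))
      · rw [not_or] at hj
        have := r5_two hx hSV.1 hS ((hVm a).mpr hj.1) ha ((hVm b).mpr hj.2) hab
        rwa [hxS] at this
    rw [e1, mul_add, Finset.mul_sum, Finset.mul_sum, e2, e3 a ha, e3 b hb]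
    unfold yp
    rw [Finset.mul_sum, sub_zero, sub_zero, add_assoc, e4, add_zero]
  -- average
  unfold psiBranch
  rw [mul_smul_comm, Finset.mul_sum]
  have hsum : ∑ p ∈ Sᶜ.offDiag,
      bdiv S * ∑ T : Finset ι with (p.1 ∈ T ∧ p.2 ∈ T ∧ T ⊂ Sᶜ), bdiv T =
      ∑ _p ∈ Sᶜ.offDiag, bdiv S * yp V (xr j) S := by
    refine Finset.sum_congr rfl fun p hp => ?_
    rw [Finset.mem_offDiag] at hp
    exact main p.1 p.2 hp.1 hp.2.1 hp.2.2
  rw [hsum, Finset.sum_const, ← Nat.cast_smul_eq_nsmul ℚ, smul_smul, inv_mul_cancel₀, one_smul]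
  have hne : (Sᶜ.offDiag).Nonempty := by
    refine ⟨(j, b0), ?_⟩
    rw [Finset.mem_offDiag]
    refine ⟨Finset.mem_compl.mpr hjS, Finset.mem_compl.mpr hb0S, ?_⟩
    intro e
    exact (hVm b0).mp hb0 e.symm
  exact_mod_cast (Finset.card_pos.mpr hne).ne'

end Pool.Agent.HH
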