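import Pool.Agent.Lib.MP_371b18_ag.Stm2

/-!
R6: the Chern character of the Hodge bundle as a rooted power sum class. (helper45)
-/

open Finset

namespace Pool.Agent.HH

open Pool.Agent.HHI

theorem r6_even {k : ℕ} (hk : Even k) (hk1 : 1 ≤ k) : bco k = 0 := by
  have hodd : Odd (k + 1) := hk.add_one
  have h1 := Polynomial.bernoulli_eval_one_sub (k + 1) (1 / 2)
  have h2 := Polynomial.bernoulli_eval_one_sub (k + 1) 0
  rw [hodd.neg_one_pow] at h1 h2
  have e1 : (1 : ℚ) - 1 / 2 = 1 / 2 := by norm_num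
  rw [e1] at h1
  rw [sub_zero, Polynomial.bernoulli_eval_one, Polynomial.bernoulli_eval_zero] at h2
  have h3 : _root_.bernoulli (k + 1) = bernoulli' (k + 1) :=
    bernoulli_eq_bernoulli'_of_ne_one (by omega)
  have h4 : (Polynomial.bernoulli (k + 1)).eval (1 / 2 : ℚ) = 0 := by linarith
  have h5 : _root_.bernoulli (k + 1) = 0 := by linarith
  unfold bco
  rw [h4, Polynomial.bernoulli_eval_zero, h5]
  simp

section

variable {ι : Type} [Fintype ι] [DecidableEq ι]

theorem r6_compl (S : Finset ι) : bdiv Sᶜ = bdiv S := by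
  symm
  unfold bdiv cl
  rw [Ideal.Quotient.eq]
  exact Ideal.subset_span (KeelRel.compl S)

/-- the boundary summand -/
noncomputable def r6T (k : ℕ) (S : Finset ι) : Chow ι :=
  bdiv S * ∑ a ∈ range k, psiBranch S ^ a * (- psiBranch Sᶜ) ^ (k - 1 - a)

theorem r6_pow {R : Type} [CommRing R] {μ a b : R} (h : μ * a = μ * b) (k : ℕ) :
    μ * a ^ k = μ * b ^ k := by
  induction k with
  | zero => simp
  | succ k ih =>
    calc μ * a ^ (k + 1) = (μ * a ^ k) * a := by ring
      _ = (μ * b ^ k) * a := by rw [ih]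
      _ = b ^ k * (μ * a) := by ring
      _ = b ^ k * (μ * b) := by rw [h]
      _ = μ * b ^ (k + 1) := by ring

theorem r6_sign {R : Type} [CommRing R] (p q : R) {a b : ℕ} (h : Even (a + b)) :
    p ^ a * (-q) ^ b = (-p) ^ a * q ^ b := by
  rw [Nat.even_add] at h
  rcases Nat.even_or_odd a with ha | ha
  · rw [ha.neg_pow, (h.1 ha).neg_pow]
  · have hb : Odd b := by
      rw [← Nat.not_even_iff_odd] at ha ⊢
      exact fun hb => ha (h.2 hb)
    rw [ha.neg_pow, hb.neg_pow]
    ring

theorem r6_mul_neg {R : Type} [CommRing R] {a b c : R} (h : a * b = a * c) :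
    a * (-b) = a * (-c) := by
  rw [mul_neg, mul_neg, h]

theorem r6_odd {R : Type} [CommRing R] (a : R) {k : ℕ} (hk : Odd k) :
    0 - (-a) ^ k = a ^ k := by
  rw [hk.neg_pow]
  ring

theorem r6_T_compl {k : ℕ} (hk : Odd k) (S : Finset ι) : r6T k Sᶜ = r6T k S := by
  unfold r6T
  rw [r6_compl, compl_compl]
  congr 1
  rw [← Finset.sum_range_reflect]
  apply Finset.sum_congr rfl
  intro a ha
  rw [mem_range] at ha
  have h1 : k - 1 - (k - 1 - a) = a := by omega
  rw [h1]
  have h2 : Even (a + (k - 1 - a)) := by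
    have : a + (k - 1 - a) = k - 1 := by omega
    rw [this]
    obtain ⟨c, hc⟩ := hk
    exact ⟨c, by omega⟩
  rw [r6_sign (psiBranch S) (psiBranch Sᶜ) h2]
  ring

theorem r6_T_eq (h2 : S_branch_in) (h3 : S_branch_out) {k : ℕ} (hk : Odd k) (j : ι)
    (S : Finset ι) (hS : S ⊂ univ.erase j) (hS2 : 2 ≤ S.card) :
    r6T k S = (xr j S + yp (univ.erase j) (xr j) S) ^ k - yp (univ.erase j) (xr j) S ^ k := by
  have e2 := h2 ι j S hS hS2
  have e3 := h3 ι j S hS hS2
  have hx : xr j S = bdiv S := by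
    unfold xr
    rw [if_neg hS.ne]
  set u := yp (univ.erase j) (xr j) S with hu
  rw [hx] at e2 ⊢
  set D := bdiv S with hD
  unfold r6T
  rw [← hD, Finset.mul_sum]
  have e3' : D * (-psiBranch Sᶜ) = D * (-u) := r6_mul_neg e3
  have hterm : ∀ a ∈ range k, D * (psiBranch S ^ a * (-psiBranch Sᶜ) ^ (k - 1 - a)) =
      ((D + u) ^ a * u ^ (k - 1 - a)) * ((D + u) - u) := by
    intro a ha
    rw [mem_range] at ha
    have h4 := r6_pow e2 a
    have h5 := r6_pow e3' (k - 1 - a)
    have h6 : Even (a + (k - 1 - a)) := by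
      have : a + (k - 1 - a) = k - 1 := by omega
      rw [this]
      obtain ⟨c, hc⟩ := hk
      exact ⟨c, by omega⟩
    calc D * (psiBranch S ^ a * (-psiBranch Sᶜ) ^ (k - 1 - a))
        = (D * psiBranch S ^ a) * (-psiBranch Sᶜ) ^ (k - 1 - a) := by ring
      _ = (D * (-(D + u)) ^ a) * (-psiBranch Sᶜ) ^ (k - 1 - a) := by rw [h4]
      _ = (-(D + u)) ^ a * (D * (-psiBranch Sᶜ) ^ (k - 1 - a)) := by ring
      _ = (-(D + u)) ^ a * (D * (-u) ^ (k - 1 - a)) := by rw [h5]
      _ = D * ((-(D + u)) ^ a * (-u) ^ (k - 1 - a)) := by ring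
      _ = D * ((-(-(D + u))) ^ a * u ^ (k - 1 - a)) := by rw [r6_sign _ _ h6]
      _ = ((D + u) ^ a * u ^ (k - 1 - a)) * ((D + u) - u) := by rw [neg_neg]; ring
  rw [Finset.sum_congr rfl hterm, ← Finset.sum_mul, geom_sum₂_mul]

theorem r6_par {W S : Finset ι} (hW : Even W.card) : Odd (Sᶜ ∩ W).card ↔ Odd (S ∩ W).card := by
  have h : (S ∩ W).card + (Sᶜ ∩ W).card = W.card := by
    rw [← Finset.card_union_of_disjoint]
    · congr 1
      ext a
      simp only [mem_union, mem_inter, mem_compl]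
      tauto
    · rw [Finset.disjoint_left]
      intro a ha hb
      rw [mem_inter] at ha hb
      exact (mem_compl.1 hb.1) ha.1
  rw [← h, Nat.even_add] at hW
  rw [← Nat.not_even_iff_odd, ← Nat.not_even_iff_odd]
  tauto

/-- the boundary sum, folded -/
theorem r6_fold {k : ℕ} (hk : Odd k) (j : ι) {W : Finset ι} (hW : Even W.card) :
    ∑ S : Finset ι with (2 ≤ S.card ∧ 2 ≤ Sᶜ.card ∧ Odd (S ∩ W).card), r6T k S =
      2 * ∑ S ∈ (univ.erase j).powerset with (S ≠ univ.erase j ∧ 2 ≤ S.card ∧ Odd (S ∩ W).card),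
        r6T k S := by
  have hset : (univ : Finset (Finset ι)).filter (fun S => (2 ≤ S.card ∧ 2 ≤ Sᶜ.card ∧
      Odd (S ∩ W).card) ∧ j ∉ S) = (univ.erase j).powerset.filter
        (fun S => S ≠ univ.erase j ∧ 2 ≤ S.card ∧ Odd (S ∩ W).card) := by
    ext S
    rw [mem_filter, mem_filter, mem_powerset]
    constructor
    · rintro ⟨_, ⟨h1, h2, h3⟩, h4⟩
      refine ⟨?_, ?_, h1, h3⟩
      · intro a ha
        rw [mem_erase]
        exact ⟨fun h => h4 (h ▸ ha), mem_univ _⟩
      · rintro rfl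
        have : ((univ : Finset ι).erase j)ᶜ = {j} := by
          ext a; simp
        rw [this, card_singleton] at h2
        omega
    · rintro ⟨h1, h2, h3, h4⟩
      refine ⟨mem_univ _, ⟨h3, ?_, h4⟩, ?_⟩
      · have hss : S ⊂ univ.erase j := Finset.ssubset_iff_subset_ne.2 ⟨h1, h2⟩
        have h5 := Finset.card_lt_card hss
        rw [Finset.card_erase_of_mem (mem_univ j), Finset.card_univ] at h5
        rw [Finset.card_compl]
        omega
      · intro h
        exact (Finset.notMem_erase j univ) (h1 h)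
  have hcomp : ∑ S ∈ (univ : Finset (Finset ι)).filter (fun S => (2 ≤ S.card ∧ 2 ≤ Sᶜ.card ∧
      Odd (S ∩ W).card) ∧ ¬ j ∉ S), r6T k S =
      ∑ S ∈ (univ : Finset (Finset ι)).filter (fun S => (2 ≤ S.card ∧ 2 ≤ Sᶜ.card ∧
      Odd (S ∩ W).card) ∧ j ∉ S), r6T k S := by
    apply Finset.sum_nbij' (fun S => Sᶜ) (fun S => Sᶜ)
    · intro S hS
      rw [mem_filter] at hS ⊢
      obtain ⟨_, ⟨h1, h2, h3⟩, h4⟩ := hS
      refine ⟨mem_univ _, ⟨h2, by rw [compl_compl]; exact h1, (r6_par hW).2 h3⟩, ?_⟩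
      rw [not_not] at h4
      intro h5
      exact (mem_compl.1 h5) h4
    · intro S hS
      rw [mem_filter] at hS ⊢
      obtain ⟨_, ⟨h1, h2, h3⟩, h4⟩ := hS
      refine ⟨mem_univ _, ⟨h2, by rw [compl_compl]; exact h1, (r6_par hW).2 h3⟩, ?_⟩
      rw [not_not]
      exact mem_compl.2 h4
    · intro S _
      exact compl_compl S
    · intro S _
      exact compl_compl S
    · intro S _
      exact (r6_T_compl hk S).symm
  rw [← Finset.sum_filter_add_sum_filter_not _ (fun S : Finset ι => j ∉ S), Finset.filter_filter,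
    Finset.filter_filter, hcomp, hset]
  ring

theorem r6_yp_self (V : Finset ι) (x : Finset ι → Chow ι) : yp V x V = 0 := by
  unfold yp
  apply Finset.sum_eq_zero
  intro U hU
  rw [mem_filter, mem_powerset] at hU
  exact absurd hU.1 hU.2.2

theorem r6_pw (h1 : S_psi_leaf) (h2 : S_branch_in) (h3 : S_branch_out) {k : ℕ} (hk : Odd k)
    (j : ι) {W : Finset ι} (hι : 3 ≤ Fintype.card ι) (hW : Even W.card) :
    pw (univ.erase j) (par W) (xr j) k = ∑ i ∈ W, psi i ^ k -
      ∑ S ∈ (univ.erase j).powerset with (S ≠ univ.erase j ∧ 2 ≤ S.card ∧ Odd (S ∩ W).card),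
        r6T k S := by
  set V := (univ : Finset ι).erase j with hV
  have hVc : 2 ≤ V.card := by
    rw [hV, Finset.card_erase_of_mem (mem_univ j), Finset.card_univ]; omega
  have hk0 : k ≠ 0 := by
    obtain ⟨c, hc⟩ := hk
    omega
  have hmemV : ∀ i, i ∈ V ↔ i ≠ j := by
    intro i; rw [hV, mem_erase]; simp
  have hpar : ∀ T : Finset ι, par W T = true ↔ Odd (T ∩ W).card := by
    intro T; unfold par; exact decide_eq_true_iff
  unfold pw
  rw [← Finset.sum_filter_add_sum_filter_not _ (fun S : Finset ι => S.card = 1),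
    Finset.filter_filter, Finset.filter_filter]
  -- the singletons
  have hA : ∑ S ∈ V.powerset.filter (fun S => (S.Nonempty ∧ par W S = true) ∧ S.card = 1),
      (yp V (xr j) S ^ k - zz V (xr j) S ^ k) = ∑ i ∈ W.erase j, psi i ^ k := by
    symm
    apply Finset.sum_nbij (fun i => ({i} : Finset ι))
    · intro i hi
      rw [mem_erase] at hi
      rw [mem_filter, mem_powerset, singleton_subset_iff, hmemV, hpar]
      refine ⟨hi.1, ⟨singleton_nonempty i, ?_⟩, card_singleton i⟩
      rw [Finset.singleton_inter_of_mem hi.2, card_singleton]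
      exact odd_one
    · intro a _ b _ h
      exact Finset.singleton_injective h
    · intro S hS
      rw [Finset.mem_coe, mem_filter, mem_powerset, hpar] at hS
      obtain ⟨hS1, ⟨_, hS2⟩, hS3⟩ := hS
      obtain ⟨i, hi⟩ := Finset.card_eq_one.1 hS3
      refine ⟨i, ?_, hi.symm⟩
      rw [Finset.mem_coe, mem_erase]
      rw [hi, singleton_subset_iff, hmemV] at hS1
      refine ⟨hS1, ?_⟩
      by_contra hiW
      rw [hi, Finset.singleton_inter_of_notMem hiW, card_empty] at hS2
      exact (Nat.not_odd_iff_even.2 Even.zero) hS2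
    · intro i hi
      rw [mem_erase] at hi
      have e1 := h1 ι i j hi.1 hι
      rw [← hV] at e1
      unfold zz
      rw [← e1, card_singleton, if_neg (by norm_num), zero_pow hk0, sub_zero]
  rw [hA, ← Finset.sum_filter_add_sum_filter_not _ (fun S : Finset ι => S = V),
    Finset.filter_filter, Finset.filter_filter]
  -- the whole set
  have hoddV : Odd (V ∩ W).card ↔ j ∈ W := by
    have e1 : V ∩ W = W.erase j := by
      ext a; rw [mem_inter, hmemV, mem_erase]
    rw [e1]
    by_cases hj : j ∈ W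
    · rw [Finset.card_erase_of_mem hj]
      have h4 : 1 ≤ W.card := Finset.card_pos.2 ⟨j, hj⟩
      obtain ⟨c, hc⟩ := hW
      exact ⟨fun _ => hj, fun _ => ⟨c - 1, by omega⟩⟩
    · rw [Finset.erase_eq_of_notMem hj]
      exact ⟨fun h => absurd hW (Nat.not_even_iff_odd.2 h), fun h => absurd h hj⟩
  have hB : ∑ S ∈ V.powerset.filter (fun S => ((S.Nonempty ∧ par W S = true) ∧ ¬ S.card = 1) ∧ S = V),
      (yp V (xr j) S ^ k - zz V (xr j) S ^ k) = if j ∈ W then psi j ^ k else 0 := by
    by_cases hj : j ∈ W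
    · have e1 : V.powerset.filter (fun S => ((S.Nonempty ∧ par W S = true) ∧ ¬ S.card = 1) ∧ S = V) =
          {V} := by
        ext S
        rw [mem_filter, mem_powerset, mem_singleton]
        constructor
        · exact fun h => h.2.2
        · rintro rfl
          refine ⟨Finset.Subset.refl _, ⟨⟨Finset.card_pos.1 (by omega), (hpar _).2 (hoddV.2 hj)⟩,
            by omega⟩, rfl⟩
      rw [e1, Finset.sum_singleton, if_pos hj, r6_yp_self, zero_pow hk0]
      unfold zz
      rw [if_pos hVc, r6_yp_self, add_zero]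
      have e2 : xr j V = - psi j := by
        unfold xr; rw [if_pos rfl]
      rw [e2]
      exact r6_odd _ hk
    · rw [if_neg hj]
      apply Finset.sum_eq_zero
      intro S hS
      rw [mem_filter] at hS
      obtain ⟨_, ⟨⟨_, h4⟩, _⟩, h5⟩ := hS
      rw [h5, hpar, hoddV] at h4
      exact absurd h4 hj
  rw [hB]
  -- the proper divisors
  have hC : ∑ S ∈ V.powerset.filter
      (fun S => ((S.Nonempty ∧ par W S = true) ∧ ¬ S.card = 1) ∧ ¬ S = V),
      (yp V (xr j) S ^ k - zz V (xr j) S ^ k) =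
      - ∑ S ∈ V.powerset with (S ≠ V ∧ 2 ≤ S.card ∧ Odd (S ∩ W).card), r6T k S := by
    rw [← Finset.sum_neg_distrib]
    apply Finset.sum_congr
    · ext S
      rw [mem_filter, mem_filter, hpar]
      constructor
      · rintro ⟨g1, ⟨⟨g2, g3⟩, g4⟩, g5⟩
        have := Finset.card_pos.2 g2
        exact ⟨g1, g5, by omega, g3⟩
      · rintro ⟨g1, g5, g6, g3⟩
        exact ⟨g1, ⟨⟨Finset.card_pos.1 (by omega), g3⟩, by omega⟩, g5⟩
    · intro S hS
      rw [mem_filter, mem_powerset] at hS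
      obtain ⟨g1, g2, g3, _⟩ := hS
      have hss : S ⊂ V := Finset.ssubset_iff_subset_ne.2 ⟨g1, g2⟩
      rw [r6_T_eq h2 h3 hk j S hss g3]
      unfold zz
      rw [if_pos g3]
      ring
  rw [hC]
  have hD : ∑ i ∈ W, psi i ^ k = ∑ i ∈ W.erase j, psi i ^ k + if j ∈ W then psi j ^ k else 0 := by
    by_cases hj : j ∈ W
    · rw [if_pos hj, Finset.sum_erase_add _ _ hj]
    · rw [if_neg hj, Finset.erase_eq_of_notMem hj, add_zero]
  rw [hD]
  ring

end

theorem p_hodge (h1 : S_psi_leaf) (h2 : S_branch_in) (h3 : S_branch_out) : S_hodge := by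
  intro ι _ _ j W hι hW k hk
  have hkey : (k.factorial : ℚ) • hodgeCh W k = bco k • (∑ i ∈ W, psi i ^ k - (1 / 2 : ℚ) •
      ∑ S : Finset ι with (2 ≤ S.card ∧ 2 ≤ Sᶜ.card ∧ Odd (S ∩ W).card), r6T k S) := by
    unfold hodgeCh bco
    rw [smul_smul]
    rfl
  rw [hkey]
  rcases Nat.even_or_odd k with hke | hko
  · rw [r6_even hke hk, zero_smul, zero_smul]
  · congr 1
    rw [r6_pw h1 h2 h3 hko j hι hW, r6_fold hko j hW]
    congr 1
    rw [← smul_mul_assoc]
    have : (1 / 2 : ℚ) • (2 : Chow ι) = 1 := by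
      have h4 : (2 : Chow ι) = (2 : ℚ) • (1 : Chow ι) := by
        rw [two_smul]; norm_num
      rw [h4, smul_smul]
      norm_num
    rw [this, one_mul]

end Pool.Agent.HH
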