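import Pool.Agent.Lib.MP_371b18_ag.Stm2

/-!
R7: the classes `lam` as rooted lambda classes, R8: the first coefficient. (helper45)
-/

open Finset

namespace Pool.Agent.HH

open Pool.Agent.HHI

theorem p_lam (h : S_hodge) : S_lam := by
  intro ι _ _ j W hι hW m
  induction m using Nat.strong_induction_on with
  | _ m ih =>
    cases m with
    | zero =>
      unfold lamV
      rw [lam, newton]
    | succ m =>
      unfold lamV
      rw [lam, newton]
      congr 1
      apply Finset.sum_congr rfl
      intro k _
      have h1 := ih (m - k) (by omega)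
      unfold lamV at h1
      rw [← h1]
      have h2 := h ι j W hι hW ((k : ℕ) + 1) (by omega)
      rw [← h2, mul_smul, smul_mul_assoc]

theorem p_bco : S_bco := by
  unfold S_bco bco
  have h1 : (Polynomial.bernoulli (1 + 1)).eval (1 / 2 : ℚ) = -1 / 12 := by
    rw [Polynomial.bernoulli]
    simp [Finset.sum_range_succ, bernoulli_two, _root_.bernoulli_one, Nat.choose]
    norm_num
  rw [h1, Polynomial.bernoulli_eval_zero]
  have h2 : _root_.bernoulli (1 + 1) = 1 / 6 := by
    have := bernoulli_two
    rw [show (1 + 1 : ℕ) = 2 from rfl, this]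
    norm_num
  rw [h2]
  norm_num [Nat.factorial]

end Pool.Agent.HH
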