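import Pool.Agent.Lib.MP_371b18_ag.P.A1
import Pool.Agent.Lib.MP_371b18_ag.P.A2
import Pool.Agent.Lib.MP_371b18_ag.P.A3
import Pool.Agent.Lib.MP_371b18_ag.P.A4
import Pool.Agent.Lib.MP_371b18_ag.P.B1
import Pool.Agent.Lib.MP_371b18_ag.P.B2
import Pool.Agent.Lib.MP_371b18_ag.P.B3
import Pool.Agent.Lib.MP_371b18_ag.P.B4
import Pool.Agent.Lib.MP_371b18_ag.P.B5
import Pool.Agent.Lib.MP_371b18_ag.P.B6
import Pool.Agent.Lib.MP_371b18_ag.P.B7
import Pool.Agent.Lib.MP_371b18_ag.P.F1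
import Pool.Agent.Lib.MP_371b18_ag.P.F2
import Pool.Agent.Lib.MP_371b18_ag.P.Final
import Pool.Agent.Lib.MP_371b18_ag.P.G1
import Pool.Agent.Lib.MP_371b18_ag.P.G2
import Pool.Agent.Lib.MP_371b18_ag.P.G3
import Pool.Agent.Lib.MP_371b18_ag.P.J1
import Pool.Agent.Lib.MP_371b18_ag.P.J3
import Pool.Agent.Lib.MP_371b18_ag.P.J4
import Pool.Agent.Lib.MP_371b18_ag.P.J5
import Pool.Agent.Lib.MP_371b18_ag.P.K1
import Pool.Agent.Lib.MP_371b18_ag.P.K2
import Pool.Agent.Lib.MP_371b18_ag.P.L1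
import Pool.Agent.Lib.MP_371b18_ag.P.L2
import Pool.Agent.Lib.MP_371b18_ag.P.N1
import Pool.Agent.Lib.MP_371b18_ag.P.N2
import Pool.Agent.Lib.MP_371b18_ag.P.Q1
import Pool.Agent.Lib.MP_371b18_ag.P.Q2
import Pool.Agent.Lib.MP_371b18_ag.P.R1
import Pool.Agent.Lib.MP_371b18_ag.P.R2
import Pool.Agent.Lib.MP_371b18_ag.P.R4
import Pool.Agent.Lib.MP_371b18_ag.P.R5
import Pool.Agent.Lib.MP_371b18_ag.P.R6
import Pool.Agent.Lib.MP_371b18_ag.P.R7
import Pool.Agent.Lib.MP_371b18_ag.P.R9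
import Pool.Agent.Lib.MP_371b18_ag.P.R10

/-! Assembly of all the pieces. -/

open Finset

namespace Pool.Agent.HH

open Pool.Agent.HHI

theorem a_lam_split : S_lam_split := p_lam_split p_newton_add p_newton_congr p_pw_split

theorem a_top : S_top := p_top p_sys_in p_sys_out p_decomp p_gen

theorem a_pair : S_pair := p_pair p_sys_out a_top

theorem a_link : S_link := p_link p_sys_in p_sys_out a_pair

theorem a_span : S_span := p_span p_sys_in p_sys_out p_decomp p_gen a_top a_link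

theorem a_lam_mem : S_lam_mem := p_lam_mem p_newton_mem

theorem a_const : S_const := p_const p_newton_map p_relabel a_span a_lam_mem

theorem a_main : S_main :=
  p_main p_sys_in p_sys_out p_forget_sys (p_forget_lam p_newton_congr p_forget_pw)
    (p_string p_forget_sys a_top)
    (p_trr p_sys_in p_sys_out a_lam_split a_top a_lam_mem) a_link a_top a_lam_mem p_dim
    (p_topc p_dim)

theorem a_point : S_point := p_point p_bound p_sys_out a_pair

theorem a_rooted : S_rooted := p_rooted p_psi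

theorem a_hodge : S_hodge :=
  p_hodge (p_psi_leaf p_psi) (p_branch_in a_rooted) (p_branch_out a_rooted p_psi)

theorem a_degree_exists : S_degree_exists := p_degree_exists (p_rexist p_push) a_point

theorem a_degree_psi : S_degree_psi := p_degree_psi a_rooted p_flag a_point

/-- the degree functional exists and is unique (for at least three markings) -/
theorem degree_wellDefined (ι : Type) [Fintype ι] [DecidableEq ι] (h : 3 ≤ Fintype.card ι) :
    ∃! φ : Chow ι →ₗ[ℚ] ℚ, IsDegree φ := by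
  obtain ⟨φ, hφ⟩ := a_degree_exists ι h
  exact ⟨φ, hφ, fun ψ hψ => p_degree_unique a_rooted a_span a_degree_psi ι h ψ φ hψ hφ⟩

theorem degree_exact :
    ∀ (r : ℕ) (i : Fin r → ℕ), ∃ P Q : Polynomial ℚ,
      P.natDegree = 2 * ∑ a, i a ∧ Q.natDegree = 2 * ∑ a, i a ∧
      P.leadingCoeff = 1 / (2 ^ (∑ a, i a + 1) * ∏ a, ((i a).factorial : ℚ)) ∧
      Q.leadingCoeff = 1 / (2 ^ (∑ a, i a + 1) * ∏ a, ((i a).factorial : ℚ)) ∧
      (∀ g : ℕ, 1 ≤ g → ∑ a, i a ≤ 2 * g - 1 → ∀ j : Fin (2 * g + 2),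
        bigD i g j = P.eval (g : ℚ)) ∧
      (∀ g : ℕ, 1 ≤ g → ∑ a, i a ≤ 2 * g → smallD i g = Q.eval (g : ℚ)) :=
  final_of a_main a_const p_one p_bco (p_poly p_sum) a_rooted (p_lam a_hodge) a_degree_exists
    a_degree_psi

end Pool.Agent.HH
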