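import Pool.Agent.Lib.MP_371b18_ag.Stm

/-! F1 (MP_371b18_ag): forgetting a leaf; the system and the classes lambda. -/

open Finset

namespace Pool.Agent.HH

private theorem f1_compat1 {α : Type} [DecidableEq α] {u : α} {S T : Finset α} (hS : u ∉ S)
    (h : Compat S (insert u T)) : Compat S T := by
  rcases h with h | h | h
  · refine Or.inl fun y hy => ?_
    rcases Finset.mem_insert.1 (h hy) with rfl | h'
    · exact absurd hy hS
    · exact h'
  · exact absurd (h (Finset.mem_insert_self u T)) hS
  · exact Or.inr (Or.inr (Finset.disjoint_of_subset_right (Finset.subset_insert u T) h))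

private theorem f1_symm {α : Type} [DecidableEq α] {S T : Finset α} (h : Compat S T) :
    Compat T S := by
  rcases h with h | h | h
  · exact Or.inr (Or.inl h)
  · exact Or.inl h
  · exact Or.inr (Or.inr h.symm)

private theorem f1_compat2 {α : Type} [DecidableEq α] {u : α} {S T : Finset α} (hS : u ∉ S)
    (hT : u ∉ T) (h : Compat (insert u S) (insert u T)) : Compat S T := by
  rcases h with h | h | h
  · refine Or.inl fun y hy => ?_
    rcases Finset.mem_insert.1 (h (Finset.mem_insert_of_mem hy)) with rfl | h'
    · exact absurd hy hS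
    · exact h'
  · refine Or.inr (Or.inl fun y hy => ?_)
    rcases Finset.mem_insert.1 (h (Finset.mem_insert_of_mem hy)) with rfl | h'
    · exact absurd hy hT
    · exact h'
  · exact absurd (Finset.mem_insert_self u T)
      (Finset.disjoint_left.1 h (Finset.mem_insert_self u S))

theorem p_forget_sys : S_forget_sys := by
  intro α _ R _ _ m V x hx u hu
  have hV : insert u (V.erase u) = V := Finset.insert_erase hu
  have huV : u ∉ V.erase u := Finset.notMem_erase u V
  refine ⟨?_, ?_⟩
  · intro S T hS hT h2 h2' hc
    have hS' : S ⊆ V := hS.trans (Finset.erase_subset _ _)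
    have hT' : T ⊆ V := hT.trans (Finset.erase_subset _ _)
    have uS : u ∉ S := fun h => huV (hS h)
    have uT : u ∉ T := fun h => huV (hT h)
    have hS1 : insert u S ⊆ V := Finset.insert_subset hu hS'
    have hT1 : insert u T ⊆ V := Finset.insert_subset hu hT'
    have c1 : 2 ≤ (insert u S).card := h2.trans (Finset.card_le_card (Finset.subset_insert u S))
    have c2 : 2 ≤ (insert u T).card := h2'.trans (Finset.card_le_card (Finset.subset_insert u T))
    have e1 := hx.cross S T hS' hT' h2 h2' hc
    have e2 := hx.cross S (insert u T) hS' hT1 h2 c2 (fun h => hc (f1_compat1 uS h))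
    have e3 := hx.cross (insert u S) T hS1 hT' c1 h2'
      (fun h => hc (f1_symm (f1_compat1 uT (f1_symm h))))
    have e4 := hx.cross (insert u S) (insert u T) hS1 hT1 c1 c2
      (fun h => hc (f1_compat2 uS uT h))
    change m * ((x S + x (insert u S)) * (x T + x (insert u T))) = 0
    calc m * ((x S + x (insert u S)) * (x T + x (insert u T)))
        = m * (x S * x T) + m * (x S * x (insert u T)) + m * (x (insert u S) * x T) +
          m * (x (insert u S) * x (insert u T)) := by ring
      _ = 0 := by rw [e1, e2, e3, e4]; simp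
  · intro a ha b hb hab
    have h0 := hx.lin a (Finset.mem_of_mem_erase ha) b (Finset.mem_of_mem_erase hb) hab
    have au : a ≠ u := Finset.ne_of_mem_erase ha
    have bu : b ≠ u := Finset.ne_of_mem_erase hb
    have key : ∑ S ∈ V.powerset with (a ∈ S ∧ b ∈ S), x S =
        ∑ S ∈ (V.erase u).powerset with (a ∈ S ∧ b ∈ S), forx x u S := by
      rw [Finset.sum_filter, Finset.sum_filter]
      conv_lhs => rw [← hV]
      rw [Finset.sum_powerset_insert huV, ← Finset.sum_add_distrib]
      refine Finset.sum_congr rfl fun S hS => ?_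
      have ea : (a ∈ insert u S) ↔ a ∈ S := by simp [au]
      have eb : (b ∈ insert u S) ↔ b ∈ S := by simp [bu]
      by_cases h : a ∈ S ∧ b ∈ S
      · rw [if_pos h, if_pos h, if_pos ⟨ea.2 h.1, eb.2 h.2⟩]
        rfl
      · rw [if_neg h, if_neg h, if_neg (fun h' => h ⟨ea.1 h'.1, eb.1 h'.2⟩)]
        simp
    rw [← key]
    exact h0

private theorem f1_prod {ι R : Type} [CommRing R] (m : R) (s : Finset ι) (f g : ι → R)
    (h : ∀ i ∈ s, m * f i = m * g i) : m * ∏ i ∈ s, f i = m * ∏ i ∈ s, g i := by
  classical
  induction s using Finset.induction_on with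
  | empty => simp
  | insert a s ha ih =>
    rw [Finset.prod_insert ha, Finset.prod_insert ha]
    have h1 := h a (Finset.mem_insert_self a s)
    have h2 := ih (fun i hi => h i (Finset.mem_insert_of_mem hi))
    calc m * (f a * ∏ i ∈ s, f i) = (m * f a) * ∏ i ∈ s, f i := by ring
      _ = g a * (m * ∏ i ∈ s, f i) := by rw [h1]; ring
      _ = m * (g a * ∏ i ∈ s, g i) := by rw [h2]; ring

theorem p_forget_lam (h1 : S_newton_congr) (h2 : S_forget_pw) : S_forget_lam := by
  intro α _ R _ _ m V x hx u hu O hO hT b r i
  unfold lamP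
  refine f1_prod m _ _ _ fun a _ => ?_
  unfold lamV
  refine h1 R m _ _ (fun k hk => ?_) (i a)
  have h := h2 α R m V x hx u hu O hO hT k hk
  rw [mul_smul_comm, mul_smul_comm, h]

end Pool.Agent.HH
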