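import Pool.Agent.Lib.MP_371b18_ag.Stm2

open Finset

namespace Pool.Agent.HH

section l1

variable {α : Type} [DecidableEq α]

omit [DecidableEq α] in
/-- a member `T` of the family that meets the smallest member `S` and does not contain `a ∈ S`
does not exist -/
private theorem l1_key {S T : Finset α} {a c : α} (ha : a ∈ S) (haT : a ∉ T)
    (hST : S.card ≤ T.card) (hc : c ∈ S) (hcT : c ∈ T) (h : Compat T S) : False := by
  rcases h with h | h | h
  · have := eq_of_subset_of_card_le h hST
    rw [this] at haT
    exact haT ha
  · exact haT (h ha)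
  · exact (disjoint_left.1 h) hcT hc

private theorem l1_compat {S T : Finset α} {a : α} (h : Compat S T) :
    Compat (S.erase a) (T.erase a) := by
  rcases h with h | h | h
  · exact Or.inl (erase_subset_erase a h)
  · exact Or.inr (Or.inl (erase_subset_erase a h))
  · exact Or.inr (Or.inr (disjoint_of_subset_left (erase_subset _ _)
      (disjoint_of_subset_right (erase_subset _ _) h)))

private theorem l1_bound : ∀ (n : ℕ) (V : Finset α) (F : Finset (Finset α)), V.card = n →
    2 ≤ V.card → (∀ S ∈ F, S ⊂ V ∧ 2 ≤ S.card) → (∀ S ∈ F, ∀ T ∈ F, Compat S T) →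
    F.card + 2 ≤ V.card := by
  intro n
  induction n with
  | zero => intro V F h1 h2; omega
  | succ n ih =>
    intro V F hn h2 hF hC
    by_cases hne : F.Nonempty
    · obtain ⟨S, hS, hmin⟩ := exists_min_image F card hne
      obtain ⟨hSV, hS2⟩ := hF S hS
      have hSVc := card_lt_card hSV
      obtain ⟨a, ha, c, hc, hac⟩ := one_lt_card.1 (by omega : 1 < S.card)
      have haV : a ∈ V := hSV.1 ha
      -- the members containing `a`, different from `S`
      have hbig : ∀ T ∈ F, T ≠ S → a ∈ T → S ⊆ T := by
        intro T hT hTS haT
        rcases hC T hT S hS with h | h | h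
        · exact absurd (eq_of_subset_of_card_le h (hmin T hT)) hTS
        · exact h
        · exact absurd ha ((disjoint_left.1 h) haT)
      have hinj : Set.InjOn (fun T : Finset α => T.erase a) (F.erase S : Finset (Finset α)) := by
        have haux : ∀ T ∈ F, T ≠ S → ∀ T' ∈ F, a ∈ T → a ∉ T' → T.erase a = T'.erase a →
            False := by
          intro T hT hTS T' hT' haT haT' he
          have h1 : c ∈ T' := by
            have h2 : c ∈ T.erase a := mem_erase.2 ⟨hac.symm, hbig T hT hTS haT hc⟩
            rw [he] at h2
            exact (mem_erase.1 h2).2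
          exact l1_key ha haT' (hmin T' hT') hc h1 (hC T' hT' S hS)
        intro T hT T' hT' he
        have hT1 := mem_erase.1 (mem_coe.1 hT)
        have hT1' := mem_erase.1 (mem_coe.1 hT')
        have he' : T.erase a = T'.erase a := he
        by_cases haT : a ∈ T
        · by_cases haT' : a ∈ T'
          · rw [← insert_erase haT, ← insert_erase haT', he']
          · exact (haux T hT1.2 hT1.1 T' hT1'.2 haT haT' he').elim
        · by_cases haT' : a ∈ T'
          · exact (haux T' hT1'.2 hT1'.1 T hT1.2 haT' haT he'.symm).elim
          · rwa [erase_eq_of_notMem haT, erase_eq_of_notMem haT'] at he'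
      have hVc : (V.erase a).card = n := by rw [card_erase_of_mem haV]; omega
      have h3 := ih (V.erase a) ((F.erase S).image fun T => T.erase a) hVc (by omega) ?_ ?_
      · rw [card_image_of_injOn hinj, card_erase_of_mem hS] at h3
        have h4 : 0 < F.card := card_pos.2 hne
        omega
      · intro T' hT'
        rw [mem_image] at hT'
        obtain ⟨T, hT, rfl⟩ := hT'
        obtain ⟨hTS, hTF⟩ := mem_erase.1 hT
        obtain ⟨hTV, hT2⟩ := hF T hTF
        have hTVc := card_lt_card hTV
        by_cases haT : a ∈ T
        · have h4 : S.card < T.card := card_lt_card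
            ((hbig T hTF hTS haT).ssubset_of_ne fun h => hTS h.symm)
          have h5 : (T.erase a).card = T.card - 1 := card_erase_of_mem haT
          refine ⟨(erase_subset_erase a hTV.1).ssubset_of_ne fun h => ?_, by omega⟩
          have h6 := congrArg card h
          rw [h5, card_erase_of_mem haV] at h6
          omega
        · rw [erase_eq_of_notMem haT]
          refine ⟨(subset_erase.2 ⟨hTV.1, haT⟩).ssubset_of_ne fun h => ?_, hT2⟩
          have h1 : c ∈ T := by
            rw [h]
            exact mem_erase.2 ⟨hac.symm, hSV.1 hc⟩
          exact l1_key ha haT (hmin T hTF) hc h1 (hC T hTF S hS)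
      · intro T₁ hT₁ T₂ hT₂
        rw [mem_image] at hT₁ hT₂
        obtain ⟨T, hT, rfl⟩ := hT₁
        obtain ⟨T', hT', rfl⟩ := hT₂
        exact l1_compat (hC T (mem_erase.1 hT).2 T' (mem_erase.1 hT').2)
    · rw [not_nonempty_iff_eq_empty] at hne
      rw [hne, card_empty]
      omega

private theorem l1_flag : ∀ (n : ℕ) (V : Finset α), V.card = n → 2 ≤ V.card →
    ∃ F, MaxNested V F := by
  intro n
  induction n with
  | zero => intro V h1 h2; omega
  | succ n ih =>
    intro V hn h2
    by_cases h3 : V.card = 2
    · refine ⟨∅, ?_, ?_, ?_⟩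
      · intro S hS
        exact absurd hS (notMem_empty _)
      · intro S hS
        exact absurd hS (notMem_empty _)
      · rw [card_empty, h3]
    · obtain ⟨b, hb⟩ := card_pos.1 (by omega : 0 < V.card)
      have hVc : (V.erase b).card = n := by rw [card_erase_of_mem hb]; omega
      obtain ⟨F, hF1, hF2, hF3⟩ := ih (V.erase b) hVc (by omega)
      refine ⟨insert (V.erase b) F, ?_, ?_, ?_⟩
      · intro S hS
        rcases mem_insert.1 hS with rfl | hS
        · exact ⟨erase_ssubset hb, by omega⟩
        · exact ⟨(hF1 S hS).1.trans (erase_ssubset hb), (hF1 S hS).2⟩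
      · intro S hS T hT
        rcases mem_insert.1 hS with rfl | hS
        · rcases mem_insert.1 hT with rfl | hT
          · exact Or.inl (Subset.refl _)
          · exact Or.inr (Or.inl (hF1 T hT).1.1)
        · rcases mem_insert.1 hT with rfl | hT
          · exact Or.inl (hF1 S hS).1.1
          · exact hF2 S hS T hT
      · rw [card_insert_of_notMem fun h => (hF1 _ h).1.2 (Subset.refl _)]
        omega

end l1

theorem p_bound : S_bound := by
  intro α _ V F h2 hF hC
  exact l1_bound V.card V F rfl h2 hF hC

theorem p_flag : S_flag := by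
  intro α _ V h2
  exact l1_flag V.card V rfl h2

end Pool.Agent.HH
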