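import Pool.Agent.Lib.MP_371b18_ag.Stm2

/-! R9: existence of the degree functional. -/

open Finset

namespace Pool.Agent.HH

open Pool.Agent.HHI

section r9

variable {ι : Type} [Fintype ι] [DecidableEq ι]

/-- the representative of `S` or its complement which does not contain `j` -/
private def r9s (j : ι) (S : Finset ι) : Finset ι := if j ∈ S then Sᶜ else S

/-- image of the variables -/
private noncomputable def r9x (j : ι) (S : Finset ι) : MvPolynomial (Finset ι) ℚ :=
  if 2 ≤ S.card ∧ 2 ≤ Sᶜ.card then MvPolynomial.X (r9s j S) else 0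

private theorem r9s_not (j : ι) (S : Finset ι) : j ∉ r9s j S := by
  unfold r9s
  split_ifs with h
  · simpa using h
  · exact h

private theorem r9s_compl (j : ι) (S : Finset ι) : r9s j Sᶜ = r9s j S := by
  unfold r9s
  by_cases h : j ∈ S
  · have h' : j ∉ Sᶜ := by simpa using h
    rw [if_neg h', if_pos h]
  · have h' : j ∈ Sᶜ := by simpa using h
    rw [if_pos h', if_neg h, compl_compl]

private theorem r9s_cases (j : ι) (S : Finset ι) : r9s j S = S ∨ r9s j S = Sᶜ := by
  unfold r9s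
  split_ifs
  · exact Or.inr rfl
  · exact Or.inl rfl

private theorem r9s_card (j : ι) {S : Finset ι} (h1 : 2 ≤ S.card) (h2 : 2 ≤ Sᶜ.card) :
    2 ≤ (r9s j S).card ∧ 2 ≤ (r9s j S)ᶜ.card := by
  rcases r9s_cases j S with h | h <;> rw [h]
  · exact ⟨h1, h2⟩
  · rw [compl_compl]; exact ⟨h2, h1⟩

private theorem r9_sub {j : ι} {S : Finset ι} (h : j ∉ S) : S ⊆ univ.erase j := by
  intro x hx
  refine mem_erase.2 ⟨?_, mem_univ _⟩
  rintro rfl
  exact h hx

private theorem r9_compat_iff (j : ι) (S T : Finset ι) :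
    Compat (r9s j S) (r9s j T) ↔ (S ⊆ T ∨ T ⊆ S ∨ S ⊆ Tᶜ ∨ Tᶜ ⊆ S) := by
  have d1 : ∀ A B : Finset ι, Disjoint A B ↔ A ⊆ Bᶜ := fun A B => by
    rw [Finset.disjoint_left, Finset.subset_iff]
    simp only [Finset.mem_compl]
  have d2 : ∀ A B : Finset ι, Aᶜ ⊆ B ↔ Bᶜ ⊆ A := fun A B => by
    simp only [Finset.subset_iff, Finset.mem_compl]
    constructor
    · intro h x hx
      by_contra hc
      exact hx (h hc)
    · intro h x hx
      by_contra hc
      exact hx (h hc)
  have d3 : ∀ A B : Finset ι, A ⊆ Bᶜ ↔ B ⊆ Aᶜ := fun A B => by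
    simp only [Finset.subset_iff, Finset.mem_compl]
    exact ⟨fun h x hx hc => h hc hx, fun h x hx hc => h hc hx⟩
  have d4 : ∀ A B : Finset ι, Aᶜ ⊆ Bᶜ ↔ B ⊆ A := fun A B => by
    rw [d3, compl_compl]
  unfold Compat
  rcases r9s_cases j S with hS | hS <;> rcases r9s_cases j T with hT | hT <;>
    rw [hS, hT, d1]
  · have := d2 T S
    have hj : ¬ (Tᶜ ⊆ S) := by
      intro h
      have h1 := r9s_not j S
      have h2 := r9s_not j T
      rw [hS] at h1
      rw [hT] at h2
      exact h1 (h (by simpa using h2))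
    tauto
  · rw [compl_compl]
    have hj : ¬ (T ⊆ S) := by
      intro h
      have h1 := r9s_not j S
      have h2 := r9s_not j T
      rw [hS] at h1
      rw [hT] at h2
      exact h1 (h (by simpa using h2))
    tauto
  · rw [d3 Sᶜ T, compl_compl, d2 S T, d3 T S]
    have hj : ¬ (S ⊆ T) := by
      intro h
      have h1 := r9s_not j S
      have h2 := r9s_not j T
      rw [hS] at h1
      rw [hT] at h2
      exact h2 (h (by simpa using h1))
    tauto
  · rw [compl_compl, d4, d4, d2 S T]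
    have hj : ¬ (S ⊆ Tᶜ) := by
      intro h
      have h1 := r9s_not j S
      have h2 := r9s_not j T
      rw [hS] at h1
      rw [hT] at h2
      exact h2 (h (by simpa using h1))
    tauto

/-- inclusion-exclusion at one set -/
private theorem r9_ie (j a b c d : ι) (h : [a, b, c, d].Nodup) :
    (∑ S : Finset ι with (a ∈ S ∧ b ∈ S ∧ c ∉ S ∧ d ∉ S), r9x j S)
      = (∑ S : Finset ι, if (j ∉ S ∧ a ∈ S ∧ b ∈ S ∧ c ∉ S ∧ d ∉ S) then
          (MvPolynomial.X S : MvPolynomial (Finset ι) ℚ) else 0)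
        + ∑ S : Finset ι, if (j ∉ S ∧ c ∈ S ∧ d ∈ S ∧ a ∉ S ∧ b ∉ S) then
          (MvPolynomial.X S : MvPolynomial (Finset ι) ℚ) else 0 := by
  have hab : a ≠ b := by
    rintro rfl
    simp at h
  have hcd : c ≠ d := by
    rintro rfl
    simp at h
  have hst : ∀ S : Finset ι, a ∈ S ∧ b ∈ S ∧ c ∉ S ∧ d ∉ S → 2 ≤ S.card ∧ 2 ≤ Sᶜ.card := by
    rintro S ⟨h1, h2, h3, h4⟩
    constructor
    · exact Finset.one_lt_card.2 ⟨a, h1, b, h2, hab⟩
    · exact Finset.one_lt_card.2 ⟨c, by simpa using h3, d, by simpa using h4, hcd⟩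
  have e1 : (∑ S : Finset ι, if (j ∉ S ∧ c ∈ S ∧ d ∈ S ∧ a ∉ S ∧ b ∉ S) then
          (MvPolynomial.X S : MvPolynomial (Finset ι) ℚ) else 0)
      = ∑ S : Finset ι, if (j ∈ S ∧ a ∈ S ∧ b ∈ S ∧ c ∉ S ∧ d ∉ S) then
          (MvPolynomial.X Sᶜ : MvPolynomial (Finset ι) ℚ) else 0 := by
    refine Fintype.sum_equiv (Function.Involutive.toPerm (fun S : Finset ι => Sᶜ) compl_compl) _ _ ?_
    intro S
    have : (j ∉ S ∧ c ∈ S ∧ d ∈ S ∧ a ∉ S ∧ b ∉ S) ↔ (j ∈ Sᶜ ∧ a ∈ Sᶜ ∧ b ∈ Sᶜ ∧ c ∉ Sᶜ ∧ d ∉ Sᶜ) := by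
      simp only [Finset.mem_compl, not_not]
      tauto
    by_cases hc : (j ∉ S ∧ c ∈ S ∧ d ∈ S ∧ a ∉ S ∧ b ∉ S)
    · rw [if_pos hc]
      show _ = if (j ∈ Sᶜ ∧ a ∈ Sᶜ ∧ b ∈ Sᶜ ∧ c ∉ Sᶜ ∧ d ∉ Sᶜ) then _ else _
      rw [if_pos (this.1 hc)]
      show MvPolynomial.X S = MvPolynomial.X (Sᶜ)ᶜ
      rw [compl_compl]
    · rw [if_neg hc]
      show _ = if (j ∈ Sᶜ ∧ a ∈ Sᶜ ∧ b ∈ Sᶜ ∧ c ∉ Sᶜ ∧ d ∉ Sᶜ) then _ else _
      rw [if_neg (fun h' => hc (this.2 h'))]
  rw [e1, Finset.sum_filter, ← Finset.sum_add_distrib]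
  refine Finset.sum_congr rfl fun S _ => ?_
  by_cases hS : a ∈ S ∧ b ∈ S ∧ c ∉ S ∧ d ∉ S
  · rw [if_pos hS]
    unfold r9x r9s
    rw [if_pos (hst S hS)]
    by_cases hj : j ∈ S
    · rw [if_pos hj, if_neg (fun h' => h'.1 hj), if_pos ⟨hj, hS⟩, zero_add]
    · rw [if_neg hj, if_pos ⟨hj, hS⟩, if_neg (fun h' => hj h'.1), add_zero]
  · rw [if_neg hS, if_neg (fun h' => hS h'.2), if_neg (fun h' => hS h'.2), add_zero]

/-- the sum over the sets containing two elements is in the ideal -/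
private theorem r9_t (j a b : ι) (hab : a ≠ b) :
    (∑ S : Finset ι, if (j ∉ S ∧ a ∈ S ∧ b ∈ S) then
      (MvPolynomial.X S : MvPolynomial (Finset ι) ℚ) else 0) ∈ RI (univ.erase j) := by
  by_cases ha : a = j
  · subst ha
    rw [Finset.sum_eq_zero]
    · exact Ideal.zero_mem _
    · intro S _
      rw [if_neg (fun h => h.1 h.2.1)]
  by_cases hb : b = j
  · subst hb
    rw [Finset.sum_eq_zero]
    · exact Ideal.zero_mem _
    · intro S _
      rw [if_neg (fun h => h.1 h.2.2)]
  have e : (∑ S : Finset ι, if (j ∉ S ∧ a ∈ S ∧ b ∈ S) then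
      (MvPolynomial.X S : MvPolynomial (Finset ι) ℚ) else 0)
      = ∑ S ∈ (univ.erase j).powerset with (a ∈ S ∧ b ∈ S), MvPolynomial.X S := by
    rw [← Finset.sum_filter]
    refine Finset.sum_congr ?_ fun _ _ => rfl
    ext S
    simp only [Finset.mem_filter, Finset.mem_univ, true_and, Finset.mem_powerset]
    constructor
    · rintro ⟨h1, h2⟩
      exact ⟨r9_sub h1, h2⟩
    · rintro ⟨h1, h2⟩
      exact ⟨fun hc => (Finset.mem_erase.1 (h1 hc)).1 rfl, h2⟩
  rw [e]
  exact Ideal.subset_span (RootRel.lin a b (by simp [ha]) (by simp [hb]) hab)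

/-- the map on the polynomial ring -/
private noncomputable def r9th (j : ι) :
    MvPolynomial (Finset ι) ℚ →ₐ[ℚ] MvPolynomial (Finset ι) ℚ := MvPolynomial.aeval (r9x j)

private theorem r9th_X (j : ι) (S : Finset ι) : r9th j (MvPolynomial.X S) = r9x j S := by
  unfold r9th
  rw [MvPolynomial.aeval_X]

private theorem r9_rel (j : ι) (p : MvPolynomial (Finset ι) ℚ) (hp : KeelRel ι p) :
    r9th j p ∈ RI (univ.erase j) := by
  cases hp with
  | unstable S h =>
    rw [r9th_X]
    unfold r9x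
    rw [if_neg (by omega)]
    exact Ideal.zero_mem _
  | compl S =>
    rw [map_sub, r9th_X, r9th_X]
    unfold r9x
    rw [r9s_compl, compl_compl]
    by_cases h : 2 ≤ S.card ∧ 2 ≤ Sᶜ.card
    · rw [if_pos h, if_pos h.symm, sub_self]
      exact Ideal.zero_mem _
    · rw [if_neg h, if_neg (fun h' => h h'.symm), sub_self]
      exact Ideal.zero_mem _
  | cross S T h =>
    rw [map_mul, r9th_X, r9th_X]
    unfold r9x
    by_cases hS : 2 ≤ S.card ∧ 2 ≤ Sᶜ.card
    · by_cases hT : 2 ≤ T.card ∧ 2 ≤ Tᶜ.card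
      · rw [if_pos hS, if_pos hT]
        refine Ideal.subset_span (RootRel.cross _ _ (r9_sub (r9s_not j S)) (r9_sub (r9s_not j T))
          (r9s_card j hS.1 hS.2).1 (r9s_card j hT.1 hT.2).1 ?_)
        rw [r9_compat_iff]
        exact h
      · rw [if_neg hT, mul_zero]
        exact Ideal.zero_mem _
    · rw [if_neg hS, zero_mul]
      exact Ideal.zero_mem _
  | four a b c d h =>
    have hab : a ≠ b := by rintro rfl; simp at h
    have hcd : c ≠ d := by rintro rfl; simp at h
    have hac : a ≠ c := by rintro rfl; simp at h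
    have hbd : b ≠ d := by rintro rfl; simp at h
    have h' : [a, c, b, d].Nodup := by
      simp only [List.nodup_cons, List.mem_cons, List.not_mem_nil, or_false, not_or,
        List.nodup_nil, and_true, not_false_eq_true] at h ⊢
      tauto
    rw [map_sub, map_sum, map_sum]
    simp only [r9th_X]
    rw [r9_ie j a b c d h, r9_ie j a c b d h']
    have key : ((∑ S : Finset ι, if (j ∉ S ∧ a ∈ S ∧ b ∈ S ∧ c ∉ S ∧ d ∉ S) then
          (MvPolynomial.X S : MvPolynomial (Finset ι) ℚ) else 0)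
        + ∑ S : Finset ι, if (j ∉ S ∧ c ∈ S ∧ d ∈ S ∧ a ∉ S ∧ b ∉ S) then
          (MvPolynomial.X S : MvPolynomial (Finset ι) ℚ) else 0)
        - ((∑ S : Finset ι, if (j ∉ S ∧ a ∈ S ∧ c ∈ S ∧ b ∉ S ∧ d ∉ S) then
          (MvPolynomial.X S : MvPolynomial (Finset ι) ℚ) else 0)
        + ∑ S : Finset ι, if (j ∉ S ∧ b ∈ S ∧ d ∈ S ∧ a ∉ S ∧ c ∉ S) then
          (MvPolynomial.X S : MvPolynomial (Finset ι) ℚ) else 0)
        = ((∑ S : Finset ι, if (j ∉ S ∧ a ∈ S ∧ b ∈ S) then
          (MvPolynomial.X S : MvPolynomial (Finset ι) ℚ) else 0)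
        + ∑ S : Finset ι, if (j ∉ S ∧ c ∈ S ∧ d ∈ S) then
          (MvPolynomial.X S : MvPolynomial (Finset ι) ℚ) else 0)
        - ((∑ S : Finset ι, if (j ∉ S ∧ a ∈ S ∧ c ∈ S) then
          (MvPolynomial.X S : MvPolynomial (Finset ι) ℚ) else 0)
        + ∑ S : Finset ι, if (j ∉ S ∧ b ∈ S ∧ d ∈ S) then
          (MvPolynomial.X S : MvPolynomial (Finset ι) ℚ) else 0) := by
      rw [← Finset.sum_add_distrib, ← Finset.sum_add_distrib, ← Finset.sum_sub_distrib,
        ← Finset.sum_add_distrib, ← Finset.sum_add_distrib, ← Finset.sum_sub_distrib]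
      refine Finset.sum_congr rfl fun S _ => ?_
      by_cases hj : j ∈ S
      · simp [hj]
      · by_cases h1 : a ∈ S <;> by_cases h2 : b ∈ S <;> by_cases h3 : c ∈ S <;>
          by_cases h4 : d ∈ S <;> simp [hj, h1, h2, h3, h4]
    rw [key]
    exact Ideal.sub_mem _ (Ideal.add_mem _ (r9_t j a b hab) (r9_t j c d hcd))
      (Ideal.add_mem _ (r9_t j a c hac) (r9_t j b d hbd))

end r9

theorem p_degree_exists (h1 : S_rexist) (h2 : S_point) : S_degree_exists := by
  intro ι _ _ h3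
  obtain ⟨j⟩ : Nonempty ι := Fintype.card_pos_iff.1 (by omega)
  have hV : (univ.erase j : Finset ι).card + 1 = Fintype.card ι := by
    rw [Finset.card_erase_of_mem (mem_univ j), Finset.card_univ]
    omega
  obtain ⟨f, f1, f2, f3⟩ := h1 ι (univ.erase j) (by omega)
  set I : Ideal (MvPolynomial (Finset ι) ℚ) := Ideal.span {p | KeelRel ι p} with hI
  have hle : ∀ p ∈ I, r9th j p ∈ RI (univ.erase j) := by
    have : I ≤ (RI (univ.erase j)).comap (r9th j) := by
      rw [hI, Ideal.span_le]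
      intro p hp
      exact r9_rel j p hp
    exact fun p hp => this hp
  let g : MvPolynomial (Finset ι) ℚ →ₗ[ℚ] ℚ := f ∘ₗ (r9th j).toLinearMap
  let φ : Chow ι →ₗ[ℚ] ℚ := ((I.restrictScalars ℚ).liftQ g (by
    intro p hp
    exact f1 _ (hle p hp))) ∘ₗ (Submodule.Quotient.restrictScalarsEquiv ℚ I).symm.toLinearMap
  have hφ : ∀ p, φ (cl p) = f (r9th j p) := fun p => rfl
  refine ⟨φ, ?_, ?_⟩
  · intro d p hp hd
    rw [hφ]
    refine f3 d _ ?_ (by omega)
    have := MvPolynomial.IsHomogeneous.aeval hp (r9x j) (n := 1) (fun S => by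
      unfold r9x
      split_ifs
      · exact MvPolynomial.isHomogeneous_X _ _
      · exact MvPolynomial.isHomogeneous_zero _ _ _)
    rwa [one_mul] at this
  · intro F hF1 hF2 hF3
    have e1 : (∏ S ∈ F, bdiv S) = cl (∏ S ∈ F, MvPolynomial.X S) := by
      unfold bdiv cl
      rw [map_prod]
    rw [e1, hφ, map_prod]
    have hinj : Set.InjOn (r9s j) (F : Set (Finset ι)) := by
        intro S hS T hT hST
        have hST' : r9s j S = r9s j T := hST
        rcases r9s_cases j S with h | h <;> rcases r9s_cases j T with h' | h' <;>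
          rw [h, h'] at hST'
        · exact hST'
        · exfalso
          apply (hF2 T hT).2.2
          rw [← hST']
          exact hS
        · exfalso
          apply (hF2 S hS).2.2
          rw [hST']
          exact hT
        · exact compl_injective hST'
    have e2 : ∏ S ∈ F, r9th j (MvPolynomial.X S) = ∏ S ∈ F.image (r9s j), MvPolynomial.X S := by
      rw [Finset.prod_image hinj]
      refine Finset.prod_congr rfl fun S hS => ?_
      rw [r9th_X]
      unfold r9x
      rw [if_pos ⟨(hF2 S hS).1, (hF2 S hS).2.1⟩]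
    rw [e2]
    have hmax : MaxNested (univ.erase j) (F.image (r9s j)) := by
      refine ⟨?_, ?_, ?_⟩
      · intro S hS
        obtain ⟨S0, hS0, rfl⟩ := Finset.mem_image.1 hS
        obtain ⟨c1, c2⟩ := r9s_card j (hF2 S0 hS0).1 (hF2 S0 hS0).2.1
        refine ⟨⟨r9_sub (r9s_not j S0), fun hc => ?_⟩, c1⟩
        have h5 : (r9s j S0)ᶜ ⊆ {j} := by
          intro x hx
          by_contra hxj
          exact (Finset.mem_compl.1 hx) (hc (Finset.mem_erase.2
            ⟨fun h => hxj (Finset.mem_singleton.2 h), mem_univ _⟩))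
        have h6 := Finset.card_le_card h5
        rw [Finset.card_singleton] at h6
        omega
      · intro S hS T hT
        obtain ⟨S0, hS0, rfl⟩ := Finset.mem_image.1 hS
        obtain ⟨T0, hT0, rfl⟩ := Finset.mem_image.1 hT
        exact (r9_compat_iff j S0 T0).2 (hF3 S0 hS0 T0 hT0)
      · rw [Finset.card_image_of_injOn hinj]
        omega
    let x : Finset ι → (MvPolynomial (Finset ι) ℚ ⧸ RI (univ.erase j)) :=
      fun S => Ideal.Quotient.mk _ (MvPolynomial.X S)
    have hsys : Sys (1 : MvPolynomial (Finset ι) ℚ ⧸ RI (univ.erase j)) (univ.erase j) x := by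
      constructor
      · intro S T hS hT hS2 hT2 hc
        rw [one_mul]
        show Ideal.Quotient.mk _ _ * Ideal.Quotient.mk _ _ = 0
        rw [← map_mul, Ideal.Quotient.eq_zero_iff_mem]
        exact Ideal.subset_span (RootRel.cross S T hS hT hS2 hT2 hc)
      · intro a ha b hb hab
        rw [one_mul]
        show ∑ S ∈ (univ.erase j).powerset with (a ∈ S ∧ b ∈ S), Ideal.Quotient.mk _ _ = 0
        rw [← map_sum, Ideal.Quotient.eq_zero_iff_mem]
        exact Ideal.subset_span (RootRel.lin a b ha hb hab)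
    have hpt := h2 ι _ 1 (univ.erase j) x hsys (by omega) _ hmax
    rw [one_mul, one_mul] at hpt
    have hmem : (∏ S ∈ F.image (r9s j), (MvPolynomial.X S : MvPolynomial (Finset ι) ℚ))
        - (-MvPolynomial.X (univ.erase j)) ^ ((univ.erase j : Finset ι).card - 2)
        ∈ RI (univ.erase j) := by
      rw [← Ideal.Quotient.eq_zero_iff_mem, map_sub, map_prod, map_pow, map_neg]
      exact sub_eq_zero.2 hpt
    have h7 := f1 _ hmem
    rw [map_sub, f2] at h7
    linarith

end Pool.Agent.HH
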